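import Mathlib

/-!
# Multiset dimension of cylinders: definitions and the distance formula
-/

namespace Pool.Agent.Helper14.MDim

open SimpleGraph

/-- The cylinder `C_n □ P_m`, with vertex set `Fin n × Fin m`. -/
abbrev cyl (n m : ℕ) : SimpleGraph (Fin n × Fin m) := cycleGraph n □ pathGraph m

/-- The multiset representation of `v` with respect to `S`: the multiset of the distances
from `v` to the elements of `S`. -/
noncomputable def mrep {V : Type*} (G : SimpleGraph V) (S : Finset V) (v : V) : Multiset ℕ :=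
  S.val.map (fun s => G.dist v s)

/-- `S` is a multiset resolving set of `G`: distinct vertices have distinct multiset
representations. -/
def IsMResolving {V : Type*} (G : SimpleGraph V) (S : Finset V) : Prop :=
  ∀ u v : V, u ≠ v → mrep G S u ≠ mrep G S v

/-- The multiset dimension of `G`: the least cardinality of a multiset resolving set, and `⊤`
if there is none. -/
noncomputable def mdim {V : Type*} (G : SimpleGraph V) : ℕ∞ :=
  sInf {k : ℕ∞ | ∃ S : Finset V, IsMResolving G S ∧ (S.card : ℕ∞) = k}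

/-! ## A distance criterion -/

lemma dist_eq_of_fun {V : Type*} (G : SimpleGraph V) (u : V) (f : V → ℕ)
    (h0 : ∀ x, f x = 0 ↔ x = u)
    (hlip : ∀ x y, G.Adj x y → f y ≤ f x + 1)
    (hdesc : ∀ x, f x ≠ 0 → ∃ y, G.Adj x y ∧ f y + 1 = f x) (x : V) :
    G.dist x u = f x := by
  have hup : ∀ k x, f x = k → ∃ w : G.Walk x u, w.length = k := by
    intro k
    induction k with
    | zero =>
      intro x hx
      have := (h0 x).1 hx
      subst this
      exact ⟨Walk.nil, rfl⟩
    | succ k ih =>
      intro x hx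
      obtain ⟨y, hxy, hy⟩ := hdesc x (by omega)
      obtain ⟨w, hw⟩ := ih y (by omega)
      exact ⟨Walk.cons hxy w, by simp [hw]⟩
  have hlow : ∀ (a b : V) (w : G.Walk a b), f a ≤ f b + w.length := by
    intro a b w
    induction w with
    | nil => simp
    | cons h p ih =>
      have := hlip _ _ h.symm
      simp only [Walk.length_cons]
      omega
  obtain ⟨w, hw⟩ := hup (f x) x rfl
  apply le_antisymm
  · calc G.dist x u ≤ w.length := dist_le w
      _ = f x := hw
  · have hr : G.Reachable x u := ⟨w⟩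
    obtain ⟨p, hp⟩ := hr.exists_walk_length_eq_dist
    have := hlow x u p
    have h2 := (h0 u).2 rfl
    omega

/-- Cyclic distance on integers in `[0, n)`. -/
def cd (n x a : ℤ) : ℤ :=
  if x ≤ a then (if 2 * (a - x) ≤ n then a - x else n - (a - x))
  else (if 2 * (x - a) ≤ n then x - a else n - (x - a))

/-- Absolute difference. -/
def ad (r y : ℤ) : ℤ := if r ≤ y then y - r else r - y

/-- Distance in the cylinder, in integer coordinates. -/
def dd (n x r a y : ℤ) : ℤ := cd n x a + ad r y

lemma dist_cyl (n m : ℕ) (hn : 3 ≤ n) (v s : Fin n × Fin m) :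
    (((cyl n m).dist v s : ℕ) : ℤ) =
      dd n (v.1 : ℕ) (v.2 : ℕ) (s.1 : ℕ) (s.2 : ℕ) := by
  have hnonneg : ∀ x : Fin n × Fin m,
      0 ≤ dd n (x.1 : ℕ) (x.2 : ℕ) (s.1 : ℕ) (s.2 : ℕ) := by
    intro x
    have h1 := x.1.2
    have h2 := s.1.2
    simp only [dd, cd, ad]
    omega
  have key := dist_eq_of_fun (cyl n m) s
    (fun x => (dd n (x.1 : ℕ) (x.2 : ℕ) (s.1 : ℕ) (s.2 : ℕ)).toNat) ?_ ?_ ?_ v
  · rw [key]
    exact Int.toNat_of_nonneg (hnonneg v)
  · intro x
    constructor
    · intro hx
      have h3 := hnonneg x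
      have h1 := x.1.2
      have h2 := s.1.2
      simp only [dd, cd, ad] at hx h3
      ext
      · omega
      · omega
    · rintro rfl
      simp only [dd, cd, ad]
      omega
  · intro x y hxy
    have hx0 := hnonneg x
    have hy0 := hnonneg y
    have h1 := x.1.2
    have h2 := s.1.2
    have h3 := y.1.2
    rw [boxProd_adj] at hxy
    rcases hxy with ⟨h, he⟩ | ⟨h, he⟩
    · rw [cycleGraph_adj'] at h
      have hx2 : (x.2 : ℕ) = y.2 := by rw [he]
      have h4 : ((x.1 : ℕ) : ℤ) = (y.1 : ℕ) + 1 ∨ ((y.1 : ℕ) : ℤ) = (x.1 : ℕ) + 1 ∨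
          (((x.1 : ℕ) : ℤ) = 0 ∧ ((y.1 : ℕ) : ℤ) + 1 = n) ∨
          (((y.1 : ℕ) : ℤ) = 0 ∧ ((x.1 : ℕ) : ℤ) + 1 = n) := by
        rcases h with h | h
        · rw [Fin.val_sub] at h
          by_cases hlt : (y.1 : ℕ) ≤ x.1
          · have : (n - (y.1 : ℕ) + x.1) % n = x.1 - y.1 := by
              have : n - (y.1 : ℕ) + x.1 = (x.1 - y.1 : ℕ) + n := by omega
              rw [this, Nat.add_mod_right, Nat.mod_eq_of_lt (by omega)]
            omega
          · rw [Nat.mod_eq_of_lt (by omega)] at h
            omega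
        · rw [Fin.val_sub] at h
          by_cases hlt : (x.1 : ℕ) ≤ y.1
          · have : (n - (x.1 : ℕ) + y.1) % n = y.1 - x.1 := by
              have : n - (x.1 : ℕ) + y.1 = (y.1 - x.1 : ℕ) + n := by omega
              rw [this, Nat.add_mod_right, Nat.mod_eq_of_lt (by omega)]
            omega
          · rw [Nat.mod_eq_of_lt (by omega)] at h
            omega
      show (dd _ _ _ _ _).toNat ≤ (dd _ _ _ _ _).toNat + 1
      have : dd n (y.1 : ℕ) (y.2 : ℕ) (s.1 : ℕ) (s.2 : ℕ) ≤
          dd n (x.1 : ℕ) (x.2 : ℕ) (s.1 : ℕ) (s.2 : ℕ) + 1 := by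
        simp only [dd, cd, ad, hx2]
        omega
      omega
    · rw [pathGraph_adj] at h
      have hx2 : (x.1 : ℕ) = y.1 := by rw [he]
      show (dd _ _ _ _ _).toNat ≤ (dd _ _ _ _ _).toNat + 1
      have : dd n (y.1 : ℕ) (y.2 : ℕ) (s.1 : ℕ) (s.2 : ℕ) ≤
          dd n (x.1 : ℕ) (x.2 : ℕ) (s.1 : ℕ) (s.2 : ℕ) + 1 := by
        simp only [dd, cd, ad, hx2]
        omega
      omega
  · intro x hx
    have h1 := x.1.2
    have h2 := s.1.2
    have h1' := x.2.2
    have h2' := s.2.2
    have hnn : n = n - 2 + 2 := by omega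
    by_cases hrow : (x.2 : ℕ) = s.2
    · -- move in the column direction
      by_cases hdir : ((x.1 : ℕ) < s.1 ∧ 2 * ((s.1 : ℕ) - x.1 : ℤ) ≤ n) ∨
          ((s.1 : ℕ) < x.1 ∧ (n : ℤ) < 2 * ((x.1 : ℕ) - s.1 : ℤ))
      · -- move up
        by_cases hlast : (x.1 : ℕ) + 1 = n
        · refine ⟨(⟨0, by omega⟩, x.2), ?_, ?_⟩
          · rw [boxProd_adj]
            left
            refine ⟨?_, rfl⟩
            rw [cycleGraph_adj']
            right
            rw [Fin.val_sub]
            simp only
            rw [show n - (x.1 : ℕ) + 0 = 1 by omega, Nat.mod_eq_of_lt (by omega)]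
          · simp only [dd, cd, ad] at hx ⊢
            omega
        · refine ⟨(⟨x.1 + 1, by omega⟩, x.2), ?_, ?_⟩
          · rw [boxProd_adj]
            left
            refine ⟨?_, rfl⟩
            rw [cycleGraph_adj']
            right
            rw [Fin.val_sub]
            simp only
            rw [show n - (x.1 : ℕ) + ((x.1 : ℕ) + 1) = 1 + n by omega, Nat.add_mod_right,
              Nat.mod_eq_of_lt (by omega)]
          · simp only [dd, cd, ad] at hx ⊢
            push_cast
            omega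
      · by_cases hlast : (x.1 : ℕ) = 0
        · refine ⟨(⟨n - 1, by omega⟩, x.2), ?_, ?_⟩
          · rw [boxProd_adj]
            left
            refine ⟨?_, rfl⟩
            rw [cycleGraph_adj']
            left
            rw [Fin.val_sub]
            simp only
            rw [show n - (n - 1) + (x.1 : ℕ) = 1 by omega, Nat.mod_eq_of_lt (by omega)]
          · simp only [dd, cd, ad] at hx ⊢
            omega
        · refine ⟨(⟨x.1 - 1, by omega⟩, x.2), ?_, ?_⟩
          · rw [boxProd_adj]
            left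
            refine ⟨?_, rfl⟩
            rw [cycleGraph_adj']
            left
            rw [Fin.val_sub]
            simp only
            rw [show n - ((x.1 : ℕ) - 1) + (x.1 : ℕ) = 1 + n by omega, Nat.add_mod_right,
              Nat.mod_eq_of_lt (by omega)]
          · simp only [dd, cd, ad] at hx ⊢
            omega
    · by_cases hlt : (x.2 : ℕ) < s.2
      · refine ⟨(x.1, ⟨x.2 + 1, by omega⟩), ?_, ?_⟩
        · rw [boxProd_adj]
          right
          refine ⟨?_, rfl⟩
          rw [pathGraph_adj]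
          left
          rfl
        · simp only [dd, cd, ad] at hx ⊢
          push_cast
          omega
      · refine ⟨(x.1, ⟨x.2 - 1, by omega⟩), ?_, ?_⟩
        · rw [boxProd_adj]
          right
          refine ⟨?_, rfl⟩
          rw [pathGraph_adj]
          right
          simp only
          omega
        · simp only [dd, cd, ad] at hx ⊢
          omega

/-- Equality of the multisets `{p, q, r}` and `{p', q', r'}`. -/
def Same3 (p q r p' q' r' : ℤ) : Prop :=
  (p = p' ∧ q = q' ∧ r = r') ∨ (p = p' ∧ q = r' ∧ r = q') ∨ (p = q' ∧ q = p' ∧ r = r') ∨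
  (p = q' ∧ q = r' ∧ r = p') ∨ (p = r' ∧ q = p' ∧ r = q') ∨ (p = r' ∧ q = q' ∧ r = p')

/-- Two distinct vertices of the cylinder have the same representation with respect to the
three landmarks `(x1, y1)`, `(x2, y2)`, `(x3, y3)`. -/
def Coll (n m x1 y1 x2 y2 x3 y3 : ℤ) : Prop :=
  ∃ x r x' r' : ℤ, (0 ≤ x ∧ x < n) ∧ (0 ≤ r ∧ r < m) ∧ (0 ≤ x' ∧ x' < n) ∧ (0 ≤ r' ∧ r' < m) ∧
    (x ≠ x' ∨ r ≠ r') ∧
    Same3 (dd n x r x1 y1) (dd n x r x2 y2) (dd n x r x3 y3)
      (dd n x' r' x1 y1) (dd n x' r' x2 y2) (dd n x' r' x3 y3)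

end Pool.Agent.Helper14.MDim
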