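import Mathlib
import Pool.Agent.Helper14.MDim.Defs

/-!
# Three landmarks in one row: distances along the six arcs
-/

namespace Pool.Agent.Helper14.MDim

/-- The six arcs cut out by the landmarks `0 < b < c` and their antipodes. -/
def Arc (n b c x A B C : ℤ) : Prop :=
  (x ≤ b ∧ 2*(c-x) ≤ n ∧ A = x ∧ B = b - x ∧ C = c - x) ∨
  (x ≤ b ∧ n < 2*(c-x) ∧ A = x ∧ B = b - x ∧ C = n - (c - x)) ∨
  (b < x ∧ x ≤ c ∧ 2*x ≤ n ∧ A = x ∧ B = x - b ∧ C = c - x) ∨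
  (b < x ∧ x ≤ c ∧ n < 2*x ∧ A = n - x ∧ B = x - b ∧ C = c - x) ∨
  (c < x ∧ 2*(x-b) ≤ n ∧ A = n - x ∧ B = x - b ∧ C = x - c) ∨
  (c < x ∧ n < 2*(x-b) ∧ A = n - x ∧ B = n - (x - b) ∧ C = x - c)

lemma arc_of (n b c x : ℤ) (hb : 0 < b) (hc : b < c) (hcn : c < n) (g1 : 2*b ≤ n)
    (g2 : 2*(c-b) ≤ n) (h1 : n ≤ 2*c+1) (hx : 0 ≤ x) (hx' : x < n) :
    Arc n b c x (cd n x 0) (cd n x b) (cd n x c) := by
  unfold Arc
  by_cases e1 : x ≤ b
  · by_cases e2 : 2*(c-x) ≤ n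
    · left
      refine ⟨e1, e2, ?_, ?_, ?_⟩ <;> simp only [cd] <;> omega
    · right; left
      refine ⟨e1, by omega, ?_, ?_, ?_⟩ <;> simp only [cd] <;> omega
  · by_cases e3 : x ≤ c
    · by_cases e2 : 2*x ≤ n
      · right; right; left
        refine ⟨by omega, e3, e2, ?_, ?_, ?_⟩ <;> simp only [cd] <;> omega
      · right; right; right; left
        refine ⟨by omega, e3, by omega, ?_, ?_, ?_⟩ <;> simp only [cd] <;> omega
    · by_cases e2 : 2*(x-b) ≤ n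
      · right; right; right; right; left
        refine ⟨by omega, e2, ?_, ?_, ?_⟩ <;> simp only [cd] <;> omega
      · right; right; right; right; right
        refine ⟨by omega, by omega, ?_, ?_, ?_⟩ <;> simp only [cd] <;> omega

/-- The three landmarks `(x1,y1)`, `(x2,y2)`, `(x3,y3)` resolve the cylinder. -/
def Res3 (n m x1 y1 x2 y2 x3 y3 : ℤ) : Prop :=
  ∀ x r x' r' : ℤ, 0 ≤ x → x < n → 0 ≤ r → r < m → 0 ≤ x' → x' < n → 0 ≤ r' → r' < m →
    Same3 (dd n x r x1 y1) (dd n x r x2 y2) (dd n x r x3 y3)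
      (dd n x' r' x1 y1) (dd n x' r' x2 y2) (dd n x' r' x3 y3) → x = x' ∧ r = r'

lemma Same3.symm {a b c a' b' c' : ℤ} (h : Same3 a b c a' b' c') : Same3 a' b' c' a b c := by
  rcases h with ⟨p, q, r⟩ | ⟨p, q, r⟩ | ⟨p, q, r⟩ | ⟨p, q, r⟩ | ⟨p, q, r⟩ | ⟨p, q, r⟩
  · left; exact ⟨p.symm, q.symm, r.symm⟩
  · right; left; exact ⟨p.symm, r.symm, q.symm⟩
  · right; right; left; exact ⟨q.symm, p.symm, r.symm⟩
  · right; right; right; right; left; exact ⟨r.symm, p.symm, q.symm⟩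
  · right; right; right; left; exact ⟨q.symm, r.symm, p.symm⟩
  · right; right; right; right; right; exact ⟨r.symm, q.symm, p.symm⟩

/-- Reduction of the resolving property for three landmarks in row `0` to the arcs. -/
lemma res3_row (n m b c : ℤ) (hb : 0 < b) (hc : b < c) (hcn : c < n) (g1 : 2*b ≤ n)
    (g2 : 2*(c-b) ≤ n) (h1 : n ≤ 2*c+1)
    (H : ∀ x x' s A B C A' B' C' : ℤ, 0 ≤ x → x < n → 0 ≤ x' → x' < n → 0 ≤ s → s < m →
      Arc n b c x A B C → Arc n b c x' A' B' C' → Same3 A B C (A' + s) (B' + s) (C' + s) →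
      x = x' ∧ s = 0) : Res3 n m 0 0 b 0 c 0 := by
  have key : ∀ x r x' r' : ℤ, 0 ≤ x → x < n → 0 ≤ r → r < m → 0 ≤ x' → x' < n → 0 ≤ r' →
      r' < m → r ≤ r' → Same3 (dd n x r 0 0) (dd n x r b 0) (dd n x r c 0)
      (dd n x' r' 0 0) (dd n x' r' b 0) (dd n x' r' c 0) → x = x' ∧ r = r' := by
    intro x r x' r' hx hx1 hr hr1 hx' hx1' hr' hr1' hle hs
    have a1 : ad r 0 = r := by simp only [ad]; omega
    have a2 : ad r' 0 = r' := by simp only [ad]; omega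
    simp only [dd, a1, a2] at hs
    have := H x x' (r' - r) _ _ _ _ _ _ hx hx1 hx' hx1' (by omega) (by omega)
      (arc_of n b c x hb hc hcn g1 g2 h1 hx hx1) (arc_of n b c x' hb hc hcn g1 g2 h1 hx' hx1') ?_
    · omega
    · unfold Same3 at hs ⊢
      rcases hs with ⟨p, q, t⟩ | ⟨p, q, t⟩ | ⟨p, q, t⟩ | ⟨p, q, t⟩ | ⟨p, q, t⟩ | ⟨p, q, t⟩
      · left; refine ⟨?_, ?_, ?_⟩ <;> omega
      · right; left; refine ⟨?_, ?_, ?_⟩ <;> omega
      · right; right; left; refine ⟨?_, ?_, ?_⟩ <;> omega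
      · right; right; right; left; refine ⟨?_, ?_, ?_⟩ <;> omega
      · right; right; right; right; left; refine ⟨?_, ?_, ?_⟩ <;> omega
      · right; right; right; right; right; refine ⟨?_, ?_, ?_⟩ <;> omega
  intro x r x' r' hx hx1 hr hr1 hx' hx1' hr' hr1' hs
  rcases le_total r r' with h | h
  · exact key x r x' r' hx hx1 hr hr1 hx' hx1' hr' hr1' h hs
  · have := key x' r' x r hx' hx1' hr' hr1' hx hx1 hr hr1 h hs.symm
    exact ⟨this.1.symm, this.2.symm⟩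

end Pool.Agent.Helper14.MDim
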