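import Mathlib
import Pool.Agent.Helper14.MDim.Defs

/-!
# Collisions for three landmarks: residual configurations
-/

namespace Pool.Agent.Helper14.MDim

lemma t2ac_odd_0 (h D b c : ℤ) (h0 : 1 ≤ D) (h1 : 1 ≤ b) (h2 : b + 1 ≤ h) (h3 : 0 ≤ c) (h4 : 2*c ≤ b)
    (c0 : 0 ≤ D - c - 2) (c1 : (D + c) % 2 = 0) :
    Coll (2*h+1) (D+1) (0) (0) (b) (0) (c) (D) := by
  refine ⟨(c + 1), ((D + c + 2)/2), (2*h), ((D - c - 2)/2), by omega, by omega, by omega, by omega, by omega, ?_⟩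
  right; right; right; right; right
  simp only [dd, cd, ad]
  refine ⟨?_, ?_, ?_⟩ <;> omega

lemma t2ac_odd_1 (h D b c : ℤ) (h0 : 1 ≤ D) (h1 : 1 ≤ b) (h2 : b + 1 ≤ h) (h3 : 0 ≤ c) (h4 : 2*c ≤ b)
    (c0 : 0 ≤ D - c - 1) (c1 : (D + c + 1) % 2 = 0) :
    Coll (2*h+1) (D+1) (0) (0) (b) (0) (c) (D) := by
  refine ⟨(h), ((D + c + 1)/2), (h + c + 1), ((D - c - 1)/2), by omega, by omega, by omega, by omega, by omega, ?_⟩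
  right; right; right; right; right
  simp only [dd, cd, ad]
  refine ⟨?_, ?_, ?_⟩ <;> omega

lemma t2ac_odd_2 (h D b c : ℤ) (h0 : 1 ≤ D) (h1 : 1 ≤ b) (h2 : b + 1 ≤ h) (h3 : 0 ≤ c) (h4 : 2*c ≤ b)
    (c0 : 0 ≤ -D + c) (c1 : (D + c) % 2 = 0) :
    Coll (2*h+1) (D+1) (0) (0) (b) (0) (c) (D) := by
  refine ⟨((-D + c)/2), (0), ((D + c)/2), (D), by omega, by omega, by omega, by omega, by omega, ?_⟩
  right; right; right; right; right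
  simp only [dd, cd, ad]
  refine ⟨?_, ?_, ?_⟩ <;> omega

lemma t2ac_odd_3 (h D b c : ℤ) (h0 : 1 ≤ D) (h1 : 1 ≤ b) (h2 : b + 1 ≤ h) (h3 : 0 ≤ c) (h4 : 2*c ≤ b)
    (c0 : 0 ≤ -D + c) (c1 : (D + c + 1) % 2 = 0) :
    Coll (2*h+1) (D+1) (0) (0) (b) (0) (c) (D) := by
  refine ⟨((2*h - D + c + 1)/2), (D), ((2*h + D + c + 1)/2), (0), by omega, by omega, by omega, by omega, by omega, ?_⟩
  right; right; right; right; right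
  simp only [dd, cd, ad]
  refine ⟨?_, ?_, ?_⟩ <;> omega

theorem type2ac_odd (h D b c : ℤ) (h0 : 1 ≤ D) (h1 : 1 ≤ b) (h2 : b + 1 ≤ h) (h3 : 0 ≤ c) (h4 : 2*c ≤ b) :
    Coll (2*h+1) (D+1) (0) (0) (b) (0) (c) (D) := by
  by_cases e : 0 ≤ D - c - 2 ∧ (D + c) % 2 = 0
  · exact t2ac_odd_0 h D b c h0 h1 h2 h3 h4 e.1 e.2
  have e_t2ac_odd_0 := e; clear e
  by_cases e : 0 ≤ D - c - 1 ∧ (D + c + 1) % 2 = 0
  · exact t2ac_odd_1 h D b c h0 h1 h2 h3 h4 e.1 e.2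
  have e_t2ac_odd_1 := e; clear e
  by_cases e : 0 ≤ -D + c ∧ (D + c) % 2 = 0
  · exact t2ac_odd_2 h D b c h0 h1 h2 h3 h4 e.1 e.2
  have e_t2ac_odd_2 := e; clear e
  by_cases e : 0 ≤ -D + c ∧ (D + c + 1) % 2 = 0
  · exact t2ac_odd_3 h D b c h0 h1 h2 h3 h4 e.1 e.2
  have e_t2ac_odd_3 := e; clear e
  exfalso
  obtain ⟨D', eD | eD⟩ : ∃ D', D = 2*D' ∨ D = 2*D' + 1 := ⟨D/2, by omega⟩ <;>
  obtain ⟨b', eb | eb⟩ : ∃ b', b = 2*b' ∨ b = 2*b' + 1 := ⟨b/2, by omega⟩ <;>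
  obtain ⟨c', ec | ec⟩ : ∃ c', c = 2*c' ∨ c = 2*c' + 1 := ⟨c/2, by omega⟩ <;>
  omega

lemma t2bL_0 (h D c : ℤ) (h0 : 1 ≤ D) (h1 : 2 ≤ h) (h2 : 0 ≤ c) (h3 : 2*c ≤ h)
    (c0 : 0 ≤ D - c - 1) (c1 : (D + c + 1) % 2 = 0) :
    Coll (2*h+1) (D+1) (0) (0) (h) (0) (c) (D) := by
  refine ⟨(c + 1), ((D + c + 1)/2), (2*h), ((D - c - 1)/2), by omega, by omega, by omega, by omega, by omega, ?_⟩
  right; right; right; right; right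
  simp only [dd, cd, ad]
  refine ⟨?_, ?_, ?_⟩ <;> omega

lemma t2bL_1 (h D c : ℤ) (h0 : 1 ≤ D) (h1 : 2 ≤ h) (h2 : 0 ≤ c) (h3 : 2*c ≤ h)
    (c0 : 0 ≤ c - 1) (c1 : 0 ≤ D - c) (c2 : (D + c) % 2 = 0) :
    Coll (2*h+1) (D+1) (0) (0) (h) (0) (c) (D) := by
  refine ⟨(0), ((D - c)/2), (c), ((D + c)/2), by omega, by omega, by omega, by omega, by omega, ?_⟩
  right; right; right; right; right
  simp only [dd, cd, ad]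
  refine ⟨?_, ?_, ?_⟩ <;> omega

lemma t2bL_2 (h D c : ℤ) (h0 : 1 ≤ D) (h1 : 2 ≤ h) (h2 : 0 ≤ c) (h3 : 2*c ≤ h)
    (c0 : 0 ≤ -h + D + c + 2) (c1 : 0 ≤ 2*h - 2*c - 3) (c2 : (h + D + c) % 2 = 0) :
    Coll (2*h+1) (D+1) (0) (0) (h) (0) (c) (D) := by
  refine ⟨(c + 1), ((-h + D + c + 4)/2), (c + 2), ((-h + D + c + 2)/2), by omega, by omega, by omega, by omega, by omega, ?_⟩
  right; left
  simp only [dd, cd, ad]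
  refine ⟨?_, ?_, ?_⟩ <;> omega

lemma t2bL_3 (h D c : ℤ) (h0 : 1 ≤ D) (h1 : 2 ≤ h) (h2 : 0 ≤ c) (h3 : 2*c ≤ h)
    (c0 : 0 ≤ -h + D + c + 3) (c1 : 0 ≤ 2*h - 2*c - 5) (c2 : (h + D + c + 1) % 2 = 0) :
    Coll (2*h+1) (D+1) (0) (0) (h) (0) (c) (D) := by
  refine ⟨(2*h - 2), ((-h + D + c + 3)/2), (2*h - 1), ((-h + D + c + 5)/2), by omega, by omega, by omega, by omega, by omega, ?_⟩
  right; left
  simp only [dd, cd, ad]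
  refine ⟨?_, ?_, ?_⟩ <;> omega

lemma t2bL_4 (h D c : ℤ) (h0 : 1 ≤ D) (h1 : 2 ≤ h) (h2 : 0 ≤ c) (h3 : 2*c ≤ h)
    (c0 : 0 ≤ h - D - c) (c1 : (h + D + c) % 2 = 0) :
    Coll (2*h+1) (D+1) (0) (0) (h) (0) (c) (D) := by
  refine ⟨((h - D + c)/2), (1), ((h - D + c + 2)/2), (0), by omega, by omega, by omega, by omega, by omega, ?_⟩
  right; left
  simp only [dd, cd, ad]
  refine ⟨?_, ?_, ?_⟩ <;> omega

lemma t2bL_5 (h D c : ℤ) (h0 : 1 ≤ D) (h1 : 2 ≤ h) (h2 : 0 ≤ c) (h3 : 2*c ≤ h)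
    (c0 : 0 ≤ h - D - c - 1) (c1 : (h + D + c + 1) % 2 = 0) :
    Coll (2*h+1) (D+1) (0) (0) (h) (0) (c) (D) := by
  refine ⟨((3*h - D + c + 1)/2), (0), ((3*h + D + c + 1)/2), (D), by omega, by omega, by omega, by omega, by omega, ?_⟩
  right; left
  simp only [dd, cd, ad]
  refine ⟨?_, ?_, ?_⟩ <;> omega

theorem type2bL (h D c : ℤ) (h0 : 1 ≤ D) (h1 : 2 ≤ h) (h2 : 0 ≤ c) (h3 : 2*c ≤ h) :
    Coll (2*h+1) (D+1) (0) (0) (h) (0) (c) (D) := by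
  by_cases e : 0 ≤ D - c - 1 ∧ (D + c + 1) % 2 = 0
  · exact t2bL_0 h D c h0 h1 h2 h3 e.1 e.2
  have e_t2bL_0 := e; clear e
  by_cases e : 0 ≤ c - 1 ∧ 0 ≤ D - c ∧ (D + c) % 2 = 0
  · exact t2bL_1 h D c h0 h1 h2 h3 e.1 e.2.1 e.2.2
  have e_t2bL_1 := e; clear e
  by_cases e : 0 ≤ -h + D + c + 2 ∧ 0 ≤ 2*h - 2*c - 3 ∧ (h + D + c) % 2 = 0
  · exact t2bL_2 h D c h0 h1 h2 h3 e.1 e.2.1 e.2.2
  have e_t2bL_2 := e; clear e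
  by_cases e : 0 ≤ -h + D + c + 3 ∧ 0 ≤ 2*h - 2*c - 5 ∧ (h + D + c + 1) % 2 = 0
  · exact t2bL_3 h D c h0 h1 h2 h3 e.1 e.2.1 e.2.2
  have e_t2bL_3 := e; clear e
  by_cases e : 0 ≤ h - D - c ∧ (h + D + c) % 2 = 0
  · exact t2bL_4 h D c h0 h1 h2 h3 e.1 e.2
  have e_t2bL_4 := e; clear e
  by_cases e : 0 ≤ h - D - c - 1 ∧ (h + D + c + 1) % 2 = 0
  · exact t2bL_5 h D c h0 h1 h2 h3 e.1 e.2
  have e_t2bL_5 := e; clear e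
  exfalso
  obtain ⟨h', eh | eh⟩ : ∃ h', h = 2*h' ∨ h = 2*h' + 1 := ⟨h/2, by omega⟩ <;>
  obtain ⟨D', eD | eD⟩ : ∃ D', D = 2*D' ∨ D = 2*D' + 1 := ⟨D/2, by omega⟩ <;>
  obtain ⟨c', ec | ec⟩ : ∃ c', c = 2*c' ∨ c = 2*c' + 1 := ⟨c/2, by omega⟩ <;>
  omega

lemma t2bR_0 (h D c : ℤ) (h0 : 1 ≤ D) (h1 : 2 ≤ h) (h2 : h + 1 ≤ c) (h3 : c ≤ 2*h) (h4 : 2*c ≤ 3*h + 1)
    (c0 : 0 ≤ -2*h + D + c + 1) (c1 : (D + c + 1) % 2 = 0) :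
    Coll (2*h+1) (D+1) (0) (0) (h) (0) (c) (D) := by
  refine ⟨(2*h - 1), ((2*h + D - c - 1)/2), (2*h), ((2*h + D - c - 3)/2), by omega, by omega, by omega, by omega, by omega, ?_⟩
  right; right; right; right; right
  simp only [dd, cd, ad]
  refine ⟨?_, ?_, ?_⟩ <;> omega

lemma t2bR_1 (h D c : ℤ) (h0 : 1 ≤ D) (h1 : 2 ≤ h) (h2 : h + 1 ≤ c) (h3 : c ≤ 2*h) (h4 : 2*c ≤ 3*h + 1)
    (c0 : 0 ≤ -2*h + D + c) (c1 : (D + c) % 2 = 0) :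
    Coll (2*h+1) (D+1) (0) (0) (h) (0) (c) (D) := by
  refine ⟨(0), ((2*h + D - c - 2)/2), (2*h - 1), ((2*h + D - c)/2), by omega, by omega, by omega, by omega, by omega, ?_⟩
  right; right; right; right; right
  simp only [dd, cd, ad]
  refine ⟨?_, ?_, ?_⟩ <;> omega

lemma t2bR_2 (h D c : ℤ) (h0 : 1 ≤ D) (h1 : 2 ≤ h) (h2 : h + 1 ≤ c) (h3 : c ≤ 2*h) (h4 : 2*c ≤ 3*h + 1)
    (c0 : 0 ≤ 2*h - D - c) (c1 : (D + c) % 2 = 0) :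
    Coll (2*h+1) (D+1) (0) (0) (h) (0) (c) (D) := by
  refine ⟨((-D + c)/2), (0), ((D + c)/2), (D), by omega, by omega, by omega, by omega, by omega, ?_⟩
  right; right; right; right; right
  simp only [dd, cd, ad]
  refine ⟨?_, ?_, ?_⟩ <;> omega

lemma t2bR_3 (h D c : ℤ) (h0 : 1 ≤ D) (h1 : 2 ≤ h) (h2 : h + 1 ≤ c) (h3 : c ≤ 2*h) (h4 : 2*c ≤ 3*h + 1)
    (c0 : 0 ≤ 2*h - D - c + 1) (c1 : (D + c + 1) % 2 = 0) :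
    Coll (2*h+1) (D+1) (0) (0) (h) (0) (c) (D) := by
  refine ⟨((2*h - D + c + 1)/2), (1), ((2*h - D + c + 3)/2), (0), by omega, by omega, by omega, by omega, by omega, ?_⟩
  right; right; right; right; right
  simp only [dd, cd, ad]
  refine ⟨?_, ?_, ?_⟩ <;> omega

theorem type2bR (h D c : ℤ) (h0 : 1 ≤ D) (h1 : 2 ≤ h) (h2 : h + 1 ≤ c) (h3 : c ≤ 2*h) (h4 : 2*c ≤ 3*h + 1) :
    Coll (2*h+1) (D+1) (0) (0) (h) (0) (c) (D) := by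
  by_cases e : 0 ≤ -2*h + D + c + 1 ∧ (D + c + 1) % 2 = 0
  · exact t2bR_0 h D c h0 h1 h2 h3 h4 e.1 e.2
  have e_t2bR_0 := e; clear e
  by_cases e : 0 ≤ -2*h + D + c ∧ (D + c) % 2 = 0
  · exact t2bR_1 h D c h0 h1 h2 h3 h4 e.1 e.2
  have e_t2bR_1 := e; clear e
  by_cases e : 0 ≤ 2*h - D - c ∧ (D + c) % 2 = 0
  · exact t2bR_2 h D c h0 h1 h2 h3 h4 e.1 e.2
  have e_t2bR_2 := e; clear e
  by_cases e : 0 ≤ 2*h - D - c + 1 ∧ (D + c + 1) % 2 = 0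
  · exact t2bR_3 h D c h0 h1 h2 h3 h4 e.1 e.2
  have e_t2bR_3 := e; clear e
  exfalso
  obtain ⟨h', eh | eh⟩ : ∃ h', h = 2*h' ∨ h = 2*h' + 1 := ⟨h/2, by omega⟩ <;>
  obtain ⟨D', eD | eD⟩ : ∃ D', D = 2*D' ∨ D = 2*D' + 1 := ⟨D/2, by omega⟩ <;>
  obtain ⟨c', ec | ec⟩ : ∃ c', c = 2*c' ∨ c = 2*c' + 1 := ⟨c/2, by omega⟩ <;>
  omega

end Pool.Agent.Helper14.MDim
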