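import Mathlib
import Pool.Agent.Helper14.MDim.Defs

/-!
# Collisions for three landmarks: residual configurations
-/

namespace Pool.Agent.Helper14.MDim

lemma t3a_even_0 (h D b y : ℤ) (h0 : 1 ≤ y) (h1 : 2*y ≤ D) (h2 : 1 ≤ b) (h3 : b + 1 ≤ h)
    (c0 : 0 ≤ -D + 2*b + 2*y) (c1 : 0 ≤ 2*h - D - 2*b + 2*y) (c2 : (D) % 2 = 0) :
    Coll (2*h) (D+1) (0) (0) (b) (y) (0) (D) := by
  refine ⟨((2*h + D - 2*y)/2), (y - 1), ((2*h - D + 2*y)/2), (D - y + 1), by omega, by omega, by omega, by omega, by omega, ?_⟩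
  right; right; right; right; right
  simp only [dd, cd, ad]
  refine ⟨?_, ?_, ?_⟩ <;> omega

lemma t3a_even_1 (h D b y : ℤ) (h0 : 1 ≤ y) (h1 : 2*y ≤ D) (h2 : 1 ≤ b) (h3 : b + 1 ≤ h)
    (c0 : 0 ≤ b - y) (c1 : (b + y) % 2 = 0) :
    Coll (2*h) (D+1) (0) (0) (b) (y) (0) (D) := by
  refine ⟨((b - y)/2), (0), ((b + y)/2), (y), by omega, by omega, by omega, by omega, by omega, ?_⟩
  right; right; left
  simp only [dd, cd, ad]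
  refine ⟨?_, ?_, ?_⟩ <;> omega

lemma t3a_even_2 (h D b y : ℤ) (h0 : 1 ≤ y) (h1 : 2*y ≤ D) (h2 : 1 ≤ b) (h3 : b + 1 ≤ h)
    (c0 : 0 ≤ -D + b + y + 2) (c1 : 0 ≤ D - y - 2) (c2 : (D + b + y) % 2 = 0) :
    Coll (2*h) (D+1) (0) (0) (b) (y) (0) (D) := by
  refine ⟨((D + b - y - 4)/2), (D - 1), ((D + b - y - 2)/2), (D - 2), by omega, by omega, by omega, by omega, by omega, ?_⟩
  right; left
  simp only [dd, cd, ad]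
  refine ⟨?_, ?_, ?_⟩ <;> omega

lemma t3a_even_3 (h D b y : ℤ) (h0 : 1 ≤ y) (h1 : 2*y ≤ D) (h2 : 1 ≤ b) (h3 : b + 1 ≤ h)
    (c0 : 0 ≤ D - 2*y - 2) (c1 : (D) % 2 = 0) :
    Coll (2*h) (D+1) (0) (0) (b) (y) (0) (D) := by
  refine ⟨(1), ((D + 2)/2), (2*h - 1), ((D - 2)/2), by omega, by omega, by omega, by omega, by omega, ?_⟩
  right; right; right; right; right
  simp only [dd, cd, ad]
  refine ⟨?_, ?_, ?_⟩ <;> omega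

lemma t3a_even_4 (h D b y : ℤ) (h0 : 1 ≤ y) (h1 : 2*y ≤ D) (h2 : 1 ≤ b) (h3 : b + 1 ≤ h)
    (c0 : 0 ≤ D - b - y) (c1 : (D + b + y) % 2 = 0) :
    Coll (2*h) (D+1) (0) (0) (b) (y) (0) (D) := by
  refine ⟨(0), ((D + b + y)/2), (b), ((D - b + y)/2), by omega, by omega, by omega, by omega, by omega, ?_⟩
  right; left
  simp only [dd, cd, ad]
  refine ⟨?_, ?_, ?_⟩ <;> omega

lemma t3a_even_5 (h D b y : ℤ) (h0 : 1 ≤ y) (h1 : 2*y ≤ D) (h2 : 1 ≤ b) (h3 : b + 1 ≤ h)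
    (c0 : 0 ≤ -b + y) (c1 : (b + y) % 2 = 0) :
    Coll (2*h) (D+1) (0) (0) (b) (y) (0) (D) := by
  refine ⟨(0), ((-b + y)/2), (b), ((b + y)/2), by omega, by omega, by omega, by omega, by omega, ?_⟩
  right; right; left
  simp only [dd, cd, ad]
  refine ⟨?_, ?_, ?_⟩ <;> omega

theorem type3a_even (h D b y : ℤ) (h0 : 1 ≤ y) (h1 : 2*y ≤ D) (h2 : 1 ≤ b) (h3 : b + 1 ≤ h) :
    Coll (2*h) (D+1) (0) (0) (b) (y) (0) (D) := by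
  by_cases e : 0 ≤ -D + 2*b + 2*y ∧ 0 ≤ 2*h - D - 2*b + 2*y ∧ (D) % 2 = 0
  · exact t3a_even_0 h D b y h0 h1 h2 h3 e.1 e.2.1 e.2.2
  have e_t3a_even_0 := e; clear e
  by_cases e : 0 ≤ b - y ∧ (b + y) % 2 = 0
  · exact t3a_even_1 h D b y h0 h1 h2 h3 e.1 e.2
  have e_t3a_even_1 := e; clear e
  by_cases e : 0 ≤ -D + b + y + 2 ∧ 0 ≤ D - y - 2 ∧ (D + b + y) % 2 = 0
  · exact t3a_even_2 h D b y h0 h1 h2 h3 e.1 e.2.1 e.2.2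
  have e_t3a_even_2 := e; clear e
  by_cases e : 0 ≤ D - 2*y - 2 ∧ (D) % 2 = 0
  · exact t3a_even_3 h D b y h0 h1 h2 h3 e.1 e.2
  have e_t3a_even_3 := e; clear e
  by_cases e : 0 ≤ D - b - y ∧ (D + b + y) % 2 = 0
  · exact t3a_even_4 h D b y h0 h1 h2 h3 e.1 e.2
  have e_t3a_even_4 := e; clear e
  by_cases e : 0 ≤ -b + y ∧ (b + y) % 2 = 0
  · exact t3a_even_5 h D b y h0 h1 h2 h3 e.1 e.2
  have e_t3a_even_5 := e; clear e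
  exfalso
  obtain ⟨D', eD | eD⟩ : ∃ D', D = 2*D' ∨ D = 2*D' + 1 := ⟨D/2, by omega⟩ <;>
  obtain ⟨b', eb | eb⟩ : ∃ b', b = 2*b' ∨ b = 2*b' + 1 := ⟨b/2, by omega⟩ <;>
  obtain ⟨y', ey | ey⟩ : ∃ y', y = 2*y' ∨ y = 2*y' + 1 := ⟨y/2, by omega⟩ <;>
  omega

lemma t3a_odd_0 (h D b y : ℤ) (h0 : 1 ≤ y) (h1 : 2*y ≤ D) (h2 : 1 ≤ b) (h3 : b + 1 ≤ h)
    (c0 : 0 ≤ -D + 2*y) (c1 : (D) % 2 = 0) :
    Coll (2*h+1) (D+1) (0) (0) (b) (y) (0) (D) := by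
  refine ⟨(0), (0), ((D - 2*y)/2), ((D + 2*y)/2), by omega, by omega, by omega, by omega, by omega, ?_⟩
  right; right; right; right; right
  simp only [dd, cd, ad]
  refine ⟨?_, ?_, ?_⟩ <;> omega

lemma t3a_odd_1 (h D b y : ℤ) (h0 : 1 ≤ y) (h1 : 2*y ≤ D) (h2 : 1 ≤ b) (h3 : b + 1 ≤ h)
    (c0 : (D + 1) % 2 = 0) :
    Coll (2*h+1) (D+1) (0) (0) (b) (y) (0) (D) := by
  refine ⟨(h), ((D + 1)/2), (h + 1), ((D - 1)/2), by omega, by omega, by omega, by omega, by omega, ?_⟩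
  right; right; right; right; right
  simp only [dd, cd, ad]
  refine ⟨?_, ?_, ?_⟩ <;> omega

lemma t3a_odd_2 (h D b y : ℤ) (h0 : 1 ≤ y) (h1 : 2*y ≤ D) (h2 : 1 ≤ b) (h3 : b + 1 ≤ h)
    (c0 : 0 ≤ D - 2*y - 2) (c1 : (D) % 2 = 0) :
    Coll (2*h+1) (D+1) (0) (0) (b) (y) (0) (D) := by
  refine ⟨(1), ((D + 2)/2), (2*h), ((D - 2)/2), by omega, by omega, by omega, by omega, by omega, ?_⟩
  right; right; right; right; right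
  simp only [dd, cd, ad]
  refine ⟨?_, ?_, ?_⟩ <;> omega

theorem type3a_odd (h D b y : ℤ) (h0 : 1 ≤ y) (h1 : 2*y ≤ D) (h2 : 1 ≤ b) (h3 : b + 1 ≤ h) :
    Coll (2*h+1) (D+1) (0) (0) (b) (y) (0) (D) := by
  by_cases e : 0 ≤ -D + 2*y ∧ (D) % 2 = 0
  · exact t3a_odd_0 h D b y h0 h1 h2 h3 e.1 e.2
  have e_t3a_odd_0 := e; clear e
  by_cases e : (D + 1) % 2 = 0
  · exact t3a_odd_1 h D b y h0 h1 h2 h3 e
  have e_t3a_odd_1 := e; clear e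
  by_cases e : 0 ≤ D - 2*y - 2 ∧ (D) % 2 = 0
  · exact t3a_odd_2 h D b y h0 h1 h2 h3 e.1 e.2
  have e_t3a_odd_2 := e; clear e
  exfalso
  obtain ⟨D', eD | eD⟩ : ∃ D', D = 2*D' ∨ D = 2*D' + 1 := ⟨D/2, by omega⟩ <;>
  obtain ⟨b', eb | eb⟩ : ∃ b', b = 2*b' ∨ b = 2*b' + 1 := ⟨b/2, by omega⟩ <;>
  obtain ⟨y', ey | ey⟩ : ∃ y', y = 2*y' ∨ y = 2*y' + 1 := ⟨y/2, by omega⟩ <;>
  omega

end Pool.Agent.Helper14.MDim
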