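import Mathlib
import Pool.Agent.Helper14.MDim.Defs

/-!
# Collisions for three landmarks: residual configurations
-/

namespace Pool.Agent.Helper14.MDim

lemma t1_even_0 (h D b c : ℤ) (h0 : 1 ≤ D) (h1 : 1 ≤ b) (h2 : 2*b ≤ c) (h3 : 2*c ≤ 2*h + b) (h4 : h ≤ c) (h5 : ((D % 2 = 1 ∧ (2*h ≤ 6*(D+1) - 2 ∨ 2*h = 6*(D+1) + 1)) ∨ (D % 2 = 0 ∧ (2*h ≤ 6*(D+1) - 1 ∨ 2*h = 6*(D+1) + 2))))
    (c0 : (b) % 2 = 0) :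
    Coll (2*h) (D+1) (0) (0) (b) (0) (c) (0) := by
  refine ⟨(b + 1), ((2*h + b - 2*c)/2), ((2*h - b + 2*c - 2)/2), (0), by omega, by omega, by omega, by omega, by omega, ?_⟩
  right; right; left
  simp only [dd, cd, ad]
  refine ⟨?_, ?_, ?_⟩ <;> omega

lemma t1_even_1 (h D b c : ℤ) (h0 : 1 ≤ D) (h1 : 1 ≤ b) (h2 : 2*b ≤ c) (h3 : 2*c ≤ 2*h + b) (h4 : h ≤ c) (h5 : ((D % 2 = 1 ∧ (2*h ≤ 6*(D+1) - 2 ∨ 2*h = 6*(D+1) + 1)) ∨ (D % 2 = 0 ∧ (2*h ≤ 6*(D+1) - 1 ∨ 2*h = 6*(D+1) + 2))))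
    (c0 : 0 ≤ -2*h + 2*D + b + c) (c1 : 0 ≤ 3*b - c) (c2 : (b + c) % 2 = 0) :
    Coll (2*h) (D+1) (0) (0) (b) (0) (c) (0) := by
  refine ⟨((-b + c)/2), ((2*h - b - c)/2), (h + b), (0), by omega, by omega, by omega, by omega, by omega, ?_⟩
  right; left
  simp only [dd, cd, ad]
  refine ⟨?_, ?_, ?_⟩ <;> omega

lemma t1_even_2 (h D b c : ℤ) (h0 : 1 ≤ D) (h1 : 1 ≤ b) (h2 : 2*b ≤ c) (h3 : 2*c ≤ 2*h + b) (h4 : h ≤ c) (h5 : ((D % 2 = 1 ∧ (2*h ≤ 6*(D+1) - 2 ∨ 2*h = 6*(D+1) + 1)) ∨ (D % 2 = 0 ∧ (2*h ≤ 6*(D+1) - 1 ∨ 2*h = 6*(D+1) + 2))))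
    (c0 : 0 ≤ -2*h + 2*b + c) (c1 : (c) % 2 = 0) :
    Coll (2*h) (D+1) (0) (0) (b) (0) (c) (0) := by
  refine ⟨(0), ((-2*b + c)/2), ((2*b + c)/2), (0), by omega, by omega, by omega, by omega, by omega, ?_⟩
  right; right; right; right; right
  simp only [dd, cd, ad]
  refine ⟨?_, ?_, ?_⟩ <;> omega

lemma t1_even_3 (h D b c : ℤ) (h0 : 1 ≤ D) (h1 : 1 ≤ b) (h2 : 2*b ≤ c) (h3 : 2*c ≤ 2*h + b) (h4 : h ≤ c) (h5 : ((D % 2 = 1 ∧ (2*h ≤ 6*(D+1) - 2 ∨ 2*h = 6*(D+1) + 1)) ∨ (D % 2 = 0 ∧ (2*h ≤ 6*(D+1) - 1 ∨ 2*h = 6*(D+1) + 2))))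
    (c0 : 0 ≤ 2*h - 2*b - c - 2) (c1 : (c) % 2 = 0) :
    Coll (2*h) (D+1) (0) (0) (b) (0) (c) (0) := by
  refine ⟨((2*b + c)/2), (0), ((2*h + 2*b + c)/2), (-h + c), by omega, by omega, by omega, by omega, by omega, ?_⟩
  right; right; right; right; right
  simp only [dd, cd, ad]
  refine ⟨?_, ?_, ?_⟩ <;> omega

lemma t1_even_4 (h D b c : ℤ) (h0 : 1 ≤ D) (h1 : 1 ≤ b) (h2 : 2*b ≤ c) (h3 : 2*c ≤ 2*h + b) (h4 : h ≤ c) (h5 : ((D % 2 = 1 ∧ (2*h ≤ 6*(D+1) - 2 ∨ 2*h = 6*(D+1) + 1)) ∨ (D % 2 = 0 ∧ (2*h ≤ 6*(D+1) - 1 ∨ 2*h = 6*(D+1) + 2))))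
    (c0 : 0 ≤ -3*b + c) (c1 : (b + c) % 2 = 0) :
    Coll (2*h) (D+1) (0) (0) (b) (0) (c) (0) := by
  refine ⟨((-b + c)/2), (h + b - c), ((2*h - b + c)/2), (0), by omega, by omega, by omega, by omega, by omega, ?_⟩
  right; left
  simp only [dd, cd, ad]
  refine ⟨?_, ?_, ?_⟩ <;> omega

theorem type1_even (h D b c : ℤ) (h0 : 1 ≤ D) (h1 : 1 ≤ b) (h2 : 2*b ≤ c) (h3 : 2*c ≤ 2*h + b) (h4 : h ≤ c) (h5 : ((D % 2 = 1 ∧ (2*h ≤ 6*(D+1) - 2 ∨ 2*h = 6*(D+1) + 1)) ∨ (D % 2 = 0 ∧ (2*h ≤ 6*(D+1) - 1 ∨ 2*h = 6*(D+1) + 2)))) :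
    Coll (2*h) (D+1) (0) (0) (b) (0) (c) (0) := by
  by_cases e : (b) % 2 = 0
  · exact t1_even_0 h D b c h0 h1 h2 h3 h4 h5 e
  have e_t1_even_0 := e; clear e
  by_cases e : 0 ≤ -2*h + 2*D + b + c ∧ 0 ≤ 3*b - c ∧ (b + c) % 2 = 0
  · exact t1_even_1 h D b c h0 h1 h2 h3 h4 h5 e.1 e.2.1 e.2.2
  have e_t1_even_1 := e; clear e
  by_cases e : 0 ≤ -2*h + 2*b + c ∧ (c) % 2 = 0
  · exact t1_even_2 h D b c h0 h1 h2 h3 h4 h5 e.1 e.2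
  have e_t1_even_2 := e; clear e
  by_cases e : 0 ≤ 2*h - 2*b - c - 2 ∧ (c) % 2 = 0
  · exact t1_even_3 h D b c h0 h1 h2 h3 h4 h5 e.1 e.2
  have e_t1_even_3 := e; clear e
  by_cases e : 0 ≤ -3*b + c ∧ (b + c) % 2 = 0
  · exact t1_even_4 h D b c h0 h1 h2 h3 h4 h5 e.1 e.2
  have e_t1_even_4 := e; clear e
  exfalso
  obtain ⟨D', eD | eD⟩ : ∃ D', D = 2*D' ∨ D = 2*D' + 1 := ⟨D/2, by omega⟩ <;>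
  obtain ⟨b', eb | eb⟩ : ∃ b', b = 2*b' ∨ b = 2*b' + 1 := ⟨b/2, by omega⟩ <;>
  obtain ⟨c', ec | ec⟩ : ∃ c', c = 2*c' ∨ c = 2*c' + 1 := ⟨c/2, by omega⟩ <;>
  omega

end Pool.Agent.Helper14.MDim
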