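import Mathlib
import Pool.Agent.Helper14.MDim.Defs

/-!
# Collisions for three landmarks: residual configurations
-/

namespace Pool.Agent.Helper14.MDim

lemma t1_odd_0 (h D b c : ℤ) (h0 : 1 ≤ D) (h1 : 1 ≤ b) (h2 : 2*b ≤ c) (h3 : 2*c ≤ 2*h + 1 + b) (h4 : h ≤ c) (h5 : ((D % 2 = 1 ∧ (2*h+1 ≤ 6*(D+1) - 2 ∨ 2*h+1 = 6*(D+1) + 1)) ∨ (D % 2 = 0 ∧ (2*h+1 ≤ 6*(D+1) - 1 ∨ 2*h+1 = 6*(D+1) + 2))))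
    (c0 : 0 ≤ -2*h + 2*D - b + 2*c - 1) (c1 : 0 ≤ 2*h + b - 2*c) (c2 : (b + 1) % 2 = 0) :
    Coll (2*h+1) (D+1) (0) (0) (b) (0) (c) (0) := by
  refine ⟨(b), ((2*h + b - 2*c + 1)/2), ((2*h - b + 2*c + 1)/2), (0), by omega, by omega, by omega, by omega, by omega, ?_⟩
  right; right; left
  simp only [dd, cd, ad]
  refine ⟨?_, ?_, ?_⟩ <;> omega

lemma t1_odd_1 (h D b c : ℤ) (h0 : 1 ≤ D) (h1 : 1 ≤ b) (h2 : 2*b ≤ c) (h3 : 2*c ≤ 2*h + 1 + b) (h4 : h ≤ c) (h5 : ((D % 2 = 1 ∧ (2*h+1 ≤ 6*(D+1) - 2 ∨ 2*h+1 = 6*(D+1) + 1)) ∨ (D % 2 = 0 ∧ (2*h+1 ≤ 6*(D+1) - 1 ∨ 2*h+1 = 6*(D+1) + 2))))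
    (c0 : 0 ≤ 3*b - c) (c1 : (b) % 2 = 0) (c2 : (b + c) % 2 = 0) (c3 : (c) % 2 = 0) :
    Coll (2*h+1) (D+1) (0) (0) (b) (0) (c) (0) := by
  refine ⟨((-b + c)/2), ((-2*b + c)/2), ((-b + 2*c)/2), (0), by omega, by omega, by omega, by omega, by omega, ?_⟩
  right; right; right; left
  simp only [dd, cd, ad]
  refine ⟨?_, ?_, ?_⟩ <;> omega

lemma t1_odd_2 (h D b c : ℤ) (h0 : 1 ≤ D) (h1 : 1 ≤ b) (h2 : 2*b ≤ c) (h3 : 2*c ≤ 2*h + 1 + b) (h4 : h ≤ c) (h5 : ((D % 2 = 1 ∧ (2*h+1 ≤ 6*(D+1) - 2 ∨ 2*h+1 = 6*(D+1) + 1)) ∨ (D % 2 = 0 ∧ (2*h+1 ≤ 6*(D+1) - 1 ∨ 2*h+1 = 6*(D+1) + 2))))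
    (c0 : 0 ≤ -2*h + 2*D + b + c - 1) (c1 : 0 ≤ 3*b - c - 1) (c2 : (b + c + 1) % 2 = 0) :
    Coll (2*h+1) (D+1) (0) (0) (b) (0) (c) (0) := by
  refine ⟨((-b + c + 1)/2), (D), (h + b), ((-2*h + 2*D + b + c - 1)/2), by omega, by omega, by omega, by omega, by omega, ?_⟩
  right; left
  simp only [dd, cd, ad]
  refine ⟨?_, ?_, ?_⟩ <;> omega

lemma t1_odd_3 (h D b c : ℤ) (h0 : 1 ≤ D) (h1 : 1 ≤ b) (h2 : 2*b ≤ c) (h3 : 2*c ≤ 2*h + 1 + b) (h4 : h ≤ c) (h5 : ((D % 2 = 1 ∧ (2*h+1 ≤ 6*(D+1) - 2 ∨ 2*h+1 = 6*(D+1) + 1)) ∨ (D % 2 = 0 ∧ (2*h+1 ≤ 6*(D+1) - 1 ∨ 2*h+1 = 6*(D+1) + 2))))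
    (c0 : 0 ≤ -3*b + c) (c1 : (b + c + 1) % 2 = 0) (c2 : (b) % 2 = 0) (c3 : (c + 1) % 2 = 0) :
    Coll (2*h+1) (D+1) (0) (0) (b) (0) (c) (0) := by
  refine ⟨((2*h - b + c + 1)/2), (0), ((2*h + 2*b + c + 1)/2), ((b)/2), by omega, by omega, by omega, by omega, by omega, ?_⟩
  right; right; right; left
  simp only [dd, cd, ad]
  refine ⟨?_, ?_, ?_⟩ <;> omega

lemma t1_odd_4 (h D b c : ℤ) (h0 : 1 ≤ D) (h1 : 1 ≤ b) (h2 : 2*b ≤ c) (h3 : 2*c ≤ 2*h + 1 + b) (h4 : h ≤ c) (h5 : ((D % 2 = 1 ∧ (2*h+1 ≤ 6*(D+1) - 2 ∨ 2*h+1 = 6*(D+1) + 1)) ∨ (D % 2 = 0 ∧ (2*h+1 ≤ 6*(D+1) - 1 ∨ 2*h+1 = 6*(D+1) + 2))))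
    (c0 : 0 ≤ -3*b + c) (c1 : (b) % 2 = 0) (c2 : (b + c) % 2 = 0) (c3 : (c) % 2 = 0) :
    Coll (2*h+1) (D+1) (0) (0) (b) (0) (c) (0) := by
  refine ⟨((-b + c)/2), ((b)/2), ((2*b + c)/2), (0), by omega, by omega, by omega, by omega, by omega, ?_⟩
  right; right; right; left
  simp only [dd, cd, ad]
  refine ⟨?_, ?_, ?_⟩ <;> omega

lemma t1_odd_5 (h D b c : ℤ) (h0 : 1 ≤ D) (h1 : 1 ≤ b) (h2 : 2*b ≤ c) (h3 : 2*c ≤ 2*h + 1 + b) (h4 : h ≤ c) (h5 : ((D % 2 = 1 ∧ (2*h+1 ≤ 6*(D+1) - 2 ∨ 2*h+1 = 6*(D+1) + 1)) ∨ (D % 2 = 0 ∧ (2*h+1 ≤ 6*(D+1) - 1 ∨ 2*h+1 = 6*(D+1) + 2))))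
    (c0 : 0 ≤ 2*b - c) (c1 : (c) % 2 = 0) :
    Coll (2*h+1) (D+1) (0) (0) (b) (0) (c) (0) := by
  refine ⟨((2*b - c)/2), (0), ((2*b + c)/2), (0), by omega, by omega, by omega, by omega, by omega, ?_⟩
  right; right; right; right; right
  simp only [dd, cd, ad]
  refine ⟨?_, ?_, ?_⟩ <;> omega

lemma t1_odd_6 (h D b c : ℤ) (h0 : 1 ≤ D) (h1 : 1 ≤ b) (h2 : 2*b ≤ c) (h3 : 2*c ≤ 2*h + 1 + b) (h4 : h ≤ c) (h5 : ((D % 2 = 1 ∧ (2*h+1 ≤ 6*(D+1) - 2 ∨ 2*h+1 = 6*(D+1) + 1)) ∨ (D % 2 = 0 ∧ (2*h+1 ≤ 6*(D+1) - 1 ∨ 2*h+1 = 6*(D+1) + 2))))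
    (c0 : 2*h + b - 2*c + 1 = 0) :
    Coll (2*h+1) (D+1) (0) (0) (b) (0) (c) (0) := by
  refine ⟨(b), (0), (0), (0), by omega, by omega, by omega, by omega, by omega, ?_⟩
  right; right; left
  simp only [dd, cd, ad]
  refine ⟨?_, ?_, ?_⟩ <;> omega

theorem type1_odd (h D b c : ℤ) (h0 : 1 ≤ D) (h1 : 1 ≤ b) (h2 : 2*b ≤ c) (h3 : 2*c ≤ 2*h + 1 + b) (h4 : h ≤ c) (h5 : ((D % 2 = 1 ∧ (2*h+1 ≤ 6*(D+1) - 2 ∨ 2*h+1 = 6*(D+1) + 1)) ∨ (D % 2 = 0 ∧ (2*h+1 ≤ 6*(D+1) - 1 ∨ 2*h+1 = 6*(D+1) + 2)))) :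
    Coll (2*h+1) (D+1) (0) (0) (b) (0) (c) (0) := by
  obtain ⟨b', hb | hb⟩ : ∃ b', b = 2*b' ∨ b = 2*b' + 1 := ⟨b/2, by omega⟩ <;>
  obtain ⟨c', hc | hc⟩ : ∃ c', c = 2*c' ∨ c = 2*c' + 1 := ⟨c/2, by omega⟩
  · by_cases e : 0 ≤ 3*b - c
    · exact t1_odd_1 h D b c h0 h1 h2 h3 h4 h5 e (by omega) (by omega) (by omega)
    · exact t1_odd_4 h D b c h0 h1 h2 h3 h4 h5 (by omega) (by omega) (by omega) (by omega)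
  · by_cases e : 0 ≤ -3*b + c
    · exact t1_odd_3 h D b c h0 h1 h2 h3 h4 h5 e (by omega) (by omega) (by omega)
    · have e2 : 0 ≤ -2*h + 2*D + b + c - 1 := by
        rcases h5 with ⟨h5, h6⟩ | ⟨h5, h6⟩ <;>
        obtain ⟨D', hD | hD⟩ : ∃ D', D = 2*D' ∨ D = 2*D' + 1 := ⟨D/2, by omega⟩ <;>
        rcases h6 with h6 | h6 <;> omega
      exact t1_odd_2 h D b c h0 h1 h2 h3 h4 h5 e2 (by omega) (by omega)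
  · by_cases e : 0 ≤ 2*b - c
    · exact t1_odd_5 h D b c h0 h1 h2 h3 h4 h5 e (by omega)
    · by_cases e1 : 2*h + b - 2*c + 1 = 0
      · exact t1_odd_6 h D b c h0 h1 h2 h3 h4 h5 e1
      · by_cases e2 : 0 ≤ -2*h + 2*D - b + 2*c - 1
        · exact t1_odd_0 h D b c h0 h1 h2 h3 h4 h5 e2 (by omega) (by omega)
        · have e3 : 0 ≤ -2*h + 2*D + b + c - 1 ∧ 0 ≤ 3*b - c - 1 := by
            rcases h5 with ⟨h5, h6⟩ | ⟨h5, h6⟩ <;>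
            obtain ⟨D', hD | hD⟩ : ∃ D', D = 2*D' ∨ D = 2*D' + 1 := ⟨D/2, by omega⟩ <;>
            rcases h6 with h6 | h6 <;> constructor <;> omega
          exact t1_odd_2 h D b c h0 h1 h2 h3 h4 h5 e3.1 e3.2 (by omega)
  · by_cases e1 : 2*h + b - 2*c + 1 = 0
    · exact t1_odd_6 h D b c h0 h1 h2 h3 h4 h5 e1
    · have e2 : 0 ≤ -2*h + 2*D - b + 2*c - 1 := by
        rcases h5 with ⟨h5, h6⟩ | ⟨h5, h6⟩ <;>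
        obtain ⟨D', hD | hD⟩ : ∃ D', D = 2*D' ∨ D = 2*D' + 1 := ⟨D/2, by omega⟩ <;>
        rcases h6 with h6 | h6 <;> omega
      exact t1_odd_0 h D b c h0 h1 h2 h3 h4 h5 e2 (by omega) (by omega)

end Pool.Agent.Helper14.MDim
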