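import Mathlib
import Pool.Agent.Helper14.MDim.Defs

/-!
# Collisions for three landmarks: residual configurations
-/

namespace Pool.Agent.Helper14.MDim

lemma t3b0_0 (h D y : ℤ) (h0 : 1 ≤ y) (h1 : y + 1 ≤ D) (h2 : 2 ≤ h)
    (c0 : 0 ≤ h - y) (c1 : (h + y) % 2 = 0) :
    Coll (2*h+1) (D+1) (0) (0) (h) (y) (0) (D) := by
  refine ⟨((h - y)/2), (0), ((h + y)/2), (y), by omega, by omega, by omega, by omega, by omega, ?_⟩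
  right; right; left
  simp only [dd, cd, ad]
  refine ⟨?_, ?_, ?_⟩ <;> omega

lemma t3b0_1 (h D y : ℤ) (h0 : 1 ≤ y) (h1 : y + 1 ≤ D) (h2 : 2 ≤ h)
    (c0 : 0 ≤ h - y - 1) (c1 : (h + y + 1) % 2 = 0) :
    Coll (2*h+1) (D+1) (0) (0) (h) (y) (0) (D) := by
  refine ⟨((3*h - y + 1)/2), (y), ((3*h + y + 1)/2), (0), by omega, by omega, by omega, by omega, by omega, ?_⟩
  right; right; left
  simp only [dd, cd, ad]
  refine ⟨?_, ?_, ?_⟩ <;> omega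

lemma t3b0_2 (h D y : ℤ) (h0 : 1 ≤ y) (h1 : y + 1 ≤ D) (h2 : 2 ≤ h)
    (c0 : 0 ≤ -h + y + 1) (c1 : (h + y + 1) % 2 = 0) :
    Coll (2*h+1) (D+1) (0) (0) (h) (y) (0) (D) := by
  refine ⟨(h + 1), ((-h + y + 3)/2), (h + 2), ((-h + y + 1)/2), by omega, by omega, by omega, by omega, by omega, ?_⟩
  right; right; left
  simp only [dd, cd, ad]
  refine ⟨?_, ?_, ?_⟩ <;> omega

lemma t3b0_3 (h D y : ℤ) (h0 : 1 ≤ y) (h1 : y + 1 ≤ D) (h2 : 2 ≤ h)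
    (c0 : 0 ≤ -h + y) (c1 : (h + y) % 2 = 0) :
    Coll (2*h+1) (D+1) (0) (0) (h) (y) (0) (D) := by
  refine ⟨(0), ((-h + y)/2), (h), ((h + y)/2), by omega, by omega, by omega, by omega, by omega, ?_⟩
  right; right; left
  simp only [dd, cd, ad]
  refine ⟨?_, ?_, ?_⟩ <;> omega

theorem type3b0 (h D y : ℤ) (h0 : 1 ≤ y) (h1 : y + 1 ≤ D) (h2 : 2 ≤ h) :
    Coll (2*h+1) (D+1) (0) (0) (h) (y) (0) (D) := by
  by_cases e : 0 ≤ h - y ∧ (h + y) % 2 = 0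
  · exact t3b0_0 h D y h0 h1 h2 e.1 e.2
  have e_t3b0_0 := e; clear e
  by_cases e : 0 ≤ h - y - 1 ∧ (h + y + 1) % 2 = 0
  · exact t3b0_1 h D y h0 h1 h2 e.1 e.2
  have e_t3b0_1 := e; clear e
  by_cases e : 0 ≤ -h + y + 1 ∧ (h + y + 1) % 2 = 0
  · exact t3b0_2 h D y h0 h1 h2 e.1 e.2
  have e_t3b0_2 := e; clear e
  by_cases e : 0 ≤ -h + y ∧ (h + y) % 2 = 0
  · exact t3b0_3 h D y h0 h1 h2 e.1 e.2
  have e_t3b0_3 := e; clear e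
  exfalso
  obtain ⟨h', eh | eh⟩ : ∃ h', h = 2*h' ∨ h = 2*h' + 1 := ⟨h/2, by omega⟩ <;>
  obtain ⟨D', eD | eD⟩ : ∃ D', D = 2*D' ∨ D = 2*D' + 1 := ⟨D/2, by omega⟩ <;>
  obtain ⟨y', ey | ey⟩ : ∃ y', y = 2*y' ∨ y = 2*y' + 1 := ⟨y/2, by omega⟩ <;>
  omega

lemma t3b1_0 (h D y : ℤ) (h0 : 1 ≤ y) (h1 : y + 1 ≤ D) (h2 : 2 ≤ h)
    (c0 : 0 ≤ h - y) (c1 : (h + y) % 2 = 0) :
    Coll (2*h+1) (D+1) (0) (0) (h) (y) (2*h) (D) := by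
  refine ⟨((h - y)/2), (y - 1), ((h - y + 2)/2), (y), by omega, by omega, by omega, by omega, by omega, ?_⟩
  right; right; left
  simp only [dd, cd, ad]
  refine ⟨?_, ?_, ?_⟩ <;> omega

lemma t3b1_1 (h D y : ℤ) (h0 : 1 ≤ y) (h1 : y + 1 ≤ D) (h2 : 2 ≤ h)
    (c0 : (D) % 2 = 0) :
    Coll (2*h+1) (D+1) (0) (0) (h) (y) (2*h) (D) := by
  refine ⟨(0), ((D)/2), (2*h), ((D)/2), by omega, by omega, by omega, by omega, by omega, ?_⟩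
  right; right; right; right; right
  simp only [dd, cd, ad]
  refine ⟨?_, ?_, ?_⟩ <;> omega

lemma t3b1_2 (h D y : ℤ) (h0 : 1 ≤ y) (h1 : y + 1 ≤ D) (h2 : 2 ≤ h)
    (c0 : 0 ≤ h - D + y) (c1 : (h + D + y) % 2 = 0) :
    Coll (2*h+1) (D+1) (0) (0) (h) (y) (2*h) (D) := by
  refine ⟨((3*h + D - y - 2)/2), (y), ((3*h + D - y)/2), (y + 1), by omega, by omega, by omega, by omega, by omega, ?_⟩
  right; left
  simp only [dd, cd, ad]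
  refine ⟨?_, ?_, ?_⟩ <;> omega

lemma t3b1_3 (h D y : ℤ) (h0 : 1 ≤ y) (h1 : y + 1 ≤ D) (h2 : 2 ≤ h)
    (c0 : 0 ≤ -h + D - y) (c1 : (h + D + y) % 2 = 0) :
    Coll (2*h+1) (D+1) (0) (0) (h) (y) (2*h) (D) := by
  refine ⟨(h + 1), ((-h + D + y)/2), (2*h), ((h + D + y - 2)/2), by omega, by omega, by omega, by omega, by omega, ?_⟩
  right; left
  simp only [dd, cd, ad]
  refine ⟨?_, ?_, ?_⟩ <;> omega

lemma t3b1_4 (h D y : ℤ) (h0 : 1 ≤ y) (h1 : y + 1 ≤ D) (h2 : 2 ≤ h)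
    (c0 : 0 ≤ -h + y) (c1 : (h + y) % 2 = 0) :
    Coll (2*h+1) (D+1) (0) (0) (h) (y) (2*h) (D) := by
  refine ⟨(0), ((-h + y + 2)/2), (h - 1), ((h + y)/2), by omega, by omega, by omega, by omega, by omega, ?_⟩
  right; right; left
  simp only [dd, cd, ad]
  refine ⟨?_, ?_, ?_⟩ <;> omega

theorem type3b1 (h D y : ℤ) (h0 : 1 ≤ y) (h1 : y + 1 ≤ D) (h2 : 2 ≤ h) :
    Coll (2*h+1) (D+1) (0) (0) (h) (y) (2*h) (D) := by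
  by_cases e : 0 ≤ h - y ∧ (h + y) % 2 = 0
  · exact t3b1_0 h D y h0 h1 h2 e.1 e.2
  have e_t3b1_0 := e; clear e
  by_cases e : (D) % 2 = 0
  · exact t3b1_1 h D y h0 h1 h2 e
  have e_t3b1_1 := e; clear e
  by_cases e : 0 ≤ h - D + y ∧ (h + D + y) % 2 = 0
  · exact t3b1_2 h D y h0 h1 h2 e.1 e.2
  have e_t3b1_2 := e; clear e
  by_cases e : 0 ≤ -h + D - y ∧ (h + D + y) % 2 = 0
  · exact t3b1_3 h D y h0 h1 h2 e.1 e.2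
  have e_t3b1_3 := e; clear e
  by_cases e : 0 ≤ -h + y ∧ (h + y) % 2 = 0
  · exact t3b1_4 h D y h0 h1 h2 e.1 e.2
  have e_t3b1_4 := e; clear e
  exfalso
  obtain ⟨h', eh | eh⟩ : ∃ h', h = 2*h' ∨ h = 2*h' + 1 := ⟨h/2, by omega⟩ <;>
  obtain ⟨D', eD | eD⟩ : ∃ D', D = 2*D' ∨ D = 2*D' + 1 := ⟨D/2, by omega⟩ <;>
  obtain ⟨y', ey | ey⟩ : ∃ y', y = 2*y' ∨ y = 2*y' + 1 := ⟨y/2, by omega⟩ <;>
  omega

end Pool.Agent.Helper14.MDim
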