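import Mathlib
import Pool.Agent.Helper14.MDim.TypesA
import Pool.Agent.Helper14.MDim.TypesB
import Pool.Agent.Helper14.MDim.TypesC
import Pool.Agent.Helper14.MDim.TypesD
import Pool.Agent.Helper14.MDim.TypesE
import Pool.Agent.Helper14.MDim.TypesF

/-!
# All residual configurations
-/
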