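import Mathlib
import Pool.Agent.Helper14.MDim.Types

/-!
# No three landmarks resolve the cylinder in the bad range
-/

namespace Pool.Agent.Helper14.MDim

variable {n m x1 y1 x2 y2 x3 y3 : ℤ}

lemma Same3.swap12 {a1 a2 a3 b1 b2 b3 : ℤ} (h : Same3 a2 a1 a3 b2 b1 b3) :
    Same3 a1 a2 a3 b1 b2 b3 := by
  rcases h with ⟨p, q, r⟩ | ⟨p, q, r⟩ | ⟨p, q, r⟩ | ⟨p, q, r⟩ | ⟨p, q, r⟩ | ⟨p, q, r⟩
  · left; exact ⟨q, p, r⟩
  · right; right; right; right; right; exact ⟨q, p, r⟩
  · right; right; left; exact ⟨q, p, r⟩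
  · right; right; right; right; left; exact ⟨q, p, r⟩
  · right; right; right; left; exact ⟨q, p, r⟩
  · right; left; exact ⟨q, p, r⟩

lemma Same3.swap23 {a1 a2 a3 b1 b2 b3 : ℤ} (h : Same3 a1 a3 a2 b1 b3 b2) :
    Same3 a1 a2 a3 b1 b2 b3 := by
  rcases h with ⟨p, q, r⟩ | ⟨p, q, r⟩ | ⟨p, q, r⟩ | ⟨p, q, r⟩ | ⟨p, q, r⟩ | ⟨p, q, r⟩
  · left; exact ⟨p, r, q⟩
  · right; left; exact ⟨p, r, q⟩
  · right; right; right; right; right; exact ⟨p, r, q⟩
  · right; right; right; right; left; exact ⟨p, r, q⟩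
  · right; right; right; left; exact ⟨p, r, q⟩
  · right; right; left; exact ⟨p, r, q⟩

lemma Coll.swap12 (h : Coll n m x2 y2 x1 y1 x3 y3) : Coll n m x1 y1 x2 y2 x3 y3 := by
  obtain ⟨x, r, x', r', a, b, c, d, e, f⟩ := h
  exact ⟨x, r, x', r', a, b, c, d, e, f.swap12⟩

lemma Coll.swap23 (h : Coll n m x1 y1 x3 y3 x2 y2) : Coll n m x1 y1 x2 y2 x3 y3 := by
  obtain ⟨x, r, x', r', a, b, c, d, e, f⟩ := h
  exact ⟨x, r, x', r', a, b, c, d, e, f.swap23⟩

lemma Coll.shift {k : ℤ} (h : Coll n k x1 y1 x2 y2 x3 y3) (t : ℤ) (ht : 0 ≤ t) (hk : k + t ≤ m) :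
    Coll n m x1 (y1 + t) x2 (y2 + t) x3 (y3 + t) := by
  obtain ⟨x, r, x', r', a, b, c, d, e, f⟩ := h
  have key : ∀ x r a y, dd n x (r + t) a (y + t) = dd n x r a y := by
    intro x r a y
    simp only [dd, ad]
    omega
  refine ⟨x, r + t, x', r' + t, a, by omega, c, by omega, by omega, ?_⟩
  simp only [key]
  exact f

lemma Coll.mirror (h : Coll n m x1 (m - 1 - y1) x2 (m - 1 - y2) x3 (m - 1 - y3)) :
    Coll n m x1 y1 x2 y2 x3 y3 := by
  obtain ⟨x, r, x', r', a, b, c, d, e, f⟩ := h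
  have key : ∀ x r a y, dd n x (m - 1 - r) a y = dd n x r a (m - 1 - y) := by
    intro x r a y
    simp only [dd, ad]
    omega
  refine ⟨x, m - 1 - r, x', m - 1 - r', a, by omega, c, by omega, by omega, ?_⟩
  simp only [key]
  exact f

/-- wrap an integer in `[0, 2n)` to `[0, n)` -/
def wr (n x : ℤ) : ℤ := if x < n then x else x - n

lemma cd_wr (x a x1 b : ℤ) (hx : 0 ≤ x) (hx' : x < n) (ha : 0 ≤ a) (ha' : a < n)
    (h1 : 0 ≤ x1) (h1' : x1 < n) (hb : b = if x1 ≤ a then a - x1 else a - x1 + n) :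
    cd n (wr n (x + x1)) a = cd n x b := by
  simp only [cd, wr]
  omega

lemma Coll.rot {b c : ℤ} (h : Coll n m 0 y1 b y2 c y3)
    (h1 : 0 ≤ x1) (h1' : x1 < n) (h2 : 0 ≤ x2) (h2' : x2 < n) (h3 : 0 ≤ x3) (h3' : x3 < n)
    (hb : b = if x1 ≤ x2 then x2 - x1 else x2 - x1 + n)
    (hc : c = if x1 ≤ x3 then x3 - x1 else x3 - x1 + n) :
    Coll n m x1 y1 x2 y2 x3 y3 := by
  obtain ⟨x, r, x', r', a, b', c', d, e, f⟩ := h
  refine ⟨wr n (x + x1), r, wr n (x' + x1), r', ?_, b', ?_, d, ?_, ?_⟩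
  · simp only [wr]; omega
  · simp only [wr]; omega
  · simp only [wr]; omega
  · simp only [dd] at f ⊢
    rw [cd_wr x x1 x1 0 a.1 a.2 h1 h1' h1 h1' (by simp),
      cd_wr x' x1 x1 0 c'.1 c'.2 h1 h1' h1 h1' (by simp),
      cd_wr x x2 x1 b a.1 a.2 h2 h2' h1 h1' hb,
      cd_wr x' x2 x1 b c'.1 c'.2 h2 h2' h1 h1' hb,
      cd_wr x x3 x1 c a.1 a.2 h3 h3' h1 h1' hc,
      cd_wr x' x3 x1 c c'.1 c'.2 h3 h3' h1 h1' hc]
    exact f

/-- reflection of the columns fixing column `0` -/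
def rf (n x : ℤ) : ℤ := if x = 0 then 0 else n - x

lemma cd_rf (x a : ℤ) (hx : 0 ≤ x) (hx' : x < n) (ha : 0 ≤ a) (ha' : a < n) :
    cd n (rf n x) a = cd n x (rf n a) := by
  simp only [cd, rf]
  omega

lemma Coll.reflect {b c : ℤ} (hb : 0 ≤ b) (hb' : b < n) (hc : 0 ≤ c) (hc' : c < n)
    (h : Coll n m 0 y1 (rf n b) y2 (rf n c) y3) : Coll n m 0 y1 b y2 c y3 := by
  obtain ⟨x, r, x', r', a, b', c', d, e, f⟩ := h
  have hn : 0 < n := by omega
  refine ⟨rf n x, r, rf n x', r', ?_, b', ?_, d, ?_, ?_⟩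
  · simp only [rf]; omega
  · simp only [rf]; omega
  · simp only [rf]; omega
  · simp only [dd] at f ⊢
    rw [cd_rf x 0 a.1 a.2 le_rfl hn, cd_rf x' 0 c'.1 c'.2 le_rfl hn, cd_rf x b a.1 a.2 hb hb',
      cd_rf x' b c'.1 c'.2 hb hb', cd_rf x c a.1 a.2 hc hc', cd_rf x' c c'.1 c'.2 hc hc']
    simpa [rf] using f

/-- the reflection `x ↦ b - x` -/
def fl (n b x : ℤ) : ℤ := if x ≤ b then b - x else b - x + n

lemma cd_fl (x a b : ℤ) (hx : 0 ≤ x) (hx' : x < n) (ha : 0 ≤ a) (ha' : a < n)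
    (hb : 0 ≤ b) (hb' : b < n) :
    cd n (fl n b x) a = cd n x (fl n b a) := by
  simp only [cd, fl]
  omega

lemma Coll.flip {b c : ℤ} (hb : 0 ≤ b) (hb' : b < n) (hc : 0 ≤ c) (hc' : c < n)
    (h : Coll n m 0 y2 b y1 (fl n b c) y3) : Coll n m 0 y1 b y2 c y3 := by
  have h := h.swap12
  obtain ⟨x, r, x', r', a, b', c', d, e, f⟩ := h
  have hn : 0 < n := by omega
  refine ⟨fl n b x, r, fl n b x', r', ?_, b', ?_, d, ?_, ?_⟩
  · simp only [fl]; omega
  · simp only [fl]; omega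
  · simp only [fl]; omega
  · simp only [dd] at f ⊢
    rw [cd_fl x 0 b a.1 a.2 le_rfl hn hb hb', cd_fl x' 0 b c'.1 c'.2 le_rfl hn hb hb',
      cd_fl x b b a.1 a.2 hb hb' hb hb', cd_fl x' b b c'.1 c'.2 hb hb' hb hb',
      cd_fl x c b a.1 a.2 hc hc' hb hb', cd_fl x' c b c'.1 c'.2 hc hc' hb hb']
    have e1 : fl n b 0 = b := by simp only [fl]; omega
    have e2 : fl n b b = 0 := by simp only [fl]; omega
    rw [e1, e2]
    exact f

/-! ## Two antipodal landmarks in one row, `n` even -/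

lemma type2b_even_aux (h D c : ℤ) (h0 : 1 ≤ D) (h1 : 2 ≤ h) (h2 : 0 ≤ c) (h3 : c ≤ h)
    (h4 : h % 2 = 0 ∨ (c = 0 ∨ c = h) ∨ (c + D) % 2 = 0) :
    Coll (2*h) (D+1) 0 0 h 0 c D := by
  by_cases e1 : c = 0 ∨ c = h
  · refine ⟨1, 0, 2*h-1, 0, by omega, by omega, by omega, by omega, by omega, ?_⟩
    left
    simp only [dd, cd, ad]
    refine ⟨?_, ?_, ?_⟩ <;> omega
  by_cases e2 : h % 2 = 0
  · by_cases e3 : 2 * c < h
    · refine ⟨c - h/2 + 2*h, 0, c + h/2, 0, by omega, by omega, by omega, by omega, by omega, ?_⟩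
      right; right; left
      simp only [dd, cd, ad]
      refine ⟨?_, ?_, ?_⟩ <;> omega
    · refine ⟨c - h/2, 0, c + h/2, 0, by omega, by omega, by omega, by omega, by omega, ?_⟩
      right; right; left
      simp only [dd, cd, ad]
      refine ⟨?_, ?_, ?_⟩ <;> omega
  have e4 : (c + D) % 2 = 0 := by omega
  by_cases e5 : D ≤ c
  · refine ⟨(c-D)/2, 0, (c+D)/2, D, by omega, by omega, by omega, by omega, by omega, ?_⟩
    right; right; right; right; right
    simp only [dd, cd, ad]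
    refine ⟨?_, ?_, ?_⟩ <;> omega
  · refine ⟨c+1, (c+D)/2, 2*h-1, (D-c)/2, by omega, by omega, by omega, by omega, by omega, ?_⟩
    right; right; right; right; right
    simp only [dd, cd, ad]
    refine ⟨?_, ?_, ?_⟩ <;> omega

lemma type2b_even (h D c : ℤ) (h0 : 1 ≤ D) (h1 : 2 ≤ h) (h2 : 0 ≤ c) (h3 : c < 2*h) :
    Coll (2*h) (D+1) 0 0 h 0 c D := by
  have main : ∀ c, 0 ≤ c → c ≤ h → Coll (2*h) (D+1) 0 0 h 0 c D := by
    intro c hc hc'
    by_cases e : h % 2 = 0 ∨ (c = 0 ∨ c = h) ∨ (c + D) % 2 = 0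
    · exact type2b_even_aux h D c h0 h1 hc hc' e
    · refine Coll.flip (by omega) (by omega) (by omega) (by omega) ?_
      have : fl (2*h) h c = h - c := by simp only [fl]; omega
      rw [this]
      exact type2b_even_aux h D (h - c) h0 h1 (by omega) (by omega) (by omega)
  by_cases e : c ≤ h
  · exact main c h2 e
  · refine Coll.reflect (by omega) (by omega) (by omega) (by omega) ?_
    have e1 : rf (2*h) h = h := by simp only [rf]; omega
    have e2 : rf (2*h) c = 2*h - c := by simp only [rf]; omega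
    rw [e1, e2]
    exact main _ (by omega) (by omega)

lemma type2b_odd (h D c : ℤ) (h0 : 1 ≤ D) (h1 : 2 ≤ h) (h2 : 0 ≤ c) (h3 : c < 2*h+1) :
    Coll (2*h+1) (D+1) 0 0 h 0 c D := by
  by_cases e : c ≤ h
  · by_cases e2 : 2*c ≤ h
    · exact type2bL h D c h0 h1 h2 e2
    · refine Coll.flip (by omega) (by omega) (by omega) (by omega) ?_
      have : fl (2*h+1) h c = h - c := by simp only [fl]; omega
      rw [this]
      exact type2bL h D (h - c) h0 h1 (by omega) (by omega)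
  · by_cases e2 : 2*c ≤ 3*h + 1
    · exact type2bR h D c h0 h1 (by omega) (by omega) e2
    · refine Coll.flip (by omega) (by omega) (by omega) (by omega) ?_
      have : fl (2*h+1) h c = 3*h + 1 - c := by simp only [fl]; omega
      rw [this]
      exact type2bR h D (3*h+1-c) h0 h1 (by omega) (by omega) (by omega)

/-- The range of `(n, m)` where three landmarks never resolve. -/
def Bad (n m : ℤ) : Prop :=
  (m % 2 = 0 ∧ (n ≤ 6*m - 2 ∨ n = 6*m + 1)) ∨ (m % 2 = 1 ∧ (n ≤ 6*m - 1 ∨ n = 6*m + 2))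

lemma type2ac (hn : 4 ≤ n) (hm : 2 ≤ m) (hbad : Bad n m) (b c : ℤ) (h1 : 1 ≤ b)
    (h2 : 2*b + 2 ≤ n) (h3 : 0 ≤ c) (h4 : c ≤ b) : Coll n m 0 0 b 0 c (m-1) := by
  have main : ∀ c, 0 ≤ c → 2*c ≤ b → Coll n m 0 0 b 0 c (m-1) := by
    intro c hc hc'
    unfold Bad at hbad
    obtain ⟨h, hh | hh⟩ : ∃ h, n = 2*h ∨ n = 2*h+1 := ⟨n/2, by omega⟩
    · have := type2ac_even h (m-1) b c (by omega) h1 (by omega) hc hc' (by omega)
      rw [hh]
      rwa [show m - 1 + 1 = m by omega] at this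
    · have := type2ac_odd h (m-1) b c (by omega) h1 (by omega) hc hc'
      rw [hh]
      rwa [show m - 1 + 1 = m by omega] at this
  by_cases e : 2*c ≤ b
  · exact main c h3 e
  · refine Coll.flip (by omega) (by omega) (by omega) (by omega) ?_
    have : fl n b c = b - c := by simp only [fl]; omega
    rw [this]
    exact main _ (by omega) (by omega)

lemma type3a (b y : ℤ) (h1 : 1 ≤ b) (h2 : 2*b + 2 ≤ n) (h3 : 1 ≤ y)
    (h4 : y + 1 ≤ m - 1) : Coll n m 0 0 b y 0 (m-1) := by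
  have main : ∀ y, 1 ≤ y → 2*y ≤ m - 1 → Coll n m 0 0 b y 0 (m-1) := by
    intro y hc hc'
    obtain ⟨h, hh | hh⟩ : ∃ h, n = 2*h ∨ n = 2*h+1 := ⟨n/2, by omega⟩
    · have := type3a_even h (m-1) b y (by omega) (by omega) (by omega) (by omega)
      rw [hh]
      rwa [show m - 1 + 1 = m by omega] at this
    · have := type3a_odd h (m-1) b y (by omega) (by omega) (by omega) (by omega)
      rw [hh]
      rwa [show m - 1 + 1 = m by omega] at this
  by_cases e : 2*y ≤ m - 1
  · exact main y h3 e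
  · apply Coll.mirror
    apply Coll.swap12
    apply Coll.swap23
    apply Coll.swap12
    have := main (m - 1 - y) (by omega) (by omega)
    rw [show m - 1 - (m - 1) = 0 by omega, show m - 1 - 0 = m - 1 by omega]
    exact this

/-- The case `y1 ≤ y2 < y3`, first landmark in column `0`, second in the right half. -/
lemma caseA1 (hn : 4 ≤ n) (hm : 2 ≤ m) (hbad : Bad n m) (b c y1 y2 y3 : ℤ)
    (hb : 0 ≤ b) (hb2 : 2*b ≤ n) (hc : 0 ≤ c) (hc2 : c < n)
    (h1 : 0 ≤ y1) (h12 : y1 ≤ y2) (h23 : y2 < y3) (h3 : y3 < m)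
    (hd : b = 0 → y1 < y2) : Coll n m 0 y1 b y2 c y3 := by
  by_cases e1 : 2*b + 2 ≤ n
  · by_cases e2 : b < c
    · by_cases e3 : 2*(c-b) ≤ n
      · refine ⟨b+1, y2, b, y2+1, by omega, by omega, by omega, by omega, by omega, ?_⟩
        left
        simp only [dd, cd, ad]
        refine ⟨?_, ?_, ?_⟩ <;> omega
      · refine ⟨n-1, y2, 0, y2+1, by omega, by omega, by omega, by omega, by omega, ?_⟩
        left
        simp only [dd, cd, ad]
        refine ⟨?_, ?_, ?_⟩ <;> omega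
    · by_cases e3 : b = 0
      · refine ⟨1, 0, n-1, 0, by omega, by omega, by omega, by omega, by omega, ?_⟩
        left
        simp only [dd, cd, ad]
        refine ⟨?_, ?_, ?_⟩ <;> omega
      · by_cases e4 : y1 < y2 ∧ 1 ≤ c
        · refine ⟨1, y1, 0, y1+1, by omega, by omega, by omega, by omega, by omega, ?_⟩
          left
          simp only [dd, cd, ad]
          refine ⟨?_, ?_, ?_⟩ <;> omega
        · by_cases e5 : 0 < y1
          · refine ⟨b, y1-1, b+1, y1, by omega, by omega, by omega, by omega, by omega, ?_⟩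
            left
            simp only [dd, cd, ad]
            refine ⟨?_, ?_, ?_⟩ <;> omega
          · by_cases e6 : y3 < m - 1
            · refine ⟨b+1, y3, b, y3+1, by omega, by omega, by omega, by omega, by omega, ?_⟩
              left
              simp only [dd, cd, ad]
              refine ⟨?_, ?_, ?_⟩ <;> omega
            · obtain rfl : y1 = 0 := by omega
              obtain rfl : y3 = m - 1 := by omega
              by_cases e7 : y2 = 0
              · subst e7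
                exact type2ac hn hm hbad b c (by omega) e1 hc (by omega)
              · obtain rfl : c = 0 := by omega
                exact type3a b y2 (by omega) e1 (by omega) (by omega)
  · obtain ⟨h, hh | hh⟩ : ∃ h, n = 2*h ∨ n = 2*h+1 := ⟨n/2, by omega⟩
    · obtain rfl : b = h := by omega
      subst hh
      by_cases e2 : y1 < y2
      · by_cases e3 : c = 0
        · refine ⟨1, 0, 2*b-1, 0, by omega, by omega, by omega, by omega, by omega, ?_⟩
          left
          simp only [dd, cd, ad]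
          refine ⟨?_, ?_, ?_⟩ <;> omega
        · by_cases e4 : c ≤ b
          · refine ⟨1, y1, 0, y1+1, by omega, by omega, by omega, by omega, by omega, ?_⟩
            left
            simp only [dd, cd, ad]
            refine ⟨?_, ?_, ?_⟩ <;> omega
          · refine ⟨2*b-1, y1, 0, y1+1, by omega, by omega, by omega, by omega, by omega, ?_⟩
            left
            simp only [dd, cd, ad]
            refine ⟨?_, ?_, ?_⟩ <;> omega
      · obtain rfl : y1 = y2 := by omega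
        have := (type2b_even b (y3-y1) c (by omega) (by omega) hc hc2).shift (m := m) y1 h1
          (by omega)
        rwa [show 0 + y1 = y1 by omega, show y3 - y1 + y1 = y3 by omega] at this
    · obtain rfl : b = h := by omega
      subst hh
      by_cases e2 : y1 < y2
      · by_cases e3 : c = 0
        · have := (type3b0 b (y3-y1) (y2-y1) (by omega) (by omega) (by omega)).shift (m := m)
            y1 h1 (by omega)
          rw [show 0 + y1 = y1 by omega, show y3 - y1 + y1 = y3 by omega,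
            show y2 - y1 + y1 = y2 by omega] at this
          rw [e3]
          exact this
        · by_cases e4 : c ≤ b
          · refine ⟨1, y1, 0, y1+1, by omega, by omega, by omega, by omega, by omega, ?_⟩
            left
            simp only [dd, cd, ad]
            refine ⟨?_, ?_, ?_⟩ <;> omega
          · by_cases e5 : c = 2*b
            · have := (type3b1 b (y3-y1) (y2-y1) (by omega) (by omega) (by omega)).shift
                (m := m) y1 h1 (by omega)
              rw [show 0 + y1 = y1 by omega, show y3 - y1 + y1 = y3 by omega,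
                show y2 - y1 + y1 = y2 by omega] at this
              rw [e5]
              exact this
            · refine ⟨2*b-1, y1, 2*b, y1+1, by omega, by omega, by omega, by omega, by omega, ?_⟩
              left
              simp only [dd, cd, ad]
              refine ⟨?_, ?_, ?_⟩ <;> omega
      · obtain rfl : y1 = y2 := by omega
        have := (type2b_odd b (y3-y1) c (by omega) (by omega) hc hc2).shift (m := m) y1 h1
          (by omega)
        rwa [show 0 + y1 = y1 by omega, show y3 - y1 + y1 = y3 by omega] at this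

lemma caseA (hn : 4 ≤ n) (hm : 2 ≤ m) (hbad : Bad n m)
    (hx1 : 0 ≤ x1) (hx1' : x1 < n) (hx2 : 0 ≤ x2) (hx2' : x2 < n) (hx3 : 0 ≤ x3) (hx3' : x3 < n)
    (h1 : 0 ≤ y1) (h12 : y1 ≤ y2) (h23 : y2 < y3) (h3 : y3 < m)
    (hd : x1 = x2 → y1 < y2) : Coll n m x1 y1 x2 y2 x3 y3 := by
  refine Coll.rot ?_ hx1 hx1' hx2 hx2' hx3 hx3' rfl rfl
  by_cases e : 2 * (if x1 ≤ x2 then x2 - x1 else x2 - x1 + n) ≤ n
  · exact caseA1 hn hm hbad _ _ _ _ _ (by omega) e (by omega) (by omega) h1 h12 h23 h3 (by omega)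
  · refine Coll.reflect (by omega) (by omega) (by omega) (by omega) ?_
    refine caseA1 hn hm hbad _ _ _ _ _ ?_ ?_ ?_ ?_ h1 h12 h23 h3 ?_
    all_goals simp only [rf]
    all_goals omega

/-- All three landmarks in row `0`. -/
lemma type1_sorted (hn : 4 ≤ n) (hm : 2 ≤ m) (hbad : Bad n m) (b c : ℤ)
    (h1 : 1 ≤ b) (h2 : 2*b ≤ c) (h3 : 2*c ≤ n + b) (h4 : n ≤ 2*c + 1) :
    Coll n m 0 0 b 0 c 0 := by
  unfold Bad at hbad
  obtain ⟨h, hh | hh⟩ : ∃ h, n = 2*h ∨ n = 2*h+1 := ⟨n/2, by omega⟩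
  · have := type1_even h (m-1) b c (by omega) h1 h2 (by omega) (by omega) (by omega)
    rw [hh]
    rwa [show m - 1 + 1 = m by omega] at this
  · have := type1_odd h (m-1) b c (by omega) h1 h2 (by omega) (by omega) (by omega)
    rw [hh]
    rwa [show m - 1 + 1 = m by omega] at this

lemma gap_refl (b c : ℤ) (hb : 0 < b) (hc : b < c) (hc' : c < n)
    (h : Coll n m 0 0 (c - b) 0 c 0) : Coll n m 0 0 b 0 c 0 := by
  apply Coll.swap23
  refine Coll.flip (by omega) (by omega) (by omega) (by omega) ?_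
  have : fl n c b = c - b := by simp only [fl]; omega
  rw [this]
  exact h.swap23

lemma gap_rot (b c : ℤ) (hb : 0 < b) (hc : b < c) (hc' : c < n)
    (h : Coll n m 0 0 (c - b) 0 (n - b) 0) : Coll n m 0 0 b 0 c 0 := by
  apply Coll.swap12
  apply Coll.swap23
  refine Coll.rot h (by omega) (by omega) (by omega) (by omega) (by omega) (by omega) ?_ ?_
  · omega
  · omega

lemma type1 (hn : 4 ≤ n) (hm : 2 ≤ m) (hbad : Bad n m) (b c : ℤ)
    (h1 : 1 ≤ b) (h2 : b < c) (h3 : c < n) (g1 : 2*b ≤ n+1) (g2 : 2*(c-b) ≤ n+1)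
    (g3 : 2*(n-c) ≤ n+1) : Coll n m 0 0 b 0 c 0 := by
  have two : ∀ b c, 1 ≤ b → b < c → c < n → b ≤ n - c → c - b ≤ n - c → 2*(n-c) ≤ n+1 →
      Coll n m 0 0 b 0 c 0 := by
    intro b c h1 h2 h3 e1 e2 e3
    by_cases e : 2*b ≤ c
    · exact type1_sorted hn hm hbad b c h1 e (by omega) (by omega)
    · exact gap_refl b c (by omega) h2 h3
        (type1_sorted hn hm hbad (c-b) c (by omega) (by omega) (by omega) (by omega))
  by_cases e1 : b ≤ n - c ∧ c - b ≤ n - c
  · exact two b c h1 h2 h3 e1.1 e1.2 g3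
  · refine gap_rot b c (by omega) h2 h3 ?_
    by_cases e2 : n - c ≤ b ∧ c - b ≤ b
    · exact two (c-b) (n-b) (by omega) (by omega) (by omega) (by omega) (by omega) (by omega)
    · refine gap_rot (c-b) (n-b) (by omega) (by omega) (by omega) ?_
      exact two _ _ (by omega) (by omega) (by omega) (by omega) (by omega) (by omega)

/-- All three landmarks in row `0`. -/
lemma caseR0 (hn : 4 ≤ n) (hm : 2 ≤ m) (hbad : Bad n m) (b c : ℤ)
    (hb : 0 < b) (hb' : b < n) (hc : 0 < c) (hc' : c < n) (hbc : b ≠ c) :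
    Coll n m 0 0 b 0 c 0 := by
  have main : ∀ b c, 0 < b → b < c → c < n → Coll n m 0 0 b 0 c 0 := by
    intro b c hb hbc hc
    by_cases e1 : n + 2 ≤ 2*(n - c)
    · refine ⟨c+1, 0, c, 1, by omega, by omega, by omega, by omega, by omega, ?_⟩
      left
      simp only [dd, cd, ad]
      refine ⟨?_, ?_, ?_⟩ <;> omega
    by_cases e2 : n + 2 ≤ 2*b
    · refine ⟨1, 0, 0, 1, by omega, by omega, by omega, by omega, by omega, ?_⟩
      left
      simp only [dd, cd, ad]
      refine ⟨?_, ?_, ?_⟩ <;> omega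
    by_cases e3 : n + 2 ≤ 2*(c-b)
    · refine ⟨b+1, 0, b, 1, by omega, by omega, by omega, by omega, by omega, ?_⟩
      left
      simp only [dd, cd, ad]
      refine ⟨?_, ?_, ?_⟩ <;> omega
    exact type1 hn hm hbad b c (by omega) hbc hc (by omega) (by omega) (by omega)
  rcases lt_or_gt_of_ne hbc with h | h
  · exact main b c hb h hc'
  · exact (main c b hc h hb').swap23

lemma caseR (hn : 4 ≤ n) (hm : 2 ≤ m) (hbad : Bad n m)
    (hx1 : 0 ≤ x1) (hx1' : x1 < n) (hx2 : 0 ≤ x2) (hx2' : x2 < n) (hx3 : 0 ≤ x3) (hx3' : x3 < n)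
    (h12 : x1 ≠ x2) (h13 : x1 ≠ x3) (h23 : x2 ≠ x3) (y : ℤ) (hy : 0 ≤ y) (hy' : y < m) :
    Coll n m x1 y x2 y x3 y := by
  have zero : Coll n m x1 0 x2 0 x3 0 := by
    refine Coll.rot ?_ hx1 hx1' hx2 hx2' hx3 hx3' rfl rfl
    exact caseR0 hn hm hbad _ _ (by omega) (by omega) (by omega) (by omega) (by omega)
  by_cases e1 : y = 0
  · rw [e1]; exact zero
  by_cases e2 : y = m - 1
  · apply Coll.mirror
    rw [show m - 1 - y = 0 by omega]
    exact zero
  · refine ⟨0, y-1, 0, y+1, by omega, by omega, by omega, by omega, by omega, ?_⟩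
    left
    simp only [dd, ad]
    refine ⟨?_, ?_, ?_⟩ <;> omega

lemma sorted_case (hn : 4 ≤ n) (hm : 2 ≤ m) (hbad : Bad n m)
    (hx1 : 0 ≤ x1) (hx1' : x1 < n) (hx2 : 0 ≤ x2) (hx2' : x2 < n) (hx3 : 0 ≤ x3) (hx3' : x3 < n)
    (h1 : 0 ≤ y1) (h12 : y1 ≤ y2) (h23 : y2 ≤ y3) (h3 : y3 < m)
    (d12 : x1 = x2 → y1 ≠ y2) (d13 : x1 = x3 → y1 ≠ y3) (d23 : x2 = x3 → y2 ≠ y3) :
    Coll n m x1 y1 x2 y2 x3 y3 := by
  by_cases e1 : y2 < y3
  · exact caseA hn hm hbad hx1 hx1' hx2 hx2' hx3 hx3' h1 h12 e1 h3 (by omega)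
  by_cases e2 : y1 < y2
  · apply Coll.mirror
    apply Coll.swap12
    apply Coll.swap23
    exact caseA hn hm hbad hx2 hx2' hx3 hx3' hx1 hx1' (by omega) (by omega) (by omega) (by omega)
      (by omega)
  · obtain rfl : y1 = y2 := by omega
    obtain rfl : y1 = y3 := by omega
    exact caseR hn hm hbad hx1 hx1' hx2 hx2' hx3 hx3' (fun h => d12 h rfl) (fun h => d13 h rfl)
      (fun h => d23 h rfl) y1 h1 h3

/-- In the bad range no three landmarks resolve the cylinder. -/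
theorem no_three (hn : 4 ≤ n) (hm : 2 ≤ m) (hbad : Bad n m)
    (hx1 : 0 ≤ x1) (hx1' : x1 < n) (hx2 : 0 ≤ x2) (hx2' : x2 < n) (hx3 : 0 ≤ x3) (hx3' : x3 < n)
    (h1 : 0 ≤ y1) (h1' : y1 < m) (h2 : 0 ≤ y2) (h2' : y2 < m) (h3 : 0 ≤ y3) (h3' : y3 < m)
    (d12 : x1 = x2 → y1 ≠ y2) (d13 : x1 = x3 → y1 ≠ y3) (d23 : x2 = x3 → y2 ≠ y3) :
    Coll n m x1 y1 x2 y2 x3 y3 := by
  rcases le_total y1 y2 with a | a <;> rcases le_total y2 y3 with b | b <;>
    rcases le_total y1 y3 with c | c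
  · exact sorted_case hn hm hbad hx1 hx1' hx2 hx2' hx3 hx3' h1 a b h3' d12 d13 d23
  · exact sorted_case hn hm hbad hx1 hx1' hx2 hx2' hx3 hx3' h1 a b h3' d12 d13 d23
  · exact (sorted_case hn hm hbad hx1 hx1' hx3 hx3' hx2 hx2' h1 c b h2' d13 d12
      (fun h => (d23 h.symm).symm)).swap23
  · exact ((sorted_case hn hm hbad hx3 hx3' hx1 hx1' hx2 hx2' h3 c a h2'
      (fun h => (d13 h.symm).symm) (fun h => (d23 h.symm).symm) d12).swap12).swap23
  · exact (sorted_case hn hm hbad hx2 hx2' hx1 hx1' hx3 hx3' h2 a c h3'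
      (fun h => (d12 h.symm).symm) d23 d13).swap12
  · exact ((sorted_case hn hm hbad hx2 hx2' hx3 hx3' hx1 hx1' h2 b c h1' d23
      (fun h => (d12 h.symm).symm) (fun h => (d13 h.symm).symm)).swap23).swap12
  · exact (((sorted_case hn hm hbad hx3 hx3' hx2 hx2' hx1 hx1' h3 b a h1'
      (fun h => (d23 h.symm).symm) (fun h => (d13 h.symm).symm)
      (fun h => (d12 h.symm).symm)).swap12).swap23).swap12
  · exact (((sorted_case hn hm hbad hx3 hx3' hx2 hx2' hx1 hx1' h3 b a h1'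
      (fun h => (d23 h.symm).symm) (fun h => (d13 h.symm).symm)
      (fun h => (d12 h.symm).symm)).swap12).swap23).swap12

end Pool.Agent.Helper14.MDim
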