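import Mathlib
import Pool.Agent.Helper14.MDim.Defs

/-!
# From vertex sets of the cylinder to lists of pairs of natural numbers
-/

namespace Pool.Agent.Helper14.MDim

open SimpleGraph

/-- Distance in the cylinder, on pairs of natural numbers. -/
def dN (n : ℕ) (v s : ℕ × ℕ) : ℕ :=
  (bif Nat.ble ((v.1 - s.1) + (s.1 - v.1)) (n - ((v.1 - s.1) + (s.1 - v.1)))
    then ((v.1 - s.1) + (s.1 - v.1)) else (n - ((v.1 - s.1) + (s.1 - v.1)))) +
  ((v.2 - s.2) + (s.2 - v.2))

lemma dN_eq (n : ℕ) (v s : ℕ × ℕ) (hv : v.1 < n) (hs : s.1 < n) :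
    ((dN n v s : ℕ) : ℤ) = dd n (v.1 : ℕ) (v.2 : ℕ) (s.1 : ℕ) (s.2 : ℕ) := by
  simp only [dN]
  by_cases h : (v.1 - s.1) + (s.1 - v.1) ≤ n - ((v.1 - s.1) + (s.1 - v.1))
  · rw [Nat.ble_eq_true_of_le h]
    simp only [cond_true, dd, cd, ad]
    omega
  · have : Nat.ble ((v.1 - s.1) + (s.1 - v.1)) (n - ((v.1 - s.1) + (s.1 - v.1))) = false := by
      cases hb : Nat.ble ((v.1 - s.1) + (s.1 - v.1)) (n - ((v.1 - s.1) + (s.1 - v.1)))
      · rfl
      · exact absurd (Nat.le_of_ble_eq_true hb) h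
    rw [this]
    simp only [cond_false, dd, cd, ad]
    omega

/-- The pair of natural numbers of a vertex. -/
def toN {n m : ℕ} (v : Fin n × Fin m) : ℕ × ℕ := (v.1.val, v.2.val)

lemma toN_inj {n m : ℕ} : Function.Injective (toN : Fin n × Fin m → ℕ × ℕ) := by
  intro a b h
  simp only [toN, Prod.mk.injEq] at h
  ext
  · exact h.1
  · exact h.2

lemma dist_eq_dN (n m : ℕ) (hn : 3 ≤ n) (v s : Fin n × Fin m) :
    (cyl n m).dist v s = dN n (toN v) (toN s) := by
  have h1 := dist_cyl n m hn v s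
  have h2 := dN_eq n (toN v) (toN s) v.1.2 s.1.2
  have : (((cyl n m).dist v s : ℕ) : ℤ) = ((dN n (toN v) (toN s) : ℕ) : ℤ) := by
    rw [h1, h2]; rfl
  exact_mod_cast this

lemma mrep_eq (n m : ℕ) (hn : 3 ≤ n) (S : Finset (Fin n × Fin m)) (v : Fin n × Fin m) :
    mrep (cyl n m) S v = (((S.toList.map toN).map (dN n (toN v)) : List ℕ) : Multiset ℕ) := by
  unfold mrep
  rw [List.map_map, ← Multiset.map_coe, Finset.coe_toList]
  apply Multiset.map_congr rfl
  intro s _
  exact dist_eq_dN n m hn v s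

theorem mdim_le (n m : ℕ) (hn : 3 ≤ n) (L : List (ℕ × ℕ)) (hL : ∀ p ∈ L, p.1 < n ∧ p.2 < m)
    (hnd : L.Nodup)
    (hres : ∀ u v : ℕ × ℕ, u.1 < n → u.2 < m → v.1 < n → v.2 < m →
      (L.map (dN n u)).Perm (L.map (dN n v)) → u = v) :
    mdim (cyl n m) ≤ L.length := by
  classical
  set L' : List (Fin n × Fin m) := L.attach.map
    (fun p => (⟨p.1.1, (hL p.1 p.2).1⟩, ⟨p.1.2, (hL p.1 p.2).2⟩)) with hL'
  have hmap : L'.map toN = L := by
    rw [hL', List.map_map]
    conv_rhs => rw [← List.attach_map_subtype_val L]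
    apply List.map_congr_left
    intro a _
    rfl
  have hnd' : L'.Nodup := by
    have : (L'.map toN).Nodup := by rw [hmap]; exact hnd
    exact List.Nodup.of_map _ this
  have hval : L'.toFinset.val = (L' : Multiset _) := by
    rw [List.toFinset_val, hnd'.dedup]
  have hrep : ∀ v, mrep (cyl n m) L'.toFinset v =
      ((L.map (dN n (toN v)) : List ℕ) : Multiset ℕ) := by
    intro v
    unfold mrep
    rw [hval, Multiset.map_coe]
    conv_rhs => rw [← hmap, List.map_map]
    congr 1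
    apply List.map_congr_left
    intro s _
    exact dist_eq_dN n m hn v s
  have hlen : L'.toFinset.card = L.length := by
    rw [List.toFinset_card_of_nodup hnd']
    have := congrArg List.length hmap
    rwa [List.length_map] at this
  apply sInf_le
  refine ⟨L'.toFinset, ?_, by rw [hlen]⟩
  intro u v huv heq
  rw [hrep u, hrep v, Multiset.coe_eq_coe] at heq
  exact huv (toN_inj (hres (toN u) (toN v) u.1.2 u.2.2 v.1.2 v.2.2 heq))

theorem le_mdim_aux (n m : ℕ) (hn : 3 ≤ n) (S : Finset (Fin n × Fin m))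
    (hS : IsMResolving (cyl n m) S)
    (H : ∀ L : List (ℕ × ℕ), L.length = S.card → L.Nodup → (∀ p ∈ L, p.1 < n ∧ p.2 < m) →
      ∃ u v : ℕ × ℕ, u.1 < n ∧ u.2 < m ∧ v.1 < n ∧ v.2 < m ∧ u ≠ v ∧
        (L.map (dN n u)).Perm (L.map (dN n v))) : False := by
  obtain ⟨u, v, hu1, hu2, hv1, hv2, huv, hp⟩ := H (S.toList.map toN)
    (by rw [List.length_map, Finset.length_toList])
    (S.nodup_toList.map toN_inj) (by
      intro p hp
      rw [List.mem_map] at hp
      obtain ⟨s, _, rfl⟩ := hp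
      exact ⟨s.1.2, s.2.2⟩)
  refine hS (⟨u.1, hu1⟩, ⟨u.2, hu2⟩) (⟨v.1, hv1⟩, ⟨v.2, hv2⟩) ?_ ?_
  · intro h
    apply huv
    have h1 := congrArg (fun z : Fin n × Fin m => z.1.val) h
    have h2 := congrArg (fun z : Fin n × Fin m => z.2.val) h
    exact Prod.ext h1 h2
  · rw [mrep_eq n m hn, mrep_eq n m hn, Multiset.coe_eq_coe]
    exact hp

theorem le_mdim (n m K : ℕ) (hn : 3 ≤ n)
    (H : ∀ L : List (ℕ × ℕ), L.length < K → L.Nodup → (∀ p ∈ L, p.1 < n ∧ p.2 < m) →
      ∃ u v : ℕ × ℕ, u.1 < n ∧ u.2 < m ∧ v.1 < n ∧ v.2 < m ∧ u ≠ v ∧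
        (L.map (dN n u)).Perm (L.map (dN n v))) : (K : ℕ∞) ≤ mdim (cyl n m) := by
  apply le_sInf
  rintro k ⟨S, hS, rfl⟩
  by_contra hlt
  rw [not_le] at hlt
  have hlt' : S.card < K := by exact_mod_cast hlt
  exact le_mdim_aux n m hn S hS (fun L hl => H L (by omega))

theorem mdim_top (n m : ℕ) (hn : 3 ≤ n)
    (H : ∀ L : List (ℕ × ℕ), L.Nodup → (∀ p ∈ L, p.1 < n ∧ p.2 < m) →
      ∃ u v : ℕ × ℕ, u.1 < n ∧ u.2 < m ∧ v.1 < n ∧ v.2 < m ∧ u ≠ v ∧
        (L.map (dN n u)).Perm (L.map (dN n v))) : mdim (cyl n m) = ⊤ := by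
  rw [eq_top_iff]
  apply le_sInf
  rintro k ⟨S, hS, rfl⟩
  exact (le_mdim_aux n m hn S hS (fun L _ => H L)).elim

lemma same3_of_perm {a b c a' b' c' : ℕ} (hp : [a, b, c].Perm [a', b', c']) :
    Same3 (a : ℤ) b c a' b' c' := by
  have ha : a ∈ [a', b', c'] := hp.subset (by simp)
  simp only [List.mem_cons, List.not_mem_nil, or_false] at ha
  unfold Same3
  rcases ha with rfl | rfl | rfl
  · have hp2 : [b, c].Perm [b', c'] := by simpa using hp
    have hb : b ∈ [b', c'] := hp2.subset (by simp)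
    simp only [List.mem_cons, List.not_mem_nil, or_false] at hb
    rcases hb with rfl | rfl
    · have : c = c' := by simpa using hp2
      omega
    · have hp3 : [b, c].Perm [b, b'] := hp2.trans (List.Perm.swap _ _ _)
      have : c = b' := by simpa using hp3
      omega
  · have hp2 : [a, b, c].Perm [a, a', c'] := hp.trans (List.Perm.swap _ _ _)
    have hp2 : [b, c].Perm [a', c'] := by simpa using hp2
    have hb : b ∈ [a', c'] := hp2.subset (by simp)
    simp only [List.mem_cons, List.not_mem_nil, or_false] at hb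
    rcases hb with rfl | rfl
    · have : c = c' := by simpa using hp2
      omega
    · have hp3 : [b, c].Perm [b, a'] := hp2.trans (List.Perm.swap _ _ _)
      have : c = a' := by simpa using hp3
      omega
  · have hp2 : [a, b, c].Perm [a, a', b'] := hp.trans (by
      have : [a', b', a].Perm ([a', b'] ++ [a]) := by simp
      exact this.trans (List.perm_append_comm))
    have hp2 : [b, c].Perm [a', b'] := by simpa using hp2
    have hb : b ∈ [a', b'] := hp2.subset (by simp)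
    simp only [List.mem_cons, List.not_mem_nil, or_false] at hb
    rcases hb with rfl | rfl
    · have : c = b' := by simpa using hp2
      omega
    · have hp3 : [b, c].Perm [b, a'] := hp2.trans (List.Perm.swap _ _ _)
      have : c = a' := by simpa using hp3
      omega

lemma perm_of_same3 {a b c a' b' c' : ℕ} (h : Same3 (a : ℤ) b c a' b' c') :
    [a, b, c].Perm [a', b', c'] := by
  have s1 : ∀ x y z : ℕ, [x, y, z].Perm [y, x, z] := fun x y z => List.Perm.swap _ _ _
  have s2 : ∀ x y z : ℕ, [x, y, z].Perm [x, z, y] := fun x y z =>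
    List.Perm.cons _ (List.Perm.swap _ _ _)
  rcases h with ⟨p, q, r⟩ | ⟨p, q, r⟩ | ⟨p, q, r⟩ | ⟨p, q, r⟩ | ⟨p, q, r⟩ | ⟨p, q, r⟩
  · obtain rfl : a = a' := by exact_mod_cast p
    obtain rfl : b = b' := by exact_mod_cast q
    obtain rfl : c = c' := by exact_mod_cast r
    exact List.Perm.refl _
  · obtain rfl : a = a' := by exact_mod_cast p
    obtain rfl : b = c' := by exact_mod_cast q
    obtain rfl : c = b' := by exact_mod_cast r
    exact s2 _ _ _
  · obtain rfl : a = b' := by exact_mod_cast p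
    obtain rfl : b = a' := by exact_mod_cast q
    obtain rfl : c = c' := by exact_mod_cast r
    exact s1 _ _ _
  · obtain rfl : a = b' := by exact_mod_cast p
    obtain rfl : b = c' := by exact_mod_cast q
    obtain rfl : c = a' := by exact_mod_cast r
    exact (s2 _ _ _).trans (s1 _ _ _)
  · obtain rfl : a = c' := by exact_mod_cast p
    obtain rfl : b = a' := by exact_mod_cast q
    obtain rfl : c = b' := by exact_mod_cast r
    exact (s1 _ _ _).trans (s2 _ _ _)
  · obtain rfl : a = c' := by exact_mod_cast p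
    obtain rfl : b = b' := by exact_mod_cast q
    obtain rfl : c = a' := by exact_mod_cast r
    exact ((s1 _ _ _).trans (s2 _ _ _)).trans (s1 _ _ _)

/-- Three landmarks. -/
theorem mdim_le_three (n m : ℕ) (hn : 3 ≤ n) (x1 y1 x2 y2 x3 y3 : ℕ)
    (h1 : x1 < n) (h1' : y1 < m) (h2 : x2 < n) (h2' : y2 < m) (h3 : x3 < n) (h3' : y3 < m)
    (d12 : (x1, y1) ≠ (x2, y2)) (d13 : (x1, y1) ≠ (x3, y3)) (d23 : (x2, y2) ≠ (x3, y3))
    (H : ∀ x r x' r' : ℤ, 0 ≤ x → x < n → 0 ≤ r → r < m → 0 ≤ x' → x' < n → 0 ≤ r' → r' < m →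
    Same3 (dd n x r x1 y1) (dd n x r x2 y2) (dd n x r x3 y3)
      (dd n x' r' x1 y1) (dd n x' r' x2 y2) (dd n x' r' x3 y3) → x = x' ∧ r = r') :
    mdim (cyl n m) ≤ 3 := by
  refine mdim_le n m hn [(x1, y1), (x2, y2), (x3, y3)] ?_ ?_ ?_
  · intro p hp
    simp only [List.mem_cons, List.not_mem_nil, or_false] at hp
    rcases hp with rfl | rfl | rfl
    · exact ⟨h1, h1'⟩
    · exact ⟨h2, h2'⟩
    · exact ⟨h3, h3'⟩
  · simp only [List.nodup_cons, List.mem_cons, List.not_mem_nil, or_false, not_false_eq_true,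
      List.nodup_nil, and_true, not_or]
    exact ⟨⟨d12, d13⟩, d23⟩
  · intro u v hu1 hu2 hv1 hv2 hp
    have := H u.1 u.2 v.1 v.2 (by omega) (by omega) (by omega) (by omega) (by omega) (by omega)
      (by omega) (by omega) ?_
    · exact Prod.ext (by omega) (by omega)
    · rw [← dN_eq n u (x1, y1) hu1 h1, ← dN_eq n u (x2, y2) hu1 h2, ← dN_eq n u (x3, y3) hu1 h3,
        ← dN_eq n v (x1, y1) hv1 h1, ← dN_eq n v (x2, y2) hv1 h2, ← dN_eq n v (x3, y3) hv1 h3]
      exact same3_of_perm hp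

/-- The converse for three landmarks: a collision. -/
theorem coll_nat (n m : ℕ) (x1 y1 x2 y2 x3 y3 : ℕ)
    (h1 : x1 < n) (h2 : x2 < n) (h3 : x3 < n) (H : Coll n m x1 y1 x2 y2 x3 y3) :
    ∃ u v : ℕ × ℕ, u.1 < n ∧ u.2 < m ∧ v.1 < n ∧ v.2 < m ∧ u ≠ v ∧
      ([(x1, y1), (x2, y2), (x3, y3)].map (dN n u)).Perm
        ([(x1, y1), (x2, y2), (x3, y3)].map (dN n v)) := by
  obtain ⟨x, r, x', r', ⟨a1, a2⟩, ⟨b1, b2⟩, ⟨c1, c2⟩, ⟨d1, d2⟩, hne, hs⟩ := H
  lift x to ℕ using a1
  lift r to ℕ using b1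
  lift x' to ℕ using c1
  lift r' to ℕ using d1
  refine ⟨(x, r), (x', r'), by simpa using a2, by simpa using b2, by simpa using c2,
    by simpa using d2, ?_, ?_⟩
  · intro h
    rw [Prod.mk.injEq] at h
    omega
  · apply perm_of_same3
    rw [dN_eq n (x, r) (x1, y1) (by simpa using a2) h1,
      dN_eq n (x, r) (x2, y2) (by simpa using a2) h2,
      dN_eq n (x, r) (x3, y3) (by simpa using a2) h3,
      dN_eq n (x', r') (x1, y1) (by simpa using c2) h1,
      dN_eq n (x', r') (x2, y2) (by simpa using c2) h2,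
      dN_eq n (x', r') (x3, y3) (by simpa using c2) h3]
    exact hs

/-! ## At most two landmarks -/

lemma small_coll (n m : ℕ) (hn : 4 ≤ n) (hm : 1 ≤ m) (L : List (ℕ × ℕ)) (hlen : L.length < 3)
    (hnd : L.Nodup) (hL : ∀ p ∈ L, p.1 < n ∧ p.2 < m) :
    ∃ u v : ℕ × ℕ, u.1 < n ∧ u.2 < m ∧ v.1 < n ∧ v.2 < m ∧ u ≠ v ∧
      (L.map (dN n u)).Perm (L.map (dN n v)) := by
  match L, hlen, hnd, hL with
  | [], _, _, _ => exact ⟨(0, 0), (1, 0), by omega, by omega, by simp; omega, by simp; omega,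
      by simp, by simp⟩
  | [p], _, _, hL =>
    have hp := hL p (by simp)
    refine ⟨(if p.1 + 1 = n then 0 else p.1 + 1, p.2), (if p.1 = 0 then n - 1 else p.1 - 1, p.2),
      ?_, hp.2, ?_, hp.2, ?_, ?_⟩
    · simp only; split_ifs <;> omega
    · simp only; split_ifs <;> omega
    · intro h
      rw [Prod.mk.injEq] at h
      have h1 := h.1
      split_ifs at h1 <;> omega
    · have e1 := dN_eq n (if p.1 + 1 = n then 0 else p.1 + 1, p.2) p
        (by simp only; split_ifs <;> omega) hp.1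
      have e2 := dN_eq n (if p.1 = 0 then n - 1 else p.1 - 1, p.2) p
        (by simp only; split_ifs <;> omega) hp.1
      have : dN n (if p.1 + 1 = n then 0 else p.1 + 1, p.2) p =
          dN n (if p.1 = 0 then n - 1 else p.1 - 1, p.2) p := by
        have hh : ((dN n (if p.1 + 1 = n then 0 else p.1 + 1, p.2) p : ℕ) : ℤ) =
          (dN n (if p.1 = 0 then n - 1 else p.1 - 1, p.2) p : ℕ) := by
          rw [e1, e2]
          simp only [dd, cd, ad]
          have := hp.1
          split_ifs <;> omega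
        exact_mod_cast hh
      simp [this]
  | [p, q], _, hnd, hL =>
    have hp := hL p (by simp)
    have hq := hL q (by simp)
    have hpq : p ≠ q := by
      simpa using hnd
    refine ⟨p, q, hp.1, hp.2, hq.1, hq.2, hpq, ?_⟩
    have e1 := dN_eq n p p hp.1 hp.1
    have e2 := dN_eq n q q hq.1 hq.1
    have e3 := dN_eq n p q hp.1 hq.1
    have e4 := dN_eq n q p hq.1 hp.1
    have h12 : dN n p q = dN n q p := by
      have hh : ((dN n p q : ℕ) : ℤ) = (dN n q p : ℕ) := by
        rw [e3, e4]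
        simp only [dd, cd, ad]
        split_ifs <;> omega
      exact_mod_cast hh
    have h11 : dN n p p = 0 := by
      have hh : ((dN n p p : ℕ) : ℤ) = (0 : ℕ) := by
        rw [e1]
        simp [dd, cd, ad]
      exact_mod_cast hh
    have h22 : dN n q q = 0 := by
      have hh : ((dN n q q : ℕ) : ℤ) = (0 : ℕ) := by
        rw [e2]
        simp [dd, cd, ad]
      exact_mod_cast hh
    simp only [List.map_cons, List.map_nil, h12, h11, h22]
    exact List.Perm.swap _ _ _
  | _ :: _ :: _ :: _, hlen, _, _ => simp at hlen; omega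

theorem three_le_mdim (n m : ℕ) (hn : 4 ≤ n) (hm : 1 ≤ m) : (3 : ℕ∞) ≤ mdim (cyl n m) :=
  le_mdim n m 3 (by omega) (fun L hl hnd hL => small_coll n m hn hm L hl hnd hL)

end Pool.Agent.Helper14.MDim
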