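import Mathlib
import Pool.Agent.Helper14.MDim.Bridge

/-!
# Numerical codes of multisets and a kernel-friendly search
-/

namespace Pool.Agent.Helper14.MDim

/-- The code of a list: the sum of the powers `b ^ d`. -/
def code (b : ℕ) : List ℕ → ℕ
  | [] => 0
  | d :: t => b ^ d + code b t

/-- Remove the zeros and decrease the other entries. -/
def dec : List ℕ → List ℕ
  | [] => []
  | 0 :: t => dec t
  | (k + 1) :: t => k :: dec t

lemma code_dec (b : ℕ) : ∀ L : List ℕ, code b L = L.count 0 + b * code b (dec L)
  | [] => by simp [code, dec]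
  | 0 :: t => by
    rw [code, code_dec b t, dec, List.count_cons_self]
    ring
  | (k + 1) :: t => by
    rw [code, code_dec b t, dec, List.count_cons_of_ne (by omega), code]
    ring

lemma count_dec (a : ℕ) : ∀ L : List ℕ, L.count (a + 1) = (dec L).count a
  | [] => by simp [dec]
  | 0 :: t => by
    rw [dec, List.count_cons_of_ne (by omega), count_dec a t]
  | (k + 1) :: t => by
    rw [dec, List.count_cons, List.count_cons, count_dec a t]
    by_cases h : k = a
    · subst h; simp
    · have : ¬ (k + 1 = a + 1) := by omega
      simp [h]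

lemma length_dec : ∀ L : List ℕ, (dec L).length ≤ L.length
  | [] => by simp [dec]
  | 0 :: t => by
    rw [dec, List.length_cons]
    exact (length_dec t).trans (Nat.le_succ _)
  | (k + 1) :: t => by
    rw [dec, List.length_cons, List.length_cons]
    have := length_dec t
    omega

lemma digit_code (b : ℕ) (a : ℕ) : ∀ L : List ℕ, L.length < b →
    code b L / b ^ a % b = L.count a := by
  induction a with
  | zero =>
    intro L hL
    rw [pow_zero, Nat.div_one, code_dec, Nat.add_mul_mod_self_left, Nat.mod_eq_of_lt]
    exact lt_of_le_of_lt (List.count_le_length) hL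
  | succ a ih =>
    intro L hL
    rw [pow_succ', ← Nat.div_div_eq_div_mul, code_dec, Nat.add_mul_div_left _ _ (by omega),
      Nat.div_eq_of_lt (lt_of_le_of_lt (List.count_le_length) hL), zero_add,
      ih (dec L) (lt_of_le_of_lt (length_dec L) hL), count_dec]

theorem perm_of_code (b : ℕ) (L L' : List ℕ) (hL : L.length < b) (hL' : L'.length < b)
    (h : code b L = code b L') : L.Perm L' := by
  rw [List.perm_iff_count]
  intro a
  rw [← digit_code b a L hL, ← digit_code b a L' hL', h]

theorem code_of_perm (b : ℕ) {L L' : List ℕ} (h : L.Perm L') : code b L = code b L' := by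
  induction h with
  | nil => rfl
  | cons x _ ih => rw [code, code, ih]
  | swap x y l => simp only [code]; ring
  | trans _ _ ih1 ih2 => rw [ih1, ih2]

/-! ## Packed numbers -/

/-- Packed digits. -/
def pk (B : ℕ) : List ℕ → ℕ
  | [] => 0
  | d :: t => d + B * pk B t

lemma pk_add {α : Type*} (B : ℕ) (f g : α → ℕ) (P : List α) :
    pk B (P.map f) + pk B (P.map g) = pk B (P.map (fun q => f q + g q)) := by
  induction P with
  | nil => rfl
  | cons q t ih =>
    simp only [List.map_cons, pk]
    rw [← ih]
    ring

/-- Evaluate the first argument before applying the second one. -/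
noncomputable def force {α : Sort*} (k : ℕ) (f : ℕ → α) : α :=
  @Nat.rec (fun _ => α) (f 0) (fun i _ => f (Nat.succ i)) k

lemma force_eq {α : Sort*} (k : ℕ) (f : ℕ → α) : force k f = f k := by
  cases k <;> rfl

/-- Do the packed numbers `U` and `V` share one of their first `p` digits? -/
noncomputable def go (B p : ℕ) : ℕ → ℕ → Bool :=
  @Nat.rec (fun _ => ℕ → ℕ → Bool) (fun _ _ => false)
    (fun _ ih U V => @Bool.rec (fun _ => Bool)
      (force (Nat.div U B) fun U' => force (Nat.div V B) fun V' => ih U' V') true
      (Nat.beq (Nat.mod U B) (Nat.mod V B))) p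

lemma go_succ (B p U V : ℕ) : go B (p + 1) U V =
    (if U % B = V % B then true else go B p (U / B) (V / B)) := by
  have : go B (p + 1) U V = @Bool.rec (fun _ => Bool)
      (force (Nat.div U B) fun U' => force (Nat.div V B) fun V' => go B p U' V') true
      (Nat.beq (Nat.mod U B) (Nat.mod V B)) := rfl
  rw [this, force_eq, force_eq]
  by_cases h : U % B = V % B
  · rw [if_pos h]
    have : Nat.beq (Nat.mod U B) (Nat.mod V B) = true := by
      rw [Nat.beq_eq]; exact h
    rw [this]
  · rw [if_neg h]
    have : Nat.beq (Nat.mod U B) (Nat.mod V B) = false := by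
      cases hb : Nat.beq (Nat.mod U B) (Nat.mod V B)
      · rfl
      · rw [Nat.beq_eq] at hb; exact absurd hb h
    rw [this]
    rfl

lemma go_sound {α : Type*} (B : ℕ) (f g : α → ℕ) (P : List α) (hf : ∀ q ∈ P, f q < B)
    (hg : ∀ q ∈ P, g q < B) (h : go B P.length (pk B (P.map f)) (pk B (P.map g)) = true) :
    ∃ q ∈ P, f q = g q := by
  induction P with
  | nil => exact absurd h (by simp [go])
  | cons q t ih =>
    rw [List.length_cons, go_succ] at h
    simp only [List.map_cons, pk] at h
    have hf0 := hf q (by simp)
    have hg0 := hg q (by simp)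
    have hB : 0 < B := by omega
    rw [Nat.add_mul_mod_self_left, Nat.add_mul_mod_self_left, Nat.mod_eq_of_lt hf0,
      Nat.mod_eq_of_lt hg0, Nat.add_mul_div_left _ _ hB, Nat.add_mul_div_left _ _ hB,
      Nat.div_eq_of_lt hf0, Nat.div_eq_of_lt hg0, zero_add, zero_add] at h
    by_cases he : f q = g q
    · exact ⟨q, by simp, he⟩
    · rw [if_neg he] at h
      obtain ⟨q', hq', e⟩ := ih (fun x hx => hf x (by simp [hx])) (fun x hx => hg x (by simp [hx])) h
      exact ⟨q', by simp [hq'], e⟩

/-! ## Loops -/

/-- Does `f x t` hold for each entry `x` of the list, `t` being the list behind `x`? -/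
noncomputable def allT {α : Type} (f : α → List α → Bool) (T : List α) : Bool :=
  @List.rec α (fun _ => Bool) true (fun x t ih => @Bool.rec (fun _ => Bool) false ih (f x t)) T

lemma allT_cons {α : Type} (f : α → List α → Bool) (x : α) (t : List α)
    (h : allT f (x :: t) = true) : f x t = true ∧ allT f t = true := by
  have : allT f (x :: t) = @Bool.rec (fun _ => Bool) false (allT f t) (f x t) := rfl
  rw [this] at h
  cases hb : f x t
  · rw [hb] at h; exact absurd h (by simp)
  · rw [hb] at h; exact ⟨rfl, h⟩

lemma allT_drop {α : Type} (f : α → List α → Bool) (T : List α) (k : ℕ)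
    (h : allT f (T.drop k) = true) (i : ℕ) (hk : k ≤ i) (hi : i < T.length) :
    f T[i] (T.drop (i + 1)) = true := by
  induction i, hk using Nat.le_induction with
  | base =>
    rw [List.drop_eq_getElem_cons hi] at h
    exact (allT_cons f _ _ h).1
  | succ i hk ih =>
    have aux : ∀ j, k ≤ j → j ≤ T.length → allT f (T.drop j) = true := by
      intro j hj
      induction j, hj using Nat.le_induction with
      | base => intro _; exact h
      | succ j hj ih2 =>
        intro hj2
        have h3 := ih2 (by omega)
        rw [List.drop_eq_getElem_cons (by omega)] at h3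
        exact (allT_cons f _ _ h3).2
    have h4 := aux (i + 1) (by omega) (by omega)
    rw [List.drop_eq_getElem_cons hi] at h4
    exact (allT_cons f _ _ h4).1

end Pool.Agent.Helper14.MDim
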