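import Mathlib
import Pool.Agent.Helper14.MDim.Code

/-!
# Kernel search: no four landmarks resolve a given small cylinder
-/

namespace Pool.Agent.Helper14.MDim

/-- The vertex with index `i` (row by row). -/
def vx (n i : ℕ) : ℕ × ℕ := (i % n, i / n)

/-- Table entry of the landmark with index `i`: its index and the packed codes of the
distances to the first and to the second members of the pairs in `P`. -/
def entry (n B : ℕ) (P : List ((ℕ × ℕ) × (ℕ × ℕ))) (i : ℕ) : ℕ × ℕ × ℕ :=
  (i, pk B (P.map fun q => 8 ^ dN n q.1 (vx n i)), pk B (P.map fun q => 8 ^ dN n q.2 (vx n i)))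

/-- The table. -/
def tab (n m B : ℕ) (P : List ((ℕ × ℕ) × (ℕ × ℕ))) : List (ℕ × ℕ × ℕ) :=
  (List.range (n * m)).map (entry n B P)

/-- Evaluate the table before using it. -/
noncomputable def evalTab (T : List (ℕ × ℕ × ℕ)) : (List (ℕ × ℕ × ℕ) → Bool) → Bool :=
  @List.rec (ℕ × ℕ × ℕ) (fun _ => (List (ℕ × ℕ × ℕ) → Bool) → Bool) (fun k => k [])
    (fun x _ ih k => force x.1 fun i => force x.2.1 fun u => force x.2.2 fun v =>
      ih (fun t => k ((i, u, v) :: t))) T

lemma evalTab_eq (T : List (ℕ × ℕ × ℕ)) (k : List (ℕ × ℕ × ℕ) → Bool) :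
    evalTab T k = k T := by
  induction T generalizing k with
  | nil => rfl
  | cons x t ih =>
    have : evalTab (x :: t) k = force x.1 fun i => force x.2.1 fun u => force x.2.2 fun v =>
      evalTab t (fun t => k ((i, u, v) :: t)) := rfl
    rw [this, force_eq, force_eq, force_eq, ih]

/-- Innermost loop. -/
noncomputable def chkD (B p U V : ℕ) (T : List (ℕ × ℕ × ℕ)) : Bool :=
  allT (fun x _ =>
    force (Nat.add U x.2.1) fun U' => force (Nat.add V x.2.2) fun V' => go B p U' V') T

/-- Third loop. -/
noncomputable def chkC (B p U V : ℕ) (T : List (ℕ × ℕ × ℕ)) : Bool :=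
  allT (fun x t =>
    force (Nat.add U x.2.1) fun U' => force (Nat.add V x.2.2) fun V' => chkD B p U' V' t) T

/-- Second loop. -/
noncomputable def chkB (B p U V : ℕ) (T : List (ℕ × ℕ × ℕ)) : Bool :=
  allT (fun x t =>
    force (Nat.add U x.2.1) fun U' => force (Nat.add V x.2.2) fun V' => chkC B p U' V' t) T

/-- First loop, over the landmarks in column `0` and rows `lo ≤ r < hi`. -/
noncomputable def chkA (n B p lo hi : ℕ) (T : List (ℕ × ℕ × ℕ)) : Bool :=
  allT (fun x t => @Bool.rec (fun _ => Bool) true
    (@Bool.rec (fun _ => Bool) true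
      (@Bool.rec (fun _ => Bool) true (chkB B p x.2.1 x.2.2 t) (Nat.beq (Nat.mod x.1 n) 0))
      (Nat.ble (Nat.succ x.1) (Nat.mul n hi)))
    (Nat.ble (Nat.mul n lo) x.1)) T

/-- The search. -/
noncomputable def search (n m B lo hi : ℕ) (P : List ((ℕ × ℕ) × (ℕ × ℕ))) : Bool :=
  evalTab (tab n m B P) (chkA n B P.length lo hi)

theorem search_sound (n m B lo hi : ℕ) (P : List ((ℕ × ℕ) × (ℕ × ℕ)))
    (h : search n m B lo hi P = true)
    (hB : ∀ i < n * m, ∀ q ∈ P, 4 * 8 ^ dN n q.1 (vx n i) < B ∧ 4 * 8 ^ dN n q.2 (vx n i) < B)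
    (a b c d : ℕ) (ha : n * lo ≤ a) (ha' : a < n * hi) (han : a % n = 0) (hd : d < n * m)
    (hab : a < b) (hbc : b < c) (hcd : c < d) :
    ∃ q ∈ P, ([vx n a, vx n b, vx n c, vx n d].map (dN n q.1)).Perm
      ([vx n a, vx n b, vx n c, vx n d].map (dN n q.2)) := by
  unfold search at h
  rw [evalTab_eq] at h
  have hlen : (tab n m B P).length = n * m := by simp [tab]
  have hget : ∀ i (hi : i < (tab n m B P).length), (tab n m B P)[i] = entry n B P i := by
    intro i hi
    simp [tab]
  unfold chkA at h
  have h1 := allT_drop _ (tab n m B P) 0 (by simpa using h) a (Nat.zero_le _) (by omega)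
  simp only [hget] at h1
  have e1 : Nat.ble (n * lo) (entry n B P a).1 = true := by
    rw [Nat.ble_eq]; exact ha
  have e2 : Nat.ble ((entry n B P a).1 + 1) (n * hi) = true := by
    rw [Nat.ble_eq]; exact ha'
  have e3 : Nat.beq (Nat.mod (entry n B P a).1 n) 0 = true := by
    rw [Nat.beq_eq]; exact han
  have h1' : chkB B P.length (entry n B P a).2.1 (entry n B P a).2.2
      ((tab n m B P).drop (a + 1)) = true := by
    rw [e1, e2, e3] at h1
    exact h1
  unfold chkB at h1'
  have h2 := allT_drop _ (tab n m B P) (a + 1) h1' b (by omega) (by omega)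
  simp only [hget, force_eq] at h2
  unfold chkC at h2
  have h3 := allT_drop _ (tab n m B P) (b + 1) h2 c (by omega) (by omega)
  simp only [hget, force_eq] at h3
  unfold chkD at h3
  have h4 := allT_drop _ (tab n m B P) (c + 1) h3 d (by omega) (by omega)
  simp only [hget, force_eq] at h4
  have hU : Nat.add (Nat.add (Nat.add (entry n B P a).2.1 (entry n B P b).2.1)
      (entry n B P c).2.1) (entry n B P d).2.1 =
      pk B (P.map fun q => code 8 ([vx n a, vx n b, vx n c, vx n d].map (dN n q.1))) := by
    show (entry n B P a).2.1 + (entry n B P b).2.1 + (entry n B P c).2.1 +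
      (entry n B P d).2.1 = _
    simp only [entry, pk_add, List.map_cons, List.map_nil, code, add_assoc, add_zero]
  have hV : Nat.add (Nat.add (Nat.add (entry n B P a).2.2 (entry n B P b).2.2)
      (entry n B P c).2.2) (entry n B P d).2.2 =
      pk B (P.map fun q => code 8 ([vx n a, vx n b, vx n c, vx n d].map (dN n q.2))) := by
    show (entry n B P a).2.2 + (entry n B P b).2.2 + (entry n B P c).2.2 +
      (entry n B P d).2.2 = _
    simp only [entry, pk_add, List.map_cons, List.map_nil, code, add_assoc, add_zero]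
  have h5 : go B P.length
      (pk B (P.map fun q => code 8 ([vx n a, vx n b, vx n c, vx n d].map (dN n q.1))))
      (pk B (P.map fun q => code 8 ([vx n a, vx n b, vx n c, vx n d].map (dN n q.2)))) = true := by
    rw [← hU, ← hV]; exact h4
  have hf : ∀ q ∈ P, code 8 ([vx n a, vx n b, vx n c, vx n d].map (dN n q.1)) < B := by
    intro q hq
    have b1 := (hB a (by omega) q hq).1
    have b2 := (hB b (by omega) q hq).1
    have b3 := (hB c (by omega) q hq).1
    have b4 := (hB d hd q hq).1
    simp only [List.map_cons, List.map_nil, code]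
    omega
  have hg : ∀ q ∈ P, code 8 ([vx n a, vx n b, vx n c, vx n d].map (dN n q.2)) < B := by
    intro q hq
    have b1 := (hB a (by omega) q hq).2
    have b2 := (hB b (by omega) q hq).2
    have b3 := (hB c (by omega) q hq).2
    have b4 := (hB d hd q hq).2
    simp only [List.map_cons, List.map_nil, code]
    omega
  obtain ⟨q, hq, e⟩ := go_sound B _ _ P hf hg h5
  exact ⟨q, hq, perm_of_code 8 _ _ (by simp) (by simp) e⟩

end Pool.Agent.Helper14.MDim
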