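import Mathlib
import Pool.Agent.Helper14.MDim.Search
import Pool.Agent.Helper14.MDim.Lower

/-!
# Reduction of the four-landmark case to the kernel search
-/

namespace Pool.Agent.Helper14.MDim

/-- Two distinct vertices have the same representation with respect to the list `L`. -/
def CollL (n m : ℕ) (L : List (ℕ × ℕ)) : Prop :=
  ∃ u v : ℕ × ℕ, u.1 < n ∧ u.2 < m ∧ v.1 < n ∧ v.2 < m ∧ u ≠ v ∧
    (L.map (dN n u)).Perm (L.map (dN n v))

lemma CollL.perm {n m : ℕ} {L L' : List (ℕ × ℕ)} (h : CollL n m L) (hp : L.Perm L') :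
    CollL n m L' := by
  obtain ⟨u, v, a, b, c, d, e, f⟩ := h
  exact ⟨u, v, a, b, c, d, e, ((hp.map _).symm.trans f).trans (hp.map _)⟩

/-- Rotation of the columns by `-k`. -/
def rotN (n k : ℕ) (p : ℕ × ℕ) : ℕ × ℕ := (if k ≤ p.1 then p.1 - k else p.1 + n - k, p.2)

lemma dN_rot (n k : ℕ) (hk : k < n) (u p : ℕ × ℕ) (hu : u.1 < n) (hp : p.1 < n) :
    dN n (if u.1 + k < n then u.1 + k else u.1 + k - n, u.2) p = dN n u (rotN n k p) := by
  have h1 : (if u.1 + k < n then u.1 + k else u.1 + k - n) < n := by split_ifs <;> omega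
  have h2 : (rotN n k p).1 < n := by simp only [rotN]; split_ifs <;> omega
  have e1 := dN_eq n (if u.1 + k < n then u.1 + k else u.1 + k - n, u.2) p h1 hp
  have e2 := dN_eq n u (rotN n k p) hu h2
  have key := cd_wr (n := (n : ℤ)) (u.1 : ℤ) (p.1 : ℤ) (k : ℤ)
    (if (k : ℤ) ≤ p.1 then (p.1 : ℤ) - k else p.1 - k + n) (by omega) (by omega) (by omega)
    (by omega) (by omega) (by omega) rfl
  have hh : ((dN n (if u.1 + k < n then u.1 + k else u.1 + k - n, u.2) p : ℕ) : ℤ) =
      (dN n u (rotN n k p) : ℕ) := by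
    rw [e1, e2]
    simp only [dd]
    congr 1
    have a1 : (((if u.1 + k < n then u.1 + k else u.1 + k - n : ℕ)) : ℤ) =
        wr (n : ℤ) ((u.1 : ℤ) + k) := by
      simp only [wr]; split_ifs <;> omega
    have a2 : (((rotN n k p).1 : ℕ) : ℤ) =
        (if (k : ℤ) ≤ p.1 then (p.1 : ℤ) - k else p.1 - k + n) := by
      simp only [rotN]; split_ifs <;> omega
    rw [a1, a2]
    exact key
  exact_mod_cast hh

lemma CollL.rot {n m : ℕ} {L : List (ℕ × ℕ)} (k : ℕ) (hk : k < n) (hL : ∀ p ∈ L, p.1 < n)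
    (h : CollL n m (L.map (rotN n k))) : CollL n m L := by
  obtain ⟨u, v, a, b, c, d, e, f⟩ := h
  refine ⟨(if u.1 + k < n then u.1 + k else u.1 + k - n, u.2),
    (if v.1 + k < n then v.1 + k else v.1 + k - n, v.2), ?_, b, ?_, d, ?_, ?_⟩
  · simp only; split_ifs <;> omega
  · simp only; split_ifs <;> omega
  · intro h
    apply e
    rw [Prod.mk.injEq] at h
    have h1 := h.1
    apply Prod.ext
    · split_ifs at h1 <;> omega
    · exact h.2
  · have m1 : L.map (dN n (if u.1 + k < n then u.1 + k else u.1 + k - n, u.2)) =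
        (L.map (rotN n k)).map (dN n u) := by
      rw [List.map_map]
      apply List.map_congr_left
      intro p hp
      exact dN_rot n k hk u p a (hL p hp)
    have m2 : L.map (dN n (if v.1 + k < n then v.1 + k else v.1 + k - n, v.2)) =
        (L.map (rotN n k)).map (dN n v) := by
      rw [List.map_map]
      apply List.map_congr_left
      intro p hp
      exact dN_rot n k hk v p c (hL p hp)
    rw [m1, m2]
    exact f

lemma vx_idx (n : ℕ) (p : ℕ × ℕ) (hp : p.1 < n) : vx n (n * p.2 + p.1) = p := by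
  unfold vx
  apply Prod.ext
  · simp only
    rw [Nat.mul_add_mod, Nat.mod_eq_of_lt hp]
  · simp only
    rw [Nat.mul_add_div (by omega), Nat.div_eq_of_lt hp, add_zero]

/-- The ordered statement implies the statement for arbitrary four landmarks. -/
theorem four_coll (n m : ℕ)
    (H : ∀ a b c d : ℕ, a % n = 0 → d < n * m → a < b → b < c → c < d →
      CollL n m [vx n a, vx n b, vx n c, vx n d])
    (L : List (ℕ × ℕ)) (hlen : L.length = 4) (hnd : L.Nodup)
    (hL : ∀ p ∈ L, p.1 < n ∧ p.2 < m) : CollL n m L := by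
  -- the element of the lowest row
  obtain ⟨s, hs, hmin⟩ : ∃ s ∈ L, ∀ t ∈ L, s.2 ≤ t.2 := by
    have hne : L.toFinset.Nonempty := by
      rw [List.toFinset_nonempty_iff]
      intro h
      rw [h] at hlen
      simp at hlen
    obtain ⟨s, hs, h⟩ := L.toFinset.exists_min_image (fun p => p.2) hne
    exact ⟨s, List.mem_toFinset.1 hs, fun t ht => h t (List.mem_toFinset.2 ht)⟩
  have hperm := List.perm_cons_erase hs
  refine CollL.perm ?_ hperm.symm
  have hlen' : (L.erase s).length = 3 := by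
    rw [List.length_erase_of_mem hs, hlen]
  have hnd' : (s :: L.erase s).Nodup := hperm.nodup_iff.1 hnd
  have hL' : ∀ p ∈ L.erase s, p.1 < n ∧ p.2 < m ∧ s.2 ≤ p.2 := fun p hp =>
    ⟨(hL p (List.mem_of_mem_erase hp)).1, (hL p (List.mem_of_mem_erase hp)).2,
      hmin p (List.mem_of_mem_erase hp)⟩
  generalize L.erase s = T at *
  match T, hlen' with
  | [p, q, r], _ =>
    have hp := hL' p (by simp)
    have hq := hL' q (by simp)
    have hr := hL' r (by simp)
    have hs' := hL s hs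
    refine CollL.rot s.1 hs'.1 ?_ ?_
    · intro x hx
      simp only [List.mem_cons, List.not_mem_nil, or_false] at hx
      rcases hx with rfl | rfl | rfl | rfl
      · exact hs'.1
      · exact hp.1
      · exact hq.1
      · exact hr.1
    have hsp : s ≠ p := by
      intro h; rw [h] at hnd'; simp at hnd'
    have hsq : s ≠ q := by
      intro h; rw [h] at hnd'; simp at hnd'
    have hsr : s ≠ r := by
      intro h; rw [h] at hnd'; simp at hnd'
    have hpq : p ≠ q := by
      intro h; rw [h] at hnd'; simp at hnd'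
    have hpr : p ≠ r := by
      intro h; rw [h] at hnd'; simp at hnd'
    have hqr : q ≠ r := by
      intro h; rw [h] at hnd'; simp at hnd'
    -- the rotated landmarks
    have key : ∀ z : ℕ × ℕ, z.1 < n → z.2 < m → s.2 ≤ z.2 → s ≠ z →
        (rotN n s.1 z).1 < n ∧ (rotN n s.1 z).2 < m ∧
        n * s.2 < n * (rotN n s.1 z).2 + (rotN n s.1 z).1 ∧
        n * (rotN n s.1 z).2 + (rotN n s.1 z).1 < n * m := by
      intro z h1 h2 h3 h4
      have e1 : (rotN n s.1 z).1 < n := by simp only [rotN]; split_ifs <;> omega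
      have e2 : (rotN n s.1 z).2 = z.2 := rfl
      have e3 : n * (rotN n s.1 z).2 + (rotN n s.1 z).1 < n * m := by
        rw [e2]
        calc n * z.2 + (rotN n s.1 z).1 < n * z.2 + n := by omega
          _ = n * (z.2 + 1) := by ring
          _ ≤ n * m := Nat.mul_le_mul_left _ (by omega)
      refine ⟨e1, by rw [e2]; exact h2, ?_, e3⟩
      rw [e2]
      rcases Nat.lt_or_ge s.2 z.2 with h5 | h5
      · calc n * s.2 < n * s.2 + n := by omega
          _ = n * (s.2 + 1) := by ring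
          _ ≤ n * z.2 := Nat.mul_le_mul_left _ (by omega)
          _ ≤ _ := Nat.le_add_right _ _
      · have h6 : s.2 = z.2 := by omega
        have h7 : z.1 ≠ s.1 := fun h => h4 (Prod.ext h.symm h6)
        have h8 : 0 < (rotN n s.1 z).1 := by simp only [rotN]; split_ifs <;> omega
        rw [h6]; omega
    have hinj : ∀ z w : ℕ × ℕ, z.1 < n → w.1 < n → z ≠ w →
        n * (rotN n s.1 z).2 + (rotN n s.1 z).1 ≠ n * (rotN n s.1 w).2 + (rotN n s.1 w).1 := by
      intro z w h1 h2 h3 h4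
      have e1 : (rotN n s.1 z).1 < n := by simp only [rotN]; split_ifs <;> omega
      have e2 : (rotN n s.1 w).1 < n := by simp only [rotN]; split_ifs <;> omega
      have h5 := vx_idx n (rotN n s.1 z) e1
      have h6 := vx_idx n (rotN n s.1 w) e2
      rw [h4, h6] at h5
      apply h3
      have h7 := congrArg Prod.fst h5
      have h8 := congrArg Prod.snd h5
      simp only [rotN] at h7 h8
      apply Prod.ext
      · split_ifs at h7 <;> omega
      · exact h8.symm
    obtain ⟨p1, p2, p3, p4⟩ := key p hp.1 hp.2.1 hp.2.2 hsp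
    obtain ⟨q1, q2, q3, q4⟩ := key q hq.1 hq.2.1 hq.2.2 hsq
    obtain ⟨r1, r2, r3, r4⟩ := key r hr.1 hr.2.1 hr.2.2 hsr
    have hpq' := hinj p q hp.1 hq.1 hpq
    have hpr' := hinj p r hp.1 hr.1 hpr
    have hqr' := hinj q r hq.1 hr.1 hqr
    have hs0 : rotN n s.1 s = vx n (n * s.2) := by
      have h1 : rotN n s.1 s = (0, s.2) := by simp [rotN]
      have := vx_idx n (0, s.2) (by simp; omega)
      simp only [add_zero] at this
      rw [h1, this]
    have hp0 := vx_idx n (rotN n s.1 p) p1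
    have hq0 := vx_idx n (rotN n s.1 q) q1
    have hr0 := vx_idx n (rotN n s.1 r) r1
    have ord : ∀ a b c : ℕ × ℕ, a.1 < n → b.1 < n → c.1 < n →
        n * s.2 < n * a.2 + a.1 → n * c.2 + c.1 < n * m → n * a.2 + a.1 < n * b.2 + b.1 →
        n * b.2 + b.1 < n * c.2 + c.1 → CollL n m [rotN n s.1 s, a, b, c] := by
      intro a b c h1 h2 h3 h4 h5 h6 h7
      have := H (n * s.2) (n * a.2 + a.1) (n * b.2 + b.1) (n * c.2 + c.1)
        (Nat.mul_mod_right _ _) h5 h4 h6 h7
      rwa [vx_idx n a h1, vx_idx n b h2, vx_idx n c h3, ← hs0] at this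
    simp only [List.map_cons, List.map_nil]
    generalize rotN n s.1 p = p' at *
    generalize rotN n s.1 q = q' at *
    generalize rotN n s.1 r = r' at *
    have w1 : ∀ w x y z : ℕ × ℕ, [w, x, y, z].Perm [w, y, x, z] := fun w x y z =>
      List.Perm.cons _ (List.Perm.swap _ _ _)
    have w2 : ∀ w x y z : ℕ × ℕ, [w, x, y, z].Perm [w, x, z, y] := fun w x y z =>
      List.Perm.cons _ (List.Perm.cons _ (List.Perm.swap _ _ _))
    rcases lt_or_gt_of_ne hpq' with h1 | h1 <;> rcases lt_or_gt_of_ne hpr' with h2 | h2 <;>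
      rcases lt_or_gt_of_ne hqr' with h3 | h3
    · exact ord p' q' r' p1 q1 r1 p3 r4 h1 h3
    · exact (ord p' r' q' p1 r1 q1 p3 q4 h2 h3).perm (w2 _ _ _ _)
    · omega
    · exact ((ord r' p' q' r1 p1 q1 r3 q4 h2 h1).perm (w1 _ _ _ _)).perm (w2 _ _ _ _)
    · exact (ord q' p' r' q1 p1 r1 q3 r4 h1 h2).perm (w1 _ _ _ _)
    · omega
    · exact ((ord q' r' p' q1 r1 p1 q3 p4 h3 h2).perm (w2 _ _ _ _)).perm (w1 _ _ _ _)
    · exact (((ord r' q' p' r1 q1 p1 r3 p4 h3 h1).perm (w1 _ _ _ _)).perm (w2 _ _ _ _)).perm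
        (w1 _ _ _ _)

lemma dN_le (n m : ℕ) (u p : ℕ × ℕ) (hu : u.1 < n) (hp : p.1 < n) (hu' : u.2 < m)
    (hp' : p.2 < m) : dN n u p ≤ n / 2 + (m - 1) := by
  have e := dN_eq n u p hu hp
  simp only [dd, cd, ad] at e
  omega

theorem three_coll (n m : ℕ) (hn : 4 ≤ n) (hm : 2 ≤ m) (hbad : Bad n m)
    (L : List (ℕ × ℕ)) (hlen : L.length = 3) (hnd : L.Nodup)
    (hL : ∀ p ∈ L, p.1 < n ∧ p.2 < m) : CollL n m L := by
  match L, hlen with
  | [p, q, r], _ =>
    have hp := hL p (by simp)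
    have hq := hL q (by simp)
    have hr := hL r (by simp)
    have hpq : p ≠ q := by
      intro h; rw [h] at hnd; simp at hnd
    have hpr : p ≠ r := by
      intro h; rw [h] at hnd; simp at hnd
    have hqr : q ≠ r := by
      intro h; rw [h] at hnd; simp at hnd
    have := no_three (n := n) (m := m) (x1 := p.1) (y1 := p.2) (x2 := q.1) (y2 := q.2)
      (x3 := r.1) (y3 := r.2) (by omega) (by omega) hbad (by omega) (by omega) (by omega)
      (by omega) (by omega) (by omega) (by omega) (by omega) (by omega) (by omega) (by omega)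
      (by omega)
      (fun h1 h2 => hpq (Prod.ext (by omega) (by omega)))
      (fun h1 h2 => hpr (Prod.ext (by omega) (by omega)))
      (fun h1 h2 => hqr (Prod.ext (by omega) (by omega)))
    exact coll_nat n m p.1 p.2 q.1 q.2 r.1 r.2 hp.1 hq.1 hr.1 this

theorem four_le_mdim (n m : ℕ) (hn : 4 ≤ n) (hm : 2 ≤ m) (hbad : Bad n m) :
    (4 : ℕ∞) ≤ mdim (cyl n m) := by
  refine le_mdim n m 4 (by omega) ?_
  intro L hl hnd hL
  by_cases h : L.length < 3
  · exact small_coll n m hn (by omega) L h hnd hL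
  · exact three_coll n m hn hm hbad L (by omega) hnd hL

theorem five_le_mdim (n m : ℕ) (hn : 4 ≤ n) (hm : 2 ≤ m) (hbad : Bad n m)
    (hsmall : n / 2 + (m - 1) ≤ 7) (P : List ((ℕ × ℕ) × (ℕ × ℕ)))
    (hP : ∀ q ∈ P, q.1.1 < n ∧ q.1.2 < m ∧ q.2.1 < n ∧ q.2.2 < m ∧ q.1 ≠ q.2)
    (hs : ∀ r < m, ∃ lo hi, lo ≤ r ∧ r < hi ∧ search n m 16777216 lo hi P = true) :
    (5 : ℕ∞) ≤ mdim (cyl n m) := by
  refine le_mdim n m 5 (by omega) ?_
  intro L hl hnd hL
  by_cases h : L.length < 3
  · exact small_coll n m hn (by omega) L h hnd hL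
  by_cases h3 : L.length = 3
  · exact three_coll n m hn hm hbad L h3 hnd hL
  refine four_coll n m ?_ L (by omega) hnd hL
  intro a b c d ha hd hab hbc hcd
  have hn0 : 0 < n := by omega
  have hadiv : n * (a / n) = a := by
    have := Nat.div_add_mod a n
    omega
  have har : a / n < m := by
    rw [Nat.div_lt_iff_lt_mul hn0, mul_comm]
    omega
  obtain ⟨lo, hi, h1, h2, h4⟩ := hs (a / n) har
  have hvx : ∀ i, i < n * m → (vx n i).1 < n ∧ (vx n i).2 < m := by
    intro i hi
    refine ⟨Nat.mod_lt _ hn0, ?_⟩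
    show i / n < m
    rw [Nat.div_lt_iff_lt_mul hn0, mul_comm]
    exact hi
  have hpow : ∀ e, e ≤ 7 → 4 * 8 ^ e < 16777216 := by
    intro e he
    calc 4 * 8 ^ e ≤ 4 * 8 ^ 7 := Nat.mul_le_mul_left _ (Nat.pow_le_pow_right (by norm_num) he)
      _ < 16777216 := by norm_num
  obtain ⟨q, hq, hperm⟩ := search_sound n m 16777216 lo hi P h4 (by
    intro i hi q hq
    have h5 := hP q hq
    have h6 := hvx i hi
    have h7 := dN_le n m q.1 (vx n i) h5.1 h6.1 h5.2.1 h6.2
    have h8 := dN_le n m q.2 (vx n i) h5.2.2.1 h6.1 h5.2.2.2.1 h6.2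
    exact ⟨hpow _ (by omega), hpow _ (by omega)⟩) a b c d
    (by
      calc n * lo ≤ n * (a / n) := Nat.mul_le_mul_left _ h1
        _ = a := hadiv)
    (by
      calc a = n * (a / n) := hadiv.symm
        _ < n * hi := Nat.mul_lt_mul_of_pos_left h2 hn0) ha hd hab hbc hcd
  have h5 := hP q hq
  exact ⟨q.1, q.2, h5.1, h5.2.1, h5.2.2.1, h5.2.2.2.1, h5.2.2.2.2, hperm⟩

end Pool.Agent.Helper14.MDim
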