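import Mathlib
import Pool.Agent.Helper14.MDim.Search

/-!
# Kernel searches for four landmarks
-/

namespace Pool.Agent.Helper14.MDim

/-- Pairs for `(6, 2)`. -/
def P62 : List ((ℕ × ℕ) × (ℕ × ℕ)) :=
  [((2, 0), (5, 1)), ((4, 0), (1, 1)), ((2, 0), (1, 1)), ((1, 0), (5, 0)), ((1, 0), (3, 0)),
    ((1, 0), (0, 1)), ((3, 0), (5, 0)), ((3, 0), (2, 1)), ((1, 0), (2, 1)), ((0, 0), (1, 1)),
    ((0, 0), (5, 1)), ((0, 0), (1, 0)), ((0, 0), (5, 0)), ((2, 0), (4, 0)), ((0, 0), (2, 1)),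
    ((0, 0), (4, 1)), ((0, 0), (3, 0)), ((0, 0), (0, 1))]

theorem s62 : search 6 2 16777216 0 2 P62 = true := by decide +kernel

/-- Pairs for `(7, 2)`. -/
def P72 : List ((ℕ × ℕ) × (ℕ × ℕ)) :=
  [((1, 0), (0, 1)), ((2, 0), (1, 1)), ((6, 0), (0, 1)), ((5, 0), (6, 1)), ((3, 0), (2, 1)),
    ((4, 0), (5, 1)), ((3, 0), (4, 1)), ((5, 0), (6, 0)), ((0, 0), (1, 1)), ((0, 0), (6, 1)),
    ((0, 1), (6, 1)), ((0, 0), (1, 0)), ((1, 1), (2, 1)), ((2, 0), (3, 0)), ((2, 0), (5, 1)),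
    ((4, 0), (5, 0)), ((5, 0), (2, 1)), ((1, 0), (5, 1)), ((3, 0), (6, 1)), ((4, 0), (3, 1)),
    ((6, 0), (2, 1)), ((1, 0), (2, 1)), ((4, 0), (1, 1)), ((6, 0), (5, 1)), ((2, 0), (3, 1)),
    ((2, 0), (6, 1)), ((3, 0), (0, 1)), ((4, 0), (0, 1)), ((4, 0), (2, 1)), ((6, 0), (3, 1)),
    ((0, 0), (3, 1)), ((1, 0), (3, 1)), ((0, 0), (4, 1)), ((1, 0), (4, 1)), ((2, 0), (0, 1)),
    ((2, 0), (4, 1)), ((3, 0), (5, 1)), ((5, 0), (0, 1)), ((5, 0), (1, 1)), ((5, 0), (3, 1)),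
    ((5, 0), (4, 1)), ((6, 0), (4, 1))]

theorem s72 : search 7 2 16777216 0 2 P72 = true := by decide +kernel

/-- Pairs for `(4, 3)`. -/
def P43 : List ((ℕ × ℕ) × (ℕ × ℕ)) :=
  [((1, 1), (3, 1)), ((2, 0), (0, 2)), ((1, 0), (2, 1)), ((3, 0), (2, 1)), ((0, 1), (2, 1)),
    ((1, 1), (3, 2)), ((0, 1), (1, 1)), ((1, 1), (0, 2)), ((2, 1), (1, 2)), ((1, 1), (2, 1)),
    ((1, 0), (0, 1)), ((2, 0), (1, 1)), ((3, 0), (1, 1)), ((1, 0), (1, 1)), ((0, 0), (0, 2)),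
    ((1, 0), (3, 1)), ((0, 1), (1, 2)), ((0, 1), (3, 2)), ((0, 0), (0, 1)), ((0, 0), (3, 2))]

theorem s43 : search 4 3 16777216 0 3 P43 = true := by decide +kernel

/-- Pairs for `(5, 3)`. -/
def P53 : List ((ℕ × ℕ) × (ℕ × ℕ)) :=
  [((1, 1), (0, 2)), ((2, 1), (1, 2)), ((3, 1), (4, 2)), ((0, 1), (4, 1)), ((2, 1), (3, 1)),
    ((4, 1), (0, 2)), ((0, 1), (1, 1)), ((1, 0), (2, 1)), ((4, 0), (3, 1)), ((0, 1), (2, 1)),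
    ((0, 1), (3, 1)), ((2, 0), (2, 1)), ((3, 0), (3, 1)), ((2, 0), (4, 2)), ((1, 0), (0, 1)),
    ((0, 1), (0, 2)), ((4, 0), (0, 1)), ((2, 0), (1, 1)), ((3, 0), (4, 1)), ((3, 0), (1, 2)),
    ((2, 0), (2, 2)), ((0, 1), (1, 2)), ((0, 1), (4, 2)), ((1, 0), (4, 1)), ((1, 0), (3, 1)),
    ((4, 0), (2, 1)), ((2, 1), (4, 2)), ((2, 0), (0, 1)), ((4, 0), (4, 1)), ((1, 0), (1, 1)),
    ((1, 0), (1, 2)), ((1, 0), (3, 2)), ((1, 0), (4, 2)), ((2, 0), (4, 1)), ((3, 0), (0, 1)),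
    ((4, 0), (1, 1)), ((4, 0), (2, 2)), ((4, 0), (4, 2)), ((1, 1), (2, 2)), ((1, 1), (3, 2)),
    ((3, 1), (1, 2)), ((4, 1), (3, 2)), ((4, 1), (4, 2)), ((2, 2), (3, 2)), ((0, 0), (1, 1)),
    ((0, 0), (4, 1)), ((3, 0), (1, 1)), ((1, 1), (1, 2)), ((4, 1), (2, 2))]

theorem s53 : search 5 3 16777216 0 3 P53 = true := by decide +kernel

/-- Pairs for `(6, 3)`. -/
def P63 : List ((ℕ × ℕ) × (ℕ × ℕ)) :=
  [((1, 1), (0, 2)), ((2, 1), (1, 2)), ((5, 0), (2, 2)), ((3, 1), (2, 2)), ((1, 0), (2, 1)),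
    ((2, 0), (3, 1)), ((1, 0), (0, 1)), ((1, 1), (5, 1)), ((1, 0), (4, 2)), ((0, 1), (2, 1)),
    ((3, 0), (2, 1)), ((1, 1), (3, 1)), ((5, 0), (2, 1)), ((2, 0), (1, 1)), ((3, 0), (0, 2)),
    ((4, 0), (3, 1)), ((1, 1), (2, 2)), ((2, 1), (5, 2)), ((2, 1), (4, 1)), ((4, 1), (1, 2)),
    ((0, 1), (1, 2)), ((0, 1), (5, 2)), ((0, 0), (1, 0)), ((1, 0), (3, 0)), ((3, 0), (5, 0)),
    ((0, 0), (5, 0)), ((1, 0), (5, 2)), ((2, 0), (0, 2)), ((4, 0), (2, 2)), ((0, 0), (2, 1)),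
    ((0, 0), (0, 2)), ((3, 0), (0, 1)), ((3, 0), (1, 2)), ((0, 0), (4, 1)), ((1, 0), (4, 1))]

theorem s63 : search 6 3 16777216 0 3 P63 = true := by decide +kernel

/-- Pairs for `(7, 3)`. -/
def P73 : List ((ℕ × ℕ) × (ℕ × ℕ)) :=
  [((1, 1), (0, 2)), ((5, 1), (6, 2)), ((6, 1), (0, 2)), ((2, 1), (1, 2)), ((3, 0), (2, 1)),
    ((4, 0), (5, 1)), ((3, 1), (2, 2)), ((4, 1), (5, 2)), ((1, 0), (2, 1)), ((6, 0), (5, 1)),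
    ((2, 0), (2, 2)), ((2, 0), (3, 1)), ((5, 0), (4, 1)), ((1, 1), (2, 1)), ((0, 1), (1, 1)),
    ((0, 1), (6, 1)), ((2, 1), (3, 1)), ((4, 1), (5, 1)), ((1, 0), (0, 1)), ((1, 1), (6, 1)),
    ((6, 0), (0, 1)), ((5, 1), (6, 1)), ((4, 0), (0, 2)), ((0, 1), (1, 2)), ((2, 0), (5, 2)),
    ((3, 0), (0, 2)), ((5, 0), (2, 2)), ((0, 1), (6, 2)), ((1, 1), (2, 2)), ((6, 1), (5, 2)),
    ((2, 0), (5, 1)), ((2, 0), (6, 2)), ((6, 0), (6, 1)), ((0, 1), (0, 2)), ((0, 0), (1, 1)),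
    ((0, 0), (6, 1)), ((5, 0), (5, 2)), ((2, 0), (2, 1)), ((5, 0), (2, 1)), ((5, 0), (1, 2)),
    ((1, 0), (5, 1)), ((3, 0), (6, 1)), ((4, 0), (1, 1)), ((5, 0), (5, 1)), ((6, 0), (2, 1)),
    ((1, 0), (1, 1)), ((1, 0), (4, 2)), ((1, 0), (5, 2)), ((6, 0), (2, 2)), ((6, 0), (3, 2)),
    ((3, 1), (4, 1)), ((2, 0), (1, 1)), ((3, 0), (0, 1)), ((3, 0), (6, 2)), ((4, 0), (0, 1)),
    ((4, 0), (1, 2)), ((5, 0), (6, 1)), ((2, 1), (2, 2)), ((5, 1), (5, 2)), ((0, 0), (3, 1)),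
    ((0, 0), (4, 1)), ((2, 0), (6, 1)), ((5, 0), (1, 1)), ((1, 1), (1, 2)), ((1, 1), (3, 2)),
    ((2, 1), (4, 2)), ((5, 1), (3, 2)), ((6, 1), (4, 2)), ((6, 1), (6, 2)), ((1, 0), (2, 0)),
    ((1, 0), (5, 0)), ((1, 0), (3, 1)), ((1, 0), (4, 1)), ((2, 0), (4, 0)), ((2, 0), (6, 0)),
    ((3, 0), (5, 0)), ((6, 0), (3, 1)), ((2, 1), (6, 2)), ((4, 1), (2, 2))]

theorem s73 : search 7 3 16777216 0 3 P73 = true := by decide +kernel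

/-- Pairs for `(4, 4)`. -/
def P44 : List ((ℕ × ℕ) × (ℕ × ℕ)) :=
  [((1, 2), (3, 2)), ((1, 1), (0, 2)), ((2, 1), (1, 2)), ((2, 2), (1, 3)), ((1, 2), (0, 3)),
    ((0, 1), (2, 1)), ((0, 1), (3, 2)), ((0, 1), (1, 2)), ((0, 0), (2, 3)), ((2, 0), (0, 3)),
    ((2, 1), (0, 3)), ((0, 1), (1, 1)), ((0, 1), (3, 1)), ((1, 0), (0, 1)), ((0, 0), (3, 1)),
    ((2, 0), (1, 1)), ((0, 0), (1, 1)), ((0, 1), (2, 2)), ((2, 1), (2, 2)), ((2, 0), (0, 1)),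
    ((0, 2), (1, 3)), ((0, 2), (3, 3)), ((0, 0), (0, 1)), ((0, 1), (0, 3)), ((0, 2), (2, 3)),
    ((0, 0), (0, 2)), ((0, 2), (0, 3))]

theorem s44 : search 4 4 16777216 0 4 P44 = true := by decide +kernel

/-- Pairs for `(5, 4)`. -/
def P54 : List ((ℕ × ℕ) × (ℕ × ℕ)) :=
  [((1, 1), (0, 2)), ((2, 1), (1, 2)), ((4, 1), (0, 2)), ((3, 1), (4, 2)), ((2, 2), (3, 2)),
    ((0, 2), (1, 2)), ((4, 2), (0, 3)), ((1, 2), (0, 3)), ((0, 2), (4, 2)), ((1, 0), (2, 1)),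
    ((4, 0), (3, 1)), ((1, 1), (1, 3)), ((0, 1), (0, 2)), ((3, 2), (4, 3)), ((0, 1), (1, 2)),
    ((0, 1), (4, 2)), ((1, 1), (2, 1)), ((3, 1), (4, 1)), ((1, 0), (0, 1)), ((2, 2), (1, 3)),
    ((4, 0), (0, 1)), ((4, 1), (4, 3)), ((1, 1), (2, 2)), ((4, 1), (3, 2)), ((2, 0), (2, 2)),
    ((2, 0), (1, 1)), ((3, 0), (3, 2)), ((3, 0), (4, 1)), ((0, 1), (1, 1)), ((0, 1), (4, 1)),
    ((1, 1), (1, 2)), ((4, 1), (4, 2)), ((2, 0), (4, 2)), ((2, 2), (4, 3)), ((3, 2), (1, 3)),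
    ((0, 0), (1, 1)), ((1, 1), (4, 2)), ((2, 0), (3, 0)), ((4, 0), (1, 1)), ((4, 1), (2, 2)),
    ((0, 2), (1, 3)), ((1, 0), (1, 2)), ((3, 0), (3, 1)), ((1, 1), (3, 2)), ((3, 1), (0, 2)),
    ((0, 2), (0, 3)), ((0, 2), (4, 3)), ((0, 0), (4, 1)), ((1, 0), (1, 1)), ((4, 0), (4, 2)),
    ((2, 1), (0, 2)), ((2, 0), (2, 1)), ((4, 0), (4, 1)), ((1, 0), (3, 1)), ((1, 0), (4, 1)),
    ((1, 0), (4, 2)), ((2, 0), (0, 1)), ((2, 0), (4, 1)), ((2, 0), (4, 3)), ((3, 0), (0, 1)),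
    ((3, 0), (1, 2)), ((3, 0), (1, 3)), ((4, 0), (2, 1)), ((1, 1), (3, 3)), ((2, 1), (4, 3)),
    ((3, 1), (1, 3)), ((4, 1), (2, 3)), ((1, 2), (1, 3)), ((1, 2), (2, 3)), ((1, 2), (3, 3)),
    ((4, 2), (2, 3)), ((4, 2), (3, 3)), ((4, 2), (4, 3)), ((2, 3), (3, 3)), ((3, 0), (1, 1)),
    ((3, 0), (3, 3)), ((2, 1), (2, 2)), ((3, 1), (3, 2)), ((4, 1), (1, 2))]

theorem s54 : search 5 4 16777216 0 4 P54 = true := by decide +kernel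

end Pool.Agent.Helper14.MDim
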