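import Mathlib
import Pool.Agent.Helper14.MDim.Search

/-!
# Kernel searches for four landmarks
-/

namespace Pool.Agent.Helper14.MDim

/-- Pairs for `(7, 5)`. -/
def P75 : List ((ℕ × ℕ) × (ℕ × ℕ)) :=
  [((1, 2), (0, 3)), ((3, 2), (2, 3)), ((2, 2), (1, 3)), ((6, 1), (0, 2)), ((4, 1), (5, 2)),
    ((6, 3), (0, 4)), ((4, 3), (5, 4)), ((5, 1), (6, 2)), ((6, 2), (0, 3)), ((1, 1), (2, 2)),
    ((1, 1), (0, 2)), ((6, 1), (5, 2)), ((4, 2), (5, 3)), ((5, 3), (6, 4)), ((2, 0), (1, 1)),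
    ((2, 1), (3, 2)), ((6, 0), (5, 1)), ((5, 1), (4, 2)), ((5, 2), (6, 3)), ((5, 2), (6, 2)),
    ((5, 1), (5, 3)), ((1, 3), (0, 4)), ((3, 0), (2, 1)), ((0, 2), (6, 2)), ((3, 3), (4, 3)),
    ((0, 3), (1, 3)), ((1, 2), (2, 2)), ((1, 0), (0, 1)), ((3, 1), (2, 2)), ((2, 3), (1, 4)),
    ((3, 3), (2, 4)), ((2, 1), (2, 3)), ((1, 0), (2, 1)), ((2, 2), (3, 2)), ((5, 0), (4, 1)),
    ((2, 0), (3, 1)), ((4, 2), (5, 2)), ((1, 2), (2, 3)), ((0, 2), (6, 3)), ((6, 2), (5, 3)),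
    ((0, 2), (1, 3)), ((6, 0), (0, 1)), ((2, 1), (1, 2)), ((1, 2), (1, 4)), ((2, 0), (2, 2)),
    ((0, 2), (1, 2)), ((4, 0), (5, 1)), ((0, 2), (0, 3)), ((2, 1), (3, 1)), ((0, 1), (1, 2)),
    ((5, 0), (5, 2)), ((0, 1), (6, 2)), ((6, 2), (6, 4)), ((2, 0), (5, 4)), ((2, 2), (3, 3)),
    ((2, 1), (5, 2)), ((3, 0), (4, 0)), ((3, 1), (6, 2)), ((4, 1), (5, 1)), ((0, 3), (6, 3)),
    ((5, 2), (4, 3)), ((6, 1), (6, 3)), ((2, 1), (4, 1)), ((4, 1), (1, 2)), ((6, 1), (1, 3)),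
    ((4, 2), (2, 3)), ((3, 2), (5, 3)), ((0, 3), (1, 4)), ((1, 1), (1, 3)), ((3, 1), (5, 1)),
    ((2, 2), (2, 4)), ((0, 3), (6, 4)), ((1, 0), (5, 1)), ((5, 0), (6, 1)), ((6, 1), (2, 2)),
    ((5, 2), (2, 3)), ((5, 2), (5, 4)), ((1, 3), (2, 4)), ((6, 3), (5, 4)), ((2, 2), (0, 3)),
    ((1, 1), (6, 3)), ((5, 1), (6, 1)), ((5, 2), (0, 3)), ((2, 0), (5, 2)), ((0, 3), (2, 3)),
    ((0, 3), (5, 3)), ((0, 1), (0, 2)), ((1, 1), (2, 1)), ((5, 1), (2, 2)), ((2, 3), (5, 4)),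
    ((1, 2), (5, 3)), ((0, 0), (1, 1)), ((2, 0), (5, 1)), ((6, 2), (2, 3)), ((2, 3), (6, 4)),
    ((0, 0), (2, 1)), ((0, 0), (5, 1)), ((2, 0), (2, 1)), ((3, 0), (6, 2)), ((5, 0), (5, 1)),
    ((2, 1), (2, 2)), ((2, 1), (4, 2)), ((5, 1), (5, 2)), ((1, 2), (3, 2)), ((2, 2), (5, 3)),
    ((3, 2), (0, 3)), ((4, 2), (6, 2)), ((4, 3), (2, 4)), ((2, 0), (0, 1)), ((2, 0), (6, 2)),
    ((3, 0), (0, 2)), ((4, 0), (0, 2)), ((5, 0), (0, 1)), ((1, 2), (6, 2)), ((1, 2), (6, 4)),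
    ((2, 2), (6, 4)), ((3, 2), (1, 4)), ((4, 2), (0, 3)), ((4, 2), (6, 4)), ((6, 2), (1, 4)),
    ((0, 3), (0, 4)), ((2, 0), (0, 3)), ((3, 0), (5, 1)), ((5, 0), (2, 4)), ((5, 1), (1, 2)),
    ((1, 2), (5, 4)), ((6, 2), (6, 3)), ((2, 3), (0, 4)), ((0, 0), (6, 2)), ((1, 0), (2, 0)),
    ((3, 0), (5, 3)), ((3, 0), (6, 4)), ((4, 0), (5, 0)), ((5, 0), (6, 0)), ((5, 0), (2, 1)),
    ((2, 1), (6, 1)), ((2, 1), (5, 3)), ((4, 1), (0, 3)), ((5, 1), (2, 3)), ((1, 2), (1, 3)),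
    ((1, 2), (4, 4)), ((1, 3), (3, 4)), ((1, 3), (4, 4)), ((1, 3), (5, 4)), ((5, 3), (3, 4)),
    ((6, 3), (4, 4)), ((0, 4), (1, 4)), ((4, 4), (5, 4)), ((0, 0), (3, 1)), ((0, 0), (4, 1)),
    ((0, 0), (6, 1)), ((0, 0), (2, 3)), ((0, 0), (5, 3)), ((0, 0), (3, 4)), ((0, 0), (4, 4)),
    ((1, 0), (1, 1)), ((1, 0), (1, 2)), ((1, 0), (4, 4)), ((2, 0), (3, 0)), ((3, 0), (4, 1)),
    ((4, 0), (2, 1)), ((4, 0), (1, 4)), ((5, 0), (3, 1)), ((5, 0), (2, 2)), ((6, 0), (3, 1)),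
    ((6, 0), (6, 2)), ((6, 0), (3, 4)), ((2, 1), (0, 3)), ((2, 1), (6, 3)), ((3, 1), (0, 3)),
    ((4, 1), (1, 3)), ((5, 1), (3, 2)), ((5, 1), (1, 3)), ((0, 2), (3, 4)), ((1, 3), (1, 4)),
    ((4, 3), (3, 4))]

theorem s75_0 : search 7 5 16777216 0 1 P75 = true := by decide +kernel

theorem s75_1 : search 7 5 16777216 1 2 P75 = true := by decide +kernel

theorem s75_2 : search 7 5 16777216 2 3 P75 = true := by decide +kernel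

theorem s75_3 : search 7 5 16777216 3 4 P75 = true := by decide +kernel

theorem s75_4 : search 7 5 16777216 4 5 P75 = true := by decide +kernel

end Pool.Agent.Helper14.MDim
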