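import Mathlib
import Pool.Agent.Helper14.MDim.Search

/-!
# Kernel checks: resolving sets of small cylinders, and cylinders without resolving sets
-/

namespace Pool.Agent.Helper14.MDim

/-- Evaluate a list of numbers before using it. -/
noncomputable def evalN (T : List ℕ) : (List ℕ → Bool) → Bool :=
  @List.rec ℕ (fun _ => (List ℕ → Bool) → Bool) (fun k => k [])
    (fun x _ ih k => force x fun i => ih (fun t => k (i :: t))) T

lemma evalN_eq (T : List ℕ) (k : List ℕ → Bool) : evalN T k = k T := by
  induction T generalizing k with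
  | nil => rfl
  | cons x t ih =>
    have : evalN (x :: t) k = force x fun i => evalN t (fun t => k (i :: t)) := rfl
    rw [this, force_eq, ih]

/-- Are the entries pairwise distinct? -/
noncomputable def distinctT (T : List ℕ) : Bool :=
  allT (fun x t => allT (fun y _ => @Bool.rec (fun _ => Bool) true false (Nat.beq x y)) t) T

/-- Codes of the representations of all vertices. -/
def codes (n m : ℕ) (L : List (ℕ × ℕ)) : List ℕ :=
  (List.range (n * m)).map (fun i => code 8 (L.map (dN n (vx n i))))

/-- Does `L` resolve? -/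
noncomputable def resB (n m : ℕ) (L : List (ℕ × ℕ)) : Bool := evalN (codes n m L) distinctT

lemma resB_sound (n m : ℕ) (L : List (ℕ × ℕ)) (h : resB n m L = true) (i j : ℕ) (hij : i < j)
    (hj : j < n * m) : code 8 (L.map (dN n (vx n i))) ≠ code 8 (L.map (dN n (vx n j))) := by
  unfold resB at h
  rw [evalN_eq] at h
  have hlen : (codes n m L).length = n * m := by simp [codes]
  have hget : ∀ i (hi : i < (codes n m L).length),
      (codes n m L)[i] = code 8 (L.map (dN n (vx n i))) := by
    intro i hi
    simp [codes]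
  unfold distinctT at h
  have h1 := allT_drop _ (codes n m L) 0 (by simpa using h) i (Nat.zero_le _) (by omega)
  have h2 := allT_drop _ (codes n m L) (i + 1) h1 j (by omega) (by omega)
  rw [hget, hget] at h2
  intro he
  have : Nat.beq (code 8 (L.map (dN n (vx n i)))) (code 8 (L.map (dN n (vx n j)))) = true := by
    rw [Nat.beq_eq]; exact he
  rw [this] at h2
  exact absurd h2 (by simp)

lemma vx_idx' (n : ℕ) (p : ℕ × ℕ) (hp : p.1 < n) : vx n (n * p.2 + p.1) = p := by
  unfold vx
  apply Prod.ext
  · simp only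
    rw [Nat.mul_add_mod, Nat.mod_eq_of_lt hp]
  · simp only
    rw [Nat.mul_add_div (by omega), Nat.div_eq_of_lt hp, add_zero]

lemma idx_lt (n m : ℕ) (p : ℕ × ℕ) (hp : p.1 < n) (hp' : p.2 < m) :
    n * p.2 + p.1 < n * m := by
  calc n * p.2 + p.1 < n * p.2 + n := by omega
    _ = n * (p.2 + 1) := by ring
    _ ≤ n * m := Nat.mul_le_mul_left _ (by omega)

theorem mdim_le_of_resB (n m : ℕ) (hn : 3 ≤ n) (L : List (ℕ × ℕ))
    (hL : ∀ p ∈ L, p.1 < n ∧ p.2 < m) (hnd : L.Nodup) (h : resB n m L = true) :
    mdim (cyl n m) ≤ L.length := by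
  refine mdim_le n m hn L hL hnd ?_
  intro u v hu1 hu2 hv1 hv2 hp
  have hc := code_of_perm 8 hp
  have hu := vx_idx' n u hu1
  have hv := vx_idx' n v hv1
  have hu' := idx_lt n m u hu1 hu2
  have hv' := idx_lt n m v hv1 hv2
  rcases lt_trichotomy (n * u.2 + u.1) (n * v.2 + v.1) with h1 | h1 | h1
  · have := resB_sound n m L h _ _ h1 hv'
    rw [hu, hv] at this
    exact absurd hc this
  · rw [← hu, ← hv, h1]
  · have := resB_sound n m L h _ _ h1 hu'
    rw [hu, hv] at this
    exact absurd hc.symm this

/-! ## All subsets -/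

/-- Table entry with base `16`. -/
def entry16 (n B : ℕ) (P : List ((ℕ × ℕ) × (ℕ × ℕ))) (i : ℕ) : ℕ × ℕ × ℕ :=
  (i, pk B (P.map fun q => 16 ^ dN n q.1 (vx n i)), pk B (P.map fun q => 16 ^ dN n q.2 (vx n i)))

/-- Run through all sublists. -/
noncomputable def allSub (B p : ℕ) (T : List (ℕ × ℕ × ℕ)) : ℕ → ℕ → Bool :=
  @List.rec (ℕ × ℕ × ℕ) (fun _ => ℕ → ℕ → Bool) (fun U V => go B p U V)
    (fun x _ ih U V => @Bool.rec (fun _ => Bool) false
      (force (Nat.add U x.2.1) fun U' => force (Nat.add V x.2.2) fun V' => ih U' V') (ih U V)) T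

lemma allSub_sound (B p : ℕ) (T T' : List (ℕ × ℕ × ℕ)) (hs : T'.Sublist T) (U V : ℕ)
    (h : allSub B p T U V = true) :
    go B p (U + (T'.map fun x => x.2.1).sum) (V + (T'.map fun x => x.2.2).sum) = true := by
  induction hs generalizing U V with
  | slnil =>
    have e : allSub B p [] U V = go B p U V := rfl
    rw [e] at h
    simpa using h
  | @cons l₁ l₂ a hs ih =>
    have e : allSub B p (a :: l₂) U V = @Bool.rec (fun _ => Bool) false
      (force (Nat.add U a.2.1) fun U' => force (Nat.add V a.2.2) fun V' => allSub B p l₂ U' V')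
      (allSub B p l₂ U V) := rfl
    rw [e] at h
    cases hb : allSub B p l₂ U V
    · rw [hb] at h; exact absurd h (by simp)
    · exact ih U V hb
  | @cons_cons l₁ l₂ a hs ih =>
    have e : allSub B p (a :: l₂) U V = @Bool.rec (fun _ => Bool) false
      (force (Nat.add U a.2.1) fun U' => force (Nat.add V a.2.2) fun V' => allSub B p l₂ U' V')
      (allSub B p l₂ U V) := rfl
    rw [e] at h
    cases hb : allSub B p l₂ U V
    · rw [hb] at h; exact absurd h (by simp)
    · rw [hb] at h
      have h' : allSub B p l₂ (U + a.2.1) (V + a.2.2) = true := by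
        have := h
        simp only [force_eq] at this
        exact this
      have := ih _ _ h'
      simp only [List.map_cons, List.sum_cons]
      rw [← add_assoc, ← add_assoc]
      exact this

lemma pk_zero {α : Type*} (B : ℕ) (P : List α) : pk B (P.map fun _ => 0) = 0 := by
  induction P with
  | nil => rfl
  | cons q t ih => rw [List.map_cons, pk, ih, mul_zero, add_zero]

lemma sum_fst (n B : ℕ) (P : List ((ℕ × ℕ) × (ℕ × ℕ))) (I : List ℕ) :
    ((I.map (entry16 n B P)).map fun x => x.2.1).sum =
      pk B (P.map fun q => code 16 ((I.map (vx n)).map (dN n q.1))) := by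
  induction I with
  | nil => exact (pk_zero B P).symm
  | cons i t ih =>
    simp only [List.map_cons, List.sum_cons, code]
    rw [ih, ← pk_add]
    rfl

lemma sum_snd (n B : ℕ) (P : List ((ℕ × ℕ) × (ℕ × ℕ))) (I : List ℕ) :
    ((I.map (entry16 n B P)).map fun x => x.2.2).sum =
      pk B (P.map fun q => code 16 ((I.map (vx n)).map (dN n q.2))) := by
  induction I with
  | nil => exact (pk_zero B P).symm
  | cons i t ih =>
    simp only [List.map_cons, List.sum_cons, code]
    rw [ih, ← pk_add]
    rfl

/-- The check for all subsets. -/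
noncomputable def subs (n m B : ℕ) (P : List ((ℕ × ℕ) × (ℕ × ℕ))) : Bool :=
  evalTab ((List.range (n * m)).map (entry16 n B P)) fun T => allSub B P.length T 0 0

lemma code_le (b D : ℕ) (hb : 0 < b) (L : List ℕ) (h : ∀ d ∈ L, d ≤ D) :
    code b L ≤ L.length * b ^ D := by
  induction L with
  | nil => simp [code]
  | cons d t ih =>
    rw [code, List.length_cons, add_mul, one_mul, add_comm]
    have h1 := ih (fun x hx => h x (by simp [hx]))
    have h2 : b ^ d ≤ b ^ D := Nat.pow_le_pow_right hb (h d (by simp))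
    omega

theorem mdim_top_of_subs (n m D : ℕ) (hn : 3 ≤ n) (hnm : n * m ≤ 15)
    (P : List ((ℕ × ℕ) × (ℕ × ℕ)))
    (hP : ∀ q ∈ P, q.1.1 < n ∧ q.1.2 < m ∧ q.2.1 < n ∧ q.2.2 < m ∧ q.1 ≠ q.2)
    (hD : ∀ i < n * m, ∀ j < n * m, dN n (vx n i) (vx n j) ≤ D)
    (h : subs n m (16 ^ (D + 1)) P = true) : mdim (cyl n m) = ⊤ := by
  refine mdim_top n m hn ?_
  intro L hnd hL
  set I : List ℕ := (List.range (n * m)).filter (fun i => decide (vx n i ∈ L)) with hI
  have hIL : (I.map (vx n)).Perm L := by
    rw [List.perm_ext_iff_of_nodup ?_ hnd]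
    · intro p
      simp only [hI, List.mem_map, List.mem_filter, List.mem_range, decide_eq_true_eq]
      constructor
      · rintro ⟨i, ⟨_, h1⟩, rfl⟩
        exact h1
      · intro hp
        have h1 := hL p hp
        exact ⟨n * p.2 + p.1, ⟨idx_lt n m p h1.1 h1.2, by rw [vx_idx' n p h1.1]; exact hp⟩,
          vx_idx' n p h1.1⟩
    · apply List.Nodup.map_on
      · intro i hi j hj hij
        have h1 : i % n = j % n := congrArg Prod.fst hij
        have h2 : i / n = j / n := congrArg Prod.snd hij
        rw [← Nat.div_add_mod i n, ← Nat.div_add_mod j n, h1, h2]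
      · exact (List.nodup_range).filter _
  have hIlen : I.length ≤ 15 := by
    have := List.length_filter_le (fun i => decide (vx n i ∈ L)) (List.range (n * m))
    rw [List.length_range, ← hI] at this
    omega
  have hsub : (I.map (entry16 n (16 ^ (D + 1)) P)).Sublist
      ((List.range (n * m)).map (entry16 n (16 ^ (D + 1)) P)) :=
    (List.filter_sublist).map _
  unfold subs at h
  rw [evalTab_eq] at h
  have h2 := allSub_sound _ _ _ _ hsub 0 0 h
  rw [zero_add, zero_add, sum_fst, sum_snd] at h2
  have hmemI : ∀ i ∈ I, i < n * m := by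
    intro i hi
    rw [hI, List.mem_filter, List.mem_range] at hi
    exact hi.1
  have hbound : ∀ u : ℕ × ℕ, u.1 < n → u.2 < m →
      code 16 ((I.map (vx n)).map (dN n u)) < 16 ^ (D + 1) := by
    intro u h1 h2
    have h3 := code_le 16 D (by norm_num) ((I.map (vx n)).map (dN n u)) (by
      intro d hd
      simp only [List.mem_map] at hd
      obtain ⟨p, ⟨i, hi, rfl⟩, rfl⟩ := hd
      have := hD (n * u.2 + u.1) (idx_lt n m u h1 h2) i (hmemI i hi)
      rwa [vx_idx' n u h1] at this)
    rw [List.length_map, List.length_map] at h3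
    calc _ ≤ I.length * 16 ^ D := h3
      _ ≤ 15 * 16 ^ D := Nat.mul_le_mul_right _ hIlen
      _ < 16 ^ (D + 1) := by
        rw [pow_succ]
        have : 0 < 16 ^ D := by positivity
        omega
  have hf : ∀ q ∈ P, code 16 ((I.map (vx n)).map (dN n q.1)) < 16 ^ (D + 1) := fun q hq =>
    hbound q.1 (hP q hq).1 (hP q hq).2.1
  have hg : ∀ q ∈ P, code 16 ((I.map (vx n)).map (dN n q.2)) < 16 ^ (D + 1) := fun q hq =>
    hbound q.2 (hP q hq).2.2.1 (hP q hq).2.2.2.1
  obtain ⟨q, hq, e⟩ := go_sound _ _ _ P hf hg h2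
  have hperm := perm_of_code 16 _ _ (by simp; omega) (by simp; omega) e
  have h5 := hP q hq
  exact ⟨q.1, q.2, h5.1, h5.2.1, h5.2.2.1, h5.2.2.2.1, h5.2.2.2.2,
    ((hIL.map _).symm.trans hperm).trans (hIL.map _)⟩

end Pool.Agent.Helper14.MDim
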