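import Mathlib
import Pool.Agent.Helper14.MDim.Small

/-!
# Resolving sets of small cylinders
-/

namespace Pool.Agent.Helper14.MDim

theorem u8_2 : mdim (cyl 8 2) ≤ 4 :=
  mdim_le_of_resB 8 2 (by norm_num) [(0, 0), (1, 0), (2, 1), (6, 1)] (by decide) (by decide) (by decide +kernel)

theorem u9_2 : mdim (cyl 9 2) ≤ 4 :=
  mdim_le_of_resB 9 2 (by norm_num) [(0, 0), (1, 0), (2, 0), (4, 0)] (by decide) (by decide) (by decide +kernel)

theorem u10_2 : mdim (cyl 10 2) ≤ 4 :=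
  mdim_le_of_resB 10 2 (by norm_num) [(0, 0), (0, 1), (2, 0), (4, 0)] (by decide) (by decide) (by decide +kernel)

theorem u13_2 : mdim (cyl 13 2) ≤ 4 :=
  mdim_le_of_resB 13 2 (by norm_num) [(0, 0), (0, 1), (4, 0), (7, 0)] (by decide) (by decide) (by decide +kernel)

theorem u8_3 : mdim (cyl 8 3) ≤ 4 :=
  mdim_le_of_resB 8 3 (by norm_num) [(0, 0), (1, 0), (3, 0), (5, 0)] (by decide) (by decide) (by decide +kernel)

theorem u9_3 : mdim (cyl 9 3) ≤ 4 :=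
  mdim_le_of_resB 9 3 (by norm_num) [(0, 0), (1, 1), (2, 1), (5, 0)] (by decide) (by decide) (by decide +kernel)

theorem u10_3 : mdim (cyl 10 3) ≤ 4 :=
  mdim_le_of_resB 10 3 (by norm_num) [(0, 0), (1, 0), (3, 0), (5, 0)] (by decide) (by decide) (by decide +kernel)

theorem u11_3 : mdim (cyl 11 3) ≤ 4 :=
  mdim_le_of_resB 11 3 (by norm_num) [(0, 0), (1, 1), (2, 1), (5, 0)] (by decide) (by decide) (by decide +kernel)

theorem u12_3 : mdim (cyl 12 3) ≤ 4 :=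
  mdim_le_of_resB 12 3 (by norm_num) [(0, 0), (1, 0), (3, 0), (7, 0)] (by decide) (by decide) (by decide +kernel)

theorem u13_3 : mdim (cyl 13 3) ≤ 4 :=
  mdim_le_of_resB 13 3 (by norm_num) [(0, 0), (1, 0), (3, 0), (8, 0)] (by decide) (by decide) (by decide +kernel)

theorem u14_3 : mdim (cyl 14 3) ≤ 4 :=
  mdim_le_of_resB 14 3 (by norm_num) [(0, 0), (0, 2), (5, 0), (8, 0)] (by decide) (by decide) (by decide +kernel)

theorem u15_3 : mdim (cyl 15 3) ≤ 4 :=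
  mdim_le_of_resB 15 3 (by norm_num) [(0, 0), (0, 2), (4, 0), (7, 0)] (by decide) (by decide) (by decide +kernel)

theorem u16_3 : mdim (cyl 16 3) ≤ 4 :=
  mdim_le_of_resB 16 3 (by norm_num) [(0, 0), (0, 1), (1, 2), (11, 2)] (by decide) (by decide) (by decide +kernel)

theorem u17_3 : mdim (cyl 17 3) ≤ 4 :=
  mdim_le_of_resB 17 3 (by norm_num) [(0, 0), (0, 2), (5, 0), (8, 0)] (by decide) (by decide) (by decide +kernel)

theorem u20_3 : mdim (cyl 20 3) ≤ 4 :=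
  mdim_le_of_resB 20 3 (by norm_num) [(0, 0), (0, 1), (1, 2), (13, 2)] (by decide) (by decide) (by decide +kernel)

theorem u7_4 : mdim (cyl 7 4) ≤ 4 :=
  mdim_le_of_resB 7 4 (by norm_num) [(0, 0), (1, 1), (3, 2), (6, 3)] (by decide) (by decide) (by decide +kernel)

theorem u8_4 : mdim (cyl 8 4) ≤ 4 :=
  mdim_le_of_resB 8 4 (by norm_num) [(0, 0), (1, 0), (3, 0), (5, 0)] (by decide) (by decide) (by decide +kernel)

theorem u9_4 : mdim (cyl 9 4) ≤ 4 :=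
  mdim_le_of_resB 9 4 (by norm_num) [(0, 0), (1, 1), (2, 1), (5, 0)] (by decide) (by decide) (by decide +kernel)

theorem u10_4 : mdim (cyl 10 4) ≤ 4 :=
  mdim_le_of_resB 10 4 (by norm_num) [(0, 0), (0, 3), (2, 0), (4, 0)] (by decide) (by decide) (by decide +kernel)

theorem u11_4 : mdim (cyl 11 4) ≤ 4 :=
  mdim_le_of_resB 11 4 (by norm_num) [(0, 0), (1, 1), (2, 1), (5, 0)] (by decide) (by decide) (by decide +kernel)

theorem u12_4 : mdim (cyl 12 4) ≤ 4 :=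
  mdim_le_of_resB 12 4 (by norm_num) [(0, 0), (0, 3), (1, 1), (8, 0)] (by decide) (by decide) (by decide +kernel)

theorem u13_4 : mdim (cyl 13 4) ≤ 4 :=
  mdim_le_of_resB 13 4 (by norm_num) [(0, 0), (1, 0), (3, 0), (8, 0)] (by decide) (by decide) (by decide +kernel)

theorem u14_4 : mdim (cyl 14 4) ≤ 4 :=
  mdim_le_of_resB 14 4 (by norm_num) [(0, 0), (0, 2), (2, 3), (6, 0)] (by decide) (by decide) (by decide +kernel)

theorem u15_4 : mdim (cyl 15 4) ≤ 4 :=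
  mdim_le_of_resB 15 4 (by norm_num) [(0, 0), (0, 2), (5, 0), (9, 0)] (by decide) (by decide) (by decide +kernel)

theorem u16_4 : mdim (cyl 16 4) ≤ 4 :=
  mdim_le_of_resB 16 4 (by norm_num) [(0, 0), (0, 2), (2, 3), (6, 0)] (by decide) (by decide) (by decide +kernel)

theorem u17_4 : mdim (cyl 17 4) ≤ 4 :=
  mdim_le_of_resB 17 4 (by norm_num) [(0, 0), (0, 2), (5, 0), (9, 0)] (by decide) (by decide) (by decide +kernel)

theorem u18_4 : mdim (cyl 18 4) ≤ 4 :=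
  mdim_le_of_resB 18 4 (by norm_num) [(0, 0), (0, 1), (0, 3), (6, 3)] (by decide) (by decide) (by decide +kernel)

theorem u19_4 : mdim (cyl 19 4) ≤ 4 :=
  mdim_le_of_resB 19 4 (by norm_num) [(0, 0), (0, 2), (5, 0), (9, 0)] (by decide) (by decide) (by decide +kernel)

theorem u20_4 : mdim (cyl 20 4) ≤ 4 :=
  mdim_le_of_resB 20 4 (by norm_num) [(0, 0), (0, 1), (0, 3), (6, 3)] (by decide) (by decide) (by decide +kernel)

theorem u21_4 : mdim (cyl 21 4) ≤ 4 :=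
  mdim_le_of_resB 21 4 (by norm_num) [(0, 0), (0, 2), (6, 0), (10, 0)] (by decide) (by decide) (by decide +kernel)

theorem u22_4 : mdim (cyl 22 4) ≤ 4 :=
  mdim_le_of_resB 22 4 (by norm_num) [(0, 0), (0, 1), (0, 3), (6, 3)] (by decide) (by decide) (by decide +kernel)

theorem u25_4 : mdim (cyl 25 4) ≤ 4 :=
  mdim_le_of_resB 25 4 (by norm_num) [(0, 0), (0, 2), (7, 0), (12, 0)] (by decide) (by decide) (by decide +kernel)

theorem u4_5 : mdim (cyl 4 5) ≤ 4 :=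
  mdim_le_of_resB 4 5 (by norm_num) [(0, 0), (0, 4), (1, 1), (2, 1)] (by decide) (by decide) (by decide +kernel)

theorem u5_5 : mdim (cyl 5 5) ≤ 4 :=
  mdim_le_of_resB 5 5 (by norm_num) [(0, 0), (0, 4), (1, 1), (2, 1)] (by decide) (by decide) (by decide +kernel)

theorem u8_5 : mdim (cyl 8 5) ≤ 4 :=
  mdim_le_of_resB 8 5 (by norm_num) [(0, 0), (0, 4), (1, 1), (4, 1)] (by decide) (by decide) (by decide +kernel)

theorem u9_5 : mdim (cyl 9 5) ≤ 4 :=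
  mdim_le_of_resB 9 5 (by norm_num) [(0, 0), (1, 1), (2, 1), (5, 0)] (by decide) (by decide) (by decide +kernel)

theorem u10_5 : mdim (cyl 10 5) ≤ 4 :=
  mdim_le_of_resB 10 5 (by norm_num) [(0, 0), (1, 0), (3, 0), (5, 0)] (by decide) (by decide) (by decide +kernel)

theorem u11_5 : mdim (cyl 11 5) ≤ 4 :=
  mdim_le_of_resB 11 5 (by norm_num) [(0, 0), (1, 1), (2, 1), (5, 0)] (by decide) (by decide) (by decide +kernel)

theorem u12_5 : mdim (cyl 12 5) ≤ 4 :=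
  mdim_le_of_resB 12 5 (by norm_num) [(0, 0), (0, 4), (1, 1), (6, 1)] (by decide) (by decide) (by decide +kernel)

theorem u13_5 : mdim (cyl 13 5) ≤ 4 :=
  mdim_le_of_resB 13 5 (by norm_num) [(0, 0), (1, 0), (3, 0), (8, 0)] (by decide) (by decide) (by decide +kernel)

theorem u14_5 : mdim (cyl 14 5) ≤ 4 :=
  mdim_le_of_resB 14 5 (by norm_num) [(0, 0), (0, 2), (5, 0), (8, 0)] (by decide) (by decide) (by decide +kernel)

theorem u15_5 : mdim (cyl 15 5) ≤ 4 :=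
  mdim_le_of_resB 15 5 (by norm_num) [(0, 0), (0, 2), (5, 0), (9, 0)] (by decide) (by decide) (by decide +kernel)

theorem u16_5 : mdim (cyl 16 5) ≤ 4 :=
  mdim_le_of_resB 16 5 (by norm_num) [(0, 0), (0, 2), (1, 4), (6, 0)] (by decide) (by decide) (by decide +kernel)

theorem u17_5 : mdim (cyl 17 5) ≤ 4 :=
  mdim_le_of_resB 17 5 (by norm_num) [(0, 0), (0, 2), (5, 0), (9, 0)] (by decide) (by decide) (by decide +kernel)

theorem u18_5 : mdim (cyl 18 5) ≤ 4 :=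
  mdim_le_of_resB 18 5 (by norm_num) [(0, 0), (0, 2), (1, 4), (6, 0)] (by decide) (by decide) (by decide +kernel)

theorem u19_5 : mdim (cyl 19 5) ≤ 4 :=
  mdim_le_of_resB 19 5 (by norm_num) [(0, 0), (0, 2), (5, 0), (9, 0)] (by decide) (by decide) (by decide +kernel)

theorem u20_5 : mdim (cyl 20 5) ≤ 4 :=
  mdim_le_of_resB 20 5 (by norm_num) [(0, 0), (0, 1), (0, 4), (6, 1)] (by decide) (by decide) (by decide +kernel)

theorem u21_5 : mdim (cyl 21 5) ≤ 4 :=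
  mdim_le_of_resB 21 5 (by norm_num) [(0, 0), (0, 2), (6, 0), (10, 0)] (by decide) (by decide) (by decide +kernel)

theorem u22_5 : mdim (cyl 22 5) ≤ 4 :=
  mdim_le_of_resB 22 5 (by norm_num) [(0, 0), (0, 1), (0, 4), (6, 1)] (by decide) (by decide) (by decide +kernel)

theorem u23_5 : mdim (cyl 23 5) ≤ 4 :=
  mdim_le_of_resB 23 5 (by norm_num) [(0, 0), (0, 2), (7, 0), (11, 0)] (by decide) (by decide) (by decide +kernel)

theorem u24_5 : mdim (cyl 24 5) ≤ 4 :=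
  mdim_le_of_resB 24 5 (by norm_num) [(0, 0), (0, 1), (0, 4), (6, 1)] (by decide) (by decide) (by decide +kernel)

theorem u25_5 : mdim (cyl 25 5) ≤ 4 :=
  mdim_le_of_resB 25 5 (by norm_num) [(0, 0), (0, 2), (7, 0), (13, 0)] (by decide) (by decide) (by decide +kernel)

theorem u26_5 : mdim (cyl 26 5) ≤ 4 :=
  mdim_le_of_resB 26 5 (by norm_num) [(0, 0), (0, 1), (0, 4), (6, 1)] (by decide) (by decide) (by decide +kernel)

theorem u27_5 : mdim (cyl 27 5) ≤ 4 :=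
  mdim_le_of_resB 27 5 (by norm_num) [(0, 0), (0, 2), (7, 0), (13, 0)] (by decide) (by decide) (by decide +kernel)

theorem u28_5 : mdim (cyl 28 5) ≤ 4 :=
  mdim_le_of_resB 28 5 (by norm_num) [(0, 0), (0, 1), (0, 4), (6, 1)] (by decide) (by decide) (by decide +kernel)

theorem u29_5 : mdim (cyl 29 5) ≤ 4 :=
  mdim_le_of_resB 29 5 (by norm_num) [(0, 0), (0, 2), (8, 0), (14, 0)] (by decide) (by decide) (by decide +kernel)

theorem u32_5 : mdim (cyl 32 5) ≤ 4 :=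
  mdim_le_of_resB 32 5 (by norm_num) [(0, 0), (0, 1), (0, 4), (6, 1)] (by decide) (by decide) (by decide +kernel)

theorem u6_2 : mdim (cyl 6 2) ≤ 5 :=
  mdim_le_of_resB 6 2 (by norm_num) [(0, 0), (1, 0), (2, 0), (4, 0), (0, 1)] (by decide) (by decide) (by decide +kernel)

theorem u7_2 : mdim (cyl 7 2) ≤ 5 :=
  mdim_le_of_resB 7 2 (by norm_num) [(2, 0), (5, 0), (3, 1), (4, 1), (6, 1)] (by decide) (by decide) (by decide +kernel)

theorem u4_3 : mdim (cyl 4 3) ≤ 5 :=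
  mdim_le_of_resB 4 3 (by norm_num) [(1, 0), (3, 0), (1, 1), (2, 1), (2, 2)] (by decide) (by decide) (by decide +kernel)

theorem u5_3 : mdim (cyl 5 3) ≤ 5 :=
  mdim_le_of_resB 5 3 (by norm_num) [(3, 0), (4, 0), (2, 1), (4, 1), (0, 2)] (by decide) (by decide) (by decide +kernel)

theorem u6_3 : mdim (cyl 6 3) ≤ 5 :=
  mdim_le_of_resB 6 3 (by norm_num) [(2, 0), (3, 0), (1, 1), (3, 1), (3, 2)] (by decide) (by decide) (by decide +kernel)

theorem u7_3 : mdim (cyl 7 3) ≤ 5 :=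
  mdim_le_of_resB 7 3 (by norm_num) [(1, 0), (2, 0), (6, 0), (5, 1), (0, 2)] (by decide) (by decide) (by decide +kernel)

theorem u4_4 : mdim (cyl 4 4) ≤ 5 :=
  mdim_le_of_resB 4 4 (by norm_num) [(2, 0), (1, 1), (2, 1), (1, 2), (2, 3)] (by decide) (by decide) (by decide +kernel)

theorem u5_4 : mdim (cyl 5 4) ≤ 5 :=
  mdim_le_of_resB 5 4 (by norm_num) [(0, 0), (3, 1), (4, 1), (2, 2), (3, 3)] (by decide) (by decide) (by decide +kernel)

theorem u6_4 : mdim (cyl 6 4) ≤ 5 :=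
  mdim_le_of_resB 6 4 (by norm_num) [(0, 0), (5, 1), (1, 2), (4, 3), (5, 3)] (by decide) (by decide) (by decide +kernel)

theorem u6_5 : mdim (cyl 6 5) ≤ 5 :=
  mdim_le_of_resB 6 5 (by norm_num) [(4, 0), (5, 1), (4, 3), (4, 4), (5, 4)] (by decide) (by decide) (by decide +kernel)

theorem u7_5 : mdim (cyl 7 5) ≤ 5 :=
  mdim_le_of_resB 7 5 (by norm_num) [(4, 0), (2, 2), (6, 2), (1, 3), (0, 4)] (by decide) (by decide) (by decide +kernel)

/-- All pairs of vertices for `(4, 1)`. -/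
def Q41 : List ((ℕ × ℕ) × (ℕ × ℕ)) :=
  [((0, 0), (1, 0)), ((0, 0), (2, 0)), ((0, 0), (3, 0)), ((1, 0), (2, 0)), ((1, 0), (3, 0)),
    ((2, 0), (3, 0))]

theorem top4_1 : mdim (cyl 4 1) = ⊤ :=
  mdim_top_of_subs 4 1 2 (by norm_num) (by norm_num) Q41 (by decide) (by decide)
    (by decide +kernel)

/-- All pairs of vertices for `(5, 1)`. -/
def Q51 : List ((ℕ × ℕ) × (ℕ × ℕ)) :=
  [((0, 0), (1, 0)), ((0, 0), (2, 0)), ((0, 0), (3, 0)), ((0, 0), (4, 0)), ((1, 0), (2, 0)),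
    ((1, 0), (3, 0)), ((1, 0), (4, 0)), ((2, 0), (3, 0)), ((2, 0), (4, 0)), ((3, 0), (4, 0))]

theorem top5_1 : mdim (cyl 5 1) = ⊤ :=
  mdim_top_of_subs 5 1 2 (by norm_num) (by norm_num) Q51 (by decide) (by decide)
    (by decide +kernel)

/-- All pairs of vertices for `(4, 2)`. -/
def Q42 : List ((ℕ × ℕ) × (ℕ × ℕ)) :=
  [((0, 0), (1, 0)), ((0, 0), (2, 0)), ((0, 0), (3, 0)), ((0, 0), (0, 1)), ((0, 0), (1, 1)),
    ((0, 0), (2, 1)), ((0, 0), (3, 1)), ((1, 0), (2, 0)), ((1, 0), (3, 0)), ((1, 0), (0, 1)),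
    ((1, 0), (1, 1)), ((1, 0), (2, 1)), ((1, 0), (3, 1)), ((2, 0), (3, 0)), ((2, 0), (0, 1)),
    ((2, 0), (1, 1)), ((2, 0), (2, 1)), ((2, 0), (3, 1)), ((3, 0), (0, 1)), ((3, 0), (1, 1)),
    ((3, 0), (2, 1)), ((3, 0), (3, 1)), ((0, 1), (1, 1)), ((0, 1), (2, 1)), ((0, 1), (3, 1)),
    ((1, 1), (2, 1)), ((1, 1), (3, 1)), ((2, 1), (3, 1))]

theorem top4_2 : mdim (cyl 4 2) = ⊤ :=
  mdim_top_of_subs 4 2 3 (by norm_num) (by norm_num) Q42 (by decide) (by decide)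
    (by decide +kernel)

/-- All pairs of vertices for `(5, 2)`. -/
def Q52 : List ((ℕ × ℕ) × (ℕ × ℕ)) :=
  [((0, 0), (1, 0)), ((0, 0), (2, 0)), ((0, 0), (3, 0)), ((0, 0), (4, 0)), ((0, 0), (0, 1)),
    ((0, 0), (1, 1)), ((0, 0), (2, 1)), ((0, 0), (3, 1)), ((0, 0), (4, 1)), ((1, 0), (2, 0)),
    ((1, 0), (3, 0)), ((1, 0), (4, 0)), ((1, 0), (0, 1)), ((1, 0), (1, 1)), ((1, 0), (2, 1)),
    ((1, 0), (3, 1)), ((1, 0), (4, 1)), ((2, 0), (3, 0)), ((2, 0), (4, 0)), ((2, 0), (0, 1)),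
    ((2, 0), (1, 1)), ((2, 0), (2, 1)), ((2, 0), (3, 1)), ((2, 0), (4, 1)), ((3, 0), (4, 0)),
    ((3, 0), (0, 1)), ((3, 0), (1, 1)), ((3, 0), (2, 1)), ((3, 0), (3, 1)), ((3, 0), (4, 1)),
    ((4, 0), (0, 1)), ((4, 0), (1, 1)), ((4, 0), (2, 1)), ((4, 0), (3, 1)), ((4, 0), (4, 1)),
    ((0, 1), (1, 1)), ((0, 1), (2, 1)), ((0, 1), (3, 1)), ((0, 1), (4, 1)), ((1, 1), (2, 1)),
    ((1, 1), (3, 1)), ((1, 1), (4, 1)), ((2, 1), (3, 1)), ((2, 1), (4, 1)), ((3, 1), (4, 1))]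

theorem top5_2 : mdim (cyl 5 2) = ⊤ :=
  mdim_top_of_subs 5 2 3 (by norm_num) (by norm_num) Q52 (by decide) (by decide)
    (by decide +kernel)

end Pool.Agent.Helper14.MDim
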