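import Mathlib
import Pool.Agent.Helper14.MDim.Arcs

/-!
# Three landmarks in one row resolving the cylinder
-/

namespace Pool.Agent.Helper14.MDim

theorem resO7 (k m : ℤ) (h0 : 1 ≤ k) (h1 : m ≤ 2*k+1) :
    Res3 (12*k+7) m 0 0 (2*k+2) 0 (6*k+3) 0 := by
  refine res3_row _ _ _ _ (by omega) (by omega) (by omega) (by omega) (by omega) (by omega) ?_
  intro x x' s A B C A' B' C' hx hx1 hx' hx1' hs hs1 h h' e
  unfold Same3 at e
  rcases h with h | h | h | h | h | h <;> rcases h' with h' | h' | h' | h' | h' | h' <;> omega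

theorem resO9 (k m : ℤ) (h0 : 1 ≤ k) (h1 : m ≤ 2*k+1) :
    Res3 (12*k+9) m 0 0 (2*k+2) 0 (6*k+5) 0 := by
  refine res3_row _ _ _ _ (by omega) (by omega) (by omega) (by omega) (by omega) (by omega) ?_
  intro x x' s A B C A' B' C' hx hx1 hx' hx1' hs hs1 h h' e
  unfold Same3 at e
  rcases h with h | h | h | h | h | h <;> rcases h' with h' | h' | h' | h' | h' | h' <;> omega

theorem resO11 (k m : ℤ) (h0 : 0 ≤ k) (h1 : m ≤ 2*k+2) :
    Res3 (12*k+11) m 0 0 (2*k+2) 0 (6*k+5) 0 := by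
  refine res3_row _ _ _ _ (by omega) (by omega) (by omega) (by omega) (by omega) (by omega) ?_
  intro x x' s A B C A' B' C' hx hx1 hx' hx1' hs hs1 h h' e
  unfold Same3 at e
  rcases h with h | h | h | h | h | h <;> rcases h' with h' | h' | h' | h' | h' | h' <;> omega

end Pool.Agent.Helper14.MDim
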