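import Mathlib
import Pool.Agent.Helper14.MDim.Arcs

/-!
# Four landmarks resolving the cylinder with at least six rows
-/

namespace Pool.Agent.Helper14.MDim

/-- Equality of the multisets `{a, b, c, d}` and `{a', b', c', d'}`, as equality of the first
element with one of the others and equality of the remaining triples. -/
def Same4 (a b c d a' b' c' d' : ℤ) : Prop :=
  (a = a' ∧ Same3 b c d b' c' d') ∨ (a = b' ∧ Same3 b c d a' c' d') ∨
  (a = c' ∧ Same3 b c d a' b' d') ∨ (a = d' ∧ Same3 b c d a' b' c')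

/-- The column types with respect to the landmarks in columns `0` and `1`. -/
def Col (n x A B : ℤ) : Prop :=
  (1 ≤ x ∧ 2*x ≤ n ∧ A = x ∧ B = x - 1) ∨
  (x = 0 ∧ A = 0 ∧ B = 1) ∨
  (n + 2 ≤ 2*x ∧ A = n - x ∧ B = n - x + 1) ∨
  (2*x = n + 1 ∧ A = n - x ∧ B = n - x)

lemma col_of (n x : ℤ) (hn : 4 ≤ n) (hx : 0 ≤ x) (hx' : x < n) :
    Col n x (cd n x 0) (cd n x 1) := by
  unfold Col
  by_cases e0 : x = 0
  · right; left; subst e0; refine ⟨rfl, ?_, ?_⟩ <;> simp only [cd] <;> omega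
  by_cases e1 : 2*x ≤ n
  · left; refine ⟨by omega, e1, ?_, ?_⟩ <;> simp only [cd] <;> omega
  by_cases e2 : 2*x = n + 1
  · right; right; right; refine ⟨e2, ?_, ?_⟩ <;> simp only [cd] <;> omega
  · right; right; left; refine ⟨by omega, ?_, ?_⟩ <;> simp only [cd] <;> omega

theorem resW (n m : ℤ) (hn : 4 ≤ n) (hm : 6 ≤ m) (x r x' r' : ℤ) (hx : 0 ≤ x) (hx1 : x < n)
    (hr : 0 ≤ r) (hr1 : r < m) (hx' : 0 ≤ x') (hx1' : x' < n) (hr' : 0 ≤ r') (hr1' : r' < m)
    (hs : Same4 (dd n x r 0 0) (dd n x r 1 0) (dd n x r 0 (m-3)) (dd n x r 0 (m-1))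
      (dd n x' r' 0 0) (dd n x' r' 1 0) (dd n x' r' 0 (m-3)) (dd n x' r' 0 (m-1))) :
    x = x' ∧ r = r' := by
  have a1 : ad r 0 = r := by simp only [ad]; omega
  have a2 : ad r' 0 = r' := by simp only [ad]; omega
  have a3 : ad r (m-1) = m - 1 - r := by simp only [ad]; omega
  have a4 : ad r' (m-1) = m - 1 - r' := by simp only [ad]; omega
  have a5 : (r ≤ m - 3 ∧ ad r (m-3) = m - 3 - r) ∨ (m - 2 ≤ r ∧ ad r (m-3) = r - (m-3)) := by
    simp only [ad]; omega
  have a6 : (r' ≤ m - 3 ∧ ad r' (m-3) = m - 3 - r') ∨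
      (m - 2 ≤ r' ∧ ad r' (m-3) = r' - (m-3)) := by
    simp only [ad]; omega
  simp only [dd, a1, a2, a3, a4] at hs
  have k1 := col_of n x hn hx hx1
  have k2 := col_of n x' hn hx' hx1'
  generalize cd n x 0 = A at *
  generalize cd n x 1 = B at *
  generalize cd n x' 0 = A' at *
  generalize cd n x' 1 = B' at *
  generalize ad r (m-3) = C at *
  generalize ad r' (m-3) = C' at *
  unfold Same4 Same3 at hs
  unfold Col at k1 k2
  rcases a5 with a5 | a5 <;> rcases a6 with a6 | a6 <;>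
  rcases k1 with k1 | k1 | k1 | k1 <;> rcases k2 with k2 | k2 | k2 | k2 <;>
    rcases hs with hs | hs | hs | hs <;> omega

end Pool.Agent.Helper14.MDim
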