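import Mathlib
import Pool.Agent.Helper14.MDim.Arcs

/-!
# Further resolving sets of the cylinder
-/

namespace Pool.Agent.Helper14.MDim

/-- Arcs for the two landmarks `0 < b`, `2 b ≤ n`. -/
def Arc2 (n b x A B : ℤ) : Prop :=
  (x ≤ b ∧ A = x ∧ B = b - x) ∨
  (b < x ∧ 2*x ≤ n ∧ A = x ∧ B = x - b) ∨
  (b < x ∧ n < 2*x ∧ 2*(x-b) ≤ n ∧ A = n - x ∧ B = x - b) ∨
  (b < x ∧ n < 2*(x-b) ∧ A = n - x ∧ B = n - (x - b))

lemma arc2_of (n b x : ℤ) (hb : 0 < b) (g1 : 2*b ≤ n) (hx : 0 ≤ x) (hx' : x < n) :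
    Arc2 n b x (cd n x 0) (cd n x b) := by
  unfold Arc2
  by_cases e1 : x ≤ b
  · left
    refine ⟨e1, ?_, ?_⟩ <;> simp only [cd] <;> omega
  by_cases e2 : 2*x ≤ n
  · right; left
    refine ⟨by omega, e2, ?_, ?_⟩ <;> simp only [cd] <;> omega
  by_cases e3 : 2*(x-b) ≤ n
  · right; right; left
    refine ⟨by omega, by omega, e3, ?_, ?_⟩ <;> simp only [cd] <;> omega
  · right; right; right
    refine ⟨by omega, by omega, ?_, ?_⟩ <;> simp only [cd] <;> omega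

theorem resX (h m : ℤ) (h0 : 2 ≤ m) (h1 : m % 2 = 0) (h2 : 3*m ≤ h) :
    Res3 (2*h) m 0 0 (2*m) 0 0 (m-1) := by
  intro x r x' r' hx hx1 hr hr1 hx' hx1' hr' hr1' hs
  have a1 : ad r 0 = r := by simp only [ad]; omega
  have a2 : ad r' 0 = r' := by simp only [ad]; omega
  have a3 : ad r (m-1) = m - 1 - r := by simp only [ad]; omega
  have a4 : ad r' (m-1) = m - 1 - r' := by simp only [ad]; omega
  simp only [dd, a1, a2, a3, a4] at hs
  have k1 := arc2_of (2*h) (2*m) x (by omega) (by omega) hx hx1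
  have k2 := arc2_of (2*h) (2*m) x' (by omega) (by omega) hx' hx1'
  generalize cd (2*h) x 0 = A at *
  generalize cd (2*h) x (2*m) = B at *
  generalize cd (2*h) x' 0 = A' at *
  generalize cd (2*h) x' (2*m) = B' at *
  unfold Same3 at hs
  unfold Arc2 at k1 k2
  rcases k1 with k1 | k1 | k1 | k1 <;> rcases k2 with k2 | k2 | k2 | k2 <;> omega

/-- One row: the landmarks `0`, `1`, `3` resolve `C_n` for `n ≥ 6`. -/
theorem resOne (n : ℤ) (hn : 6 ≤ n) : Res3 n 1 0 0 1 0 3 0 := by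
  intro x r x' r' hx hx1 hr hr1 hx' hx1' hr' hr1' hs
  obtain rfl : r = 0 := by omega
  obtain rfl : r' = 0 := by omega
  refine ⟨?_, rfl⟩
  have a1 : ad 0 0 = 0 := by simp only [ad]; omega
  simp only [dd, a1, add_zero] at hs
  have key : ∀ x, 0 ≤ x → x < n → (x = 0 ∧ cd n x 0 = 0 ∧ cd n x 1 = 1 ∧ cd n x 3 = 3) ∨
      (x = 1 ∧ cd n x 0 = 1 ∧ cd n x 1 = 0 ∧ cd n x 3 = 2) ∨
      (x = 2 ∧ cd n x 0 = 2 ∧ cd n x 1 = 1 ∧ cd n x 3 = 1) ∨
      (3 ≤ x ∧ 2*x ≤ n ∧ cd n x 0 = x ∧ cd n x 1 = x - 1 ∧ cd n x 3 = x - 3) ∨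
      (3 ≤ x ∧ n < 2*x ∧ 2*x ≤ n+2 ∧ cd n x 0 = n - x ∧ cd n x 1 = x - 1 ∧ cd n x 3 = x - 3) ∨
      (n + 2 < 2*x ∧ 2*x ≤ n+6 ∧ cd n x 0 = n - x ∧ cd n x 1 = n - x + 1 ∧ cd n x 3 = x - 3) ∨
      (n + 6 < 2*x ∧ cd n x 0 = n - x ∧ cd n x 1 = n - x + 1 ∧ cd n x 3 = n - x + 3) := by
    intro x hx hx1
    by_cases e0 : x = 0
    · left; subst e0; refine ⟨rfl, ?_, ?_, ?_⟩ <;> simp only [cd] <;> omega
    by_cases e1 : x = 1
    · right; left; subst e1; refine ⟨rfl, ?_, ?_, ?_⟩ <;> simp only [cd] <;> omega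
    by_cases e2 : x = 2
    · right; right; left; subst e2; refine ⟨rfl, ?_, ?_, ?_⟩ <;> simp only [cd] <;> omega
    by_cases e3 : 2*x ≤ n
    · right; right; right; left
      refine ⟨by omega, by omega, ?_, ?_, ?_⟩ <;> simp only [cd] <;> omega
    by_cases e4 : 2*x ≤ n+2
    · right; right; right; right; left
      refine ⟨by omega, by omega, by omega, ?_, ?_, ?_⟩ <;> simp only [cd] <;> omega
    by_cases e5 : 2*x ≤ n+6
    · right; right; right; right; right; left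
      refine ⟨by omega, by omega, ?_, ?_, ?_⟩ <;> simp only [cd] <;> omega
    · right; right; right; right; right; right
      refine ⟨by omega, ?_, ?_, ?_⟩ <;> simp only [cd] <;> omega
  have k1 := key x hx hx1
  have k2 := key x' hx' hx1'
  generalize cd n x 0 = A at *
  generalize cd n x 1 = B at *
  generalize cd n x 3 = C at *
  generalize cd n x' 0 = A' at *
  generalize cd n x' 1 = B' at *
  generalize cd n x' 3 = C' at *
  unfold Same3 at hs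
  rcases k1 with k1 | k1 | k1 | k1 | k1 | k1 | k1 <;>
    rcases k2 with k2 | k2 | k2 | k2 | k2 | k2 | k2 <;> omega

end Pool.Agent.Helper14.MDim
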