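import Mathlib
import Pool.Agent.Helper14.MDim.Bridge
import Pool.Agent.Helper14.MDim.UpOdd
import Pool.Agent.Helper14.MDim.UpOdd2
import Pool.Agent.Helper14.MDim.UpEven
import Pool.Agent.Helper14.MDim.UpX
import Pool.Agent.Helper14.MDim.UpW

/-!
# Upper bounds for the multiset dimension of cylinders
-/

namespace Pool.Agent.Helper14.MDim

theorem mdim_le_three_int (n m : ℕ) (hn : 3 ≤ n) (x1 y1 x2 y2 x3 y3 : ℤ)
    (h1 : 0 ≤ x1 ∧ x1 < n ∧ 0 ≤ y1 ∧ y1 < m) (h2 : 0 ≤ x2 ∧ x2 < n ∧ 0 ≤ y2 ∧ y2 < m)
    (h3 : 0 ≤ x3 ∧ x3 < n ∧ 0 ≤ y3 ∧ y3 < m)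
    (d12 : x1 ≠ x2 ∨ y1 ≠ y2) (d13 : x1 ≠ x3 ∨ y1 ≠ y3) (d23 : x2 ≠ x3 ∨ y2 ≠ y3)
    (H : Res3 n m x1 y1 x2 y2 x3 y3) : mdim (cyl n m) ≤ 3 := by
  obtain ⟨a1, a2, a3, a4⟩ := h1
  obtain ⟨b1, b2, b3, b4⟩ := h2
  obtain ⟨c1, c2, c3, c4⟩ := h3
  lift x1 to ℕ using a1
  lift y1 to ℕ using a3
  lift x2 to ℕ using b1
  lift y2 to ℕ using b3
  lift x3 to ℕ using c1
  lift y3 to ℕ using c3
  refine mdim_le_three n m hn x1 y1 x2 y2 x3 y3 (by omega) (by omega) (by omega) (by omega)
    (by omega) (by omega) ?_ ?_ ?_ H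
  · intro h; rw [Prod.mk.injEq] at h; omega
  · intro h; rw [Prod.mk.injEq] at h; omega
  · intro h; rw [Prod.mk.injEq] at h; omega

/-- The range of `(n, m)` where three landmarks suffice. -/
def Good (n m : ℕ) : Prop :=
  (m = 1 ∧ 6 ≤ n) ∨ (2 ≤ m ∧ m % 2 = 0 ∧ (n + 1 = 6*m ∨ n = 6*m ∨ 6*m + 2 ≤ n)) ∨
  (2 ≤ m ∧ m % 2 = 1 ∧ (n = 6*m ∨ n = 6*m + 1 ∨ 6*m + 3 ≤ n))

theorem mdim_le_of_good (n m : ℕ) (hg : Good n m) : mdim (cyl n m) ≤ 3 := by
  unfold Good at hg
  by_cases h1 : m = 1
  · subst h1
    refine mdim_le_three_int n 1 (by omega) 0 0 1 0 3 0 (by omega) (by omega) (by omega)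
      (by omega) (by omega) (by omega) ?_
    have := resOne n (by omega)
    exact_mod_cast this
  by_cases h2 : n % 2 = 0
  · obtain ⟨h, hh⟩ : ∃ h, n = 2*h := ⟨n/2, by omega⟩
    by_cases h3 : m % 2 = 0
    · refine mdim_le_three_int n m (by omega) 0 0 (2*m) 0 0 (m-1) (by omega) (by omega)
        (by omega) (by omega) (by omega) (by omega) ?_
      have := resX h m (by omega) (by omega) (by omega)
      rw [hh]
      push_cast
      exact this
    · by_cases h4 : h % 2 = 1
      · refine mdim_le_three_int n m (by omega) 0 0 m 0 h 0 (by omega) (by omega)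
          (by omega) (by omega) (by omega) (by omega) ?_
        have := resY h m (by omega) (by omega) (by omega) (by omega) (by omega)
        rw [hh]
        push_cast
        exact this
      · refine mdim_le_three_int n m (by omega) 0 0 (m+2) 0 (h+1) 0 (by omega) (by omega)
          (by omega) (by omega) (by omega) (by omega) ?_
        have := resZ h m (by omega) (by omega) (by omega) (by omega)
        rw [hh]
        push_cast
        exact this
  · obtain ⟨k, hk⟩ : ∃ k, n = 12*k + 1 ∨ n = 12*k + 3 ∨ n = 12*k + 5 ∨ n = 12*k + 7 ∨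
      n = 12*k + 9 ∨ n = 12*k + 11 := ⟨n/12, by omega⟩
    rcases hk with hk | hk | hk | hk | hk | hk
    · refine mdim_le_three_int n m (by omega) 0 0 (2*k+2) 0 (6*k+1) 0 (by omega) (by omega)
        (by omega) (by omega) (by omega) (by omega) ?_
      have := resO1 k m (by omega) (by omega)
      rw [hk]
      push_cast
      exact this
    · refine mdim_le_three_int n m (by omega) 0 0 (2*k+2) 0 (6*k+1) 0 (by omega) (by omega)
        (by omega) (by omega) (by omega) (by omega) ?_
      have := resO3 k m (by omega) (by omega)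
      rw [hk]
      push_cast
      exact this
    · refine mdim_le_three_int n m (by omega) 0 0 (2*k+2) 0 (6*k+3) 0 (by omega) (by omega)
        (by omega) (by omega) (by omega) (by omega) ?_
      have := resO5 k m (by omega) (by omega)
      rw [hk]
      push_cast
      exact this
    · refine mdim_le_three_int n m (by omega) 0 0 (2*k+2) 0 (6*k+3) 0 (by omega) (by omega)
        (by omega) (by omega) (by omega) (by omega) ?_
      have := resO7 k m (by omega) (by omega)
      rw [hk]
      push_cast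
      exact this
    · refine mdim_le_three_int n m (by omega) 0 0 (2*k+2) 0 (6*k+5) 0 (by omega) (by omega)
        (by omega) (by omega) (by omega) (by omega) ?_
      have := resO9 k m (by omega) (by omega)
      rw [hk]
      push_cast
      exact this
    · refine mdim_le_three_int n m (by omega) 0 0 (2*k+2) 0 (6*k+5) 0 (by omega) (by omega)
        (by omega) (by omega) (by omega) (by omega) ?_
      have := resO11 k m (by omega) (by omega)
      rw [hk]
      push_cast
      exact this

lemma same4_of_perm {a b c d a' b' c' d' : ℕ} (hp : [a, b, c, d].Perm [a', b', c', d']) :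
    Same4 (a : ℤ) b c d a' b' c' d' := by
  have ha : a ∈ [a', b', c', d'] := hp.subset (by simp)
  simp only [List.mem_cons, List.not_mem_nil, or_false] at ha
  unfold Same4
  rcases ha with rfl | rfl | rfl | rfl
  · left
    exact ⟨rfl, same3_of_perm (by simpa using hp)⟩
  · right; left
    have hp2 : [a, b, c, d].Perm [a, a', c', d'] := hp.trans (List.Perm.swap _ _ _)
    exact ⟨rfl, same3_of_perm (by simpa using hp2)⟩
  · right; right; left
    have e : [a', b', a, d'].Perm [a, a', b', d'] := by
      have e1 : [a', b', a, d'].Perm [a', a, b', d'] := List.Perm.cons _ (List.Perm.swap _ _ _)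
      exact e1.trans (List.Perm.swap _ _ _)
    have hp2 : [a, b, c, d].Perm [a, a', b', d'] := hp.trans e
    exact ⟨rfl, same3_of_perm (by simpa using hp2)⟩
  · right; right; right
    have e : [a', b', c', a].Perm [a, a', b', c'] := by
      have : [a', b', c', a].Perm ([a', b', c'] ++ [a]) := by simp
      exact this.trans List.perm_append_comm
    have hp2 : [a, b, c, d].Perm [a, a', b', c'] := hp.trans e
    exact ⟨rfl, same3_of_perm (by simpa using hp2)⟩

theorem mdim_le_four (n m : ℕ) (hn : 4 ≤ n) (hm : 6 ≤ m) : mdim (cyl n m) ≤ 4 := by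
  refine mdim_le n m (by omega) [(0, 0), (1, 0), (0, m - 3), (0, m - 1)] ?_ ?_ ?_
  · intro p hp
    simp only [List.mem_cons, List.not_mem_nil, or_false] at hp
    rcases hp with rfl | rfl | rfl | rfl <;> constructor <;> simp only <;> omega
  · simp only [List.nodup_cons, List.mem_cons, List.not_mem_nil, or_false, not_false_eq_true,
      List.nodup_nil, and_true, not_or, Prod.mk.injEq, not_and]
    refine ⟨⟨?_, ?_, ?_⟩, ⟨?_, ?_⟩, ?_⟩ <;> intro h <;> omega
  · intro u v hu1 hu2 hv1 hv2 hp
    have hs := same4_of_perm hp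
    rw [dN_eq n u (0, 0) hu1 (by simp only; omega), dN_eq n u (1, 0) hu1 (by simp only; omega),
      dN_eq n u (0, m-3) hu1 (by simp only; omega), dN_eq n u (0, m-1) hu1 (by simp only; omega),
      dN_eq n v (0, 0) hv1 (by simp only; omega), dN_eq n v (1, 0) hv1 (by simp only; omega),
      dN_eq n v (0, m-3) hv1 (by simp only; omega),
      dN_eq n v (0, m-1) hv1 (by simp only; omega)] at hs
    have e3 : ((m - 3 : ℕ) : ℤ) = (m : ℤ) - 3 := by omega
    have e1 : ((m - 1 : ℕ) : ℤ) = (m : ℤ) - 1 := by omega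
    simp only [e3, e1, Nat.cast_zero, Nat.cast_one] at hs
    have := resW n m (by omega) (by omega) u.1 u.2 v.1 v.2 (by omega) (by omega) (by omega)
      (by omega) (by omega) (by omega) (by omega) (by omega) hs
    exact Prod.ext (by omega) (by omega)

end Pool.Agent.Helper14.MDim
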