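import Mathlib
import Pool.Agent.Helper14.MDim.Upper
import Pool.Agent.Helper14.MDim.Five
import Pool.Agent.Helper14.MDim.Tables
import Pool.Agent.Helper14.MDim.SearchA
import Pool.Agent.Helper14.MDim.SearchB
import Pool.Agent.Helper14.MDim.SearchC

/-!
# The multiset dimension of all cylinders `C_n □ P_m` with `n ≥ 4`
-/

namespace Pool.Agent.Helper14.MDim

lemma bad_of_not_good (n m : ℕ) (hm : 2 ≤ m) (h : ¬ Good n m) : Bad n m := by
  unfold Good at h
  unfold Bad
  omega

/-- The exceptional pairs. -/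
def Exc (n m : ℕ) : Prop :=
  (m = 2 ∧ (n = 6 ∨ n = 7)) ∨ (m = 3 ∧ (n = 4 ∨ n = 5 ∨ n = 6 ∨ n = 7)) ∨
  (m = 4 ∧ (n = 4 ∨ n = 5 ∨ n = 6)) ∨ (m = 5 ∧ (n = 6 ∨ n = 7))

theorem mdim_eq_five (n m : ℕ) (h : Exc n m) : mdim (cyl n m) = 5 := by
  unfold Exc at h
  rcases h with ⟨rfl, h⟩ | ⟨rfl, h⟩ | ⟨rfl, h⟩ | ⟨rfl, h⟩
  · rcases h with rfl | rfl
    · exact le_antisymm u6_2 (five_le_mdim 6 2 (by norm_num) (by norm_num) (by unfold Bad; omega)
        (by norm_num) P62 (by decide) (fun r hr => ⟨0, 2, by omega, hr, s62⟩))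
    · exact le_antisymm u7_2 (five_le_mdim 7 2 (by norm_num) (by norm_num) (by unfold Bad; omega)
        (by norm_num) P72 (by decide) (fun r hr => ⟨0, 2, by omega, hr, s72⟩))
  · rcases h with rfl | rfl | rfl | rfl
    · exact le_antisymm u4_3 (five_le_mdim 4 3 (by norm_num) (by norm_num) (by unfold Bad; omega)
        (by norm_num) P43 (by decide) (fun r hr => ⟨0, 3, by omega, hr, s43⟩))
    · exact le_antisymm u5_3 (five_le_mdim 5 3 (by norm_num) (by norm_num) (by unfold Bad; omega)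
        (by norm_num) P53 (by decide) (fun r hr => ⟨0, 3, by omega, hr, s53⟩))
    · exact le_antisymm u6_3 (five_le_mdim 6 3 (by norm_num) (by norm_num) (by unfold Bad; omega)
        (by norm_num) P63 (by decide) (fun r hr => ⟨0, 3, by omega, hr, s63⟩))
    · exact le_antisymm u7_3 (five_le_mdim 7 3 (by norm_num) (by norm_num) (by unfold Bad; omega)
        (by norm_num) P73 (by decide) (fun r hr => ⟨0, 3, by omega, hr, s73⟩))
  · rcases h with rfl | rfl | rfl
    · exact le_antisymm u4_4 (five_le_mdim 4 4 (by norm_num) (by norm_num) (by unfold Bad; omega)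
        (by norm_num) P44 (by decide) (fun r hr => ⟨0, 4, by omega, hr, s44⟩))
    · exact le_antisymm u5_4 (five_le_mdim 5 4 (by norm_num) (by norm_num) (by unfold Bad; omega)
        (by norm_num) P54 (by decide) (fun r hr => ⟨0, 4, by omega, hr, s54⟩))
    · exact le_antisymm u6_4 (five_le_mdim 6 4 (by norm_num) (by norm_num) (by unfold Bad; omega)
        (by norm_num) P64 (by decide) (fun r hr => ⟨0, 4, by omega, hr, s64⟩))
  · rcases h with rfl | rfl
    · refine le_antisymm u6_5 (five_le_mdim 6 5 (by norm_num) (by norm_num)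
        (by unfold Bad; omega) (by norm_num) P65 (by decide +kernel) ?_)
      intro r hr
      interval_cases r
      · exact ⟨0, 1, by omega, by omega, s65_0⟩
      · exact ⟨1, 2, by omega, by omega, s65_1⟩
      · exact ⟨2, 3, by omega, by omega, s65_2⟩
      · exact ⟨3, 4, by omega, by omega, s65_3⟩
      · exact ⟨4, 5, by omega, by omega, s65_4⟩
    · refine le_antisymm u7_5 (five_le_mdim 7 5 (by norm_num) (by norm_num)
        (by unfold Bad; omega) (by norm_num) P75 (by decide +kernel) ?_)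
      intro r hr
      interval_cases r
      · exact ⟨0, 1, by omega, by omega, s75_0⟩
      · exact ⟨1, 2, by omega, by omega, s75_1⟩
      · exact ⟨2, 3, by omega, by omega, s75_2⟩
      · exact ⟨3, 4, by omega, by omega, s75_3⟩
      · exact ⟨4, 5, by omega, by omega, s75_4⟩

theorem mdim_le_four_small (n m : ℕ) (hn : 4 ≤ n) (hm : 2 ≤ m) (hm' : m ≤ 5) (hb : Bad n m)
    (he : ¬ Exc n m) (he' : ¬ (m = 2 ∧ (n = 4 ∨ n = 5))) : mdim (cyl n m) ≤ 4 := by
  unfold Bad at hb
  unfold Exc at he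
  obtain rfl | rfl | rfl | rfl : m = 2 ∨ m = 3 ∨ m = 4 ∨ m = 5 := by omega
  · obtain rfl | rfl | rfl | rfl : n = 8 ∨ n = 9 ∨ n = 10 ∨ n = 13 := by omega
    · exact u8_2
    · exact u9_2
    · exact u10_2
    · exact u13_2
  · obtain rfl | rfl | rfl | rfl | rfl | rfl | rfl | rfl | rfl | rfl | rfl : n = 8 ∨ n = 9 ∨
        n = 10 ∨ n = 11 ∨ n = 12 ∨ n = 13 ∨ n = 14 ∨ n = 15 ∨ n = 16 ∨ n = 17 ∨ n = 20 := by
      omega
    · exact u8_3
    · exact u9_3
    · exact u10_3
    · exact u11_3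
    · exact u12_3
    · exact u13_3
    · exact u14_3
    · exact u15_3
    · exact u16_3
    · exact u17_3
    · exact u20_3
  · obtain rfl | rfl | rfl | rfl | rfl | rfl | rfl | rfl | rfl | rfl | rfl | rfl | rfl | rfl |
        rfl | rfl | rfl : n = 7 ∨ n = 8 ∨ n = 9 ∨ n = 10 ∨ n = 11 ∨ n = 12 ∨ n = 13 ∨ n = 14 ∨
        n = 15 ∨ n = 16 ∨ n = 17 ∨ n = 18 ∨ n = 19 ∨ n = 20 ∨ n = 21 ∨ n = 22 ∨ n = 25 := by
      omega
    · exact u7_4
    · exact u8_4
    · exact u9_4
    · exact u10_4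
    · exact u11_4
    · exact u12_4
    · exact u13_4
    · exact u14_4
    · exact u15_4
    · exact u16_4
    · exact u17_4
    · exact u18_4
    · exact u19_4
    · exact u20_4
    · exact u21_4
    · exact u22_4
    · exact u25_4
  · obtain rfl | rfl | rfl | rfl | rfl | rfl | rfl | rfl | rfl | rfl | rfl | rfl | rfl | rfl |
        rfl | rfl | rfl | rfl | rfl | rfl | rfl | rfl | rfl | rfl | rfl : n = 4 ∨ n = 5 ∨
        n = 8 ∨ n = 9 ∨ n = 10 ∨ n = 11 ∨ n = 12 ∨ n = 13 ∨ n = 14 ∨ n = 15 ∨ n = 16 ∨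
        n = 17 ∨ n = 18 ∨ n = 19 ∨ n = 20 ∨ n = 21 ∨ n = 22 ∨ n = 23 ∨ n = 24 ∨ n = 25 ∨
        n = 26 ∨ n = 27 ∨ n = 28 ∨ n = 29 ∨ n = 32 := by
      omega
    · exact u4_5
    · exact u5_5
    · exact u8_5
    · exact u9_5
    · exact u10_5
    · exact u11_5
    · exact u12_5
    · exact u13_5
    · exact u14_5
    · exact u15_5
    · exact u16_5
    · exact u17_5
    · exact u18_5
    · exact u19_5
    · exact u20_5
    · exact u21_5
    · exact u22_5
    · exact u23_5
    · exact u24_5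
    · exact u25_5
    · exact u26_5
    · exact u27_5
    · exact u28_5
    · exact u29_5
    · exact u32_5

end Pool.Agent.Helper14.MDim
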